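import Pool.Agent.GOD.StmtS

/-!
# Arithmetic in `ZMod n`
-/

namespace Pool.GOD

namespace MGraph

namespace SArith

theorem natCast_ne_zero {n k : ℕ} (h0 : 0 < k) (h : k < n) : (k : ZMod n) ≠ 0 := by
  intro h1
  rw [ZMod.natCast_eq_zero_iff] at h1
  exact absurd (Nat.le_of_dvd h0 h1) (by omega)

theorem four_ne {n : ℕ} (hn : 5 ≤ n) : (4 : ZMod n) ≠ 0 := by
  have := natCast_ne_zero (n := n) (k := 4) (by omega) (by omega)
  exact_mod_cast this

theorem concl {n : ℕ} (hn : 5 ≤ n) (h : (3 : ZMod n) = 0 ∨ (5 : ZMod n) = 0) : n = 5 := by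
  rcases h with h | h
  · exfalso
    apply natCast_ne_zero (n := n) (k := 3) (by omega) (by omega)
    exact_mod_cast h
  · have h1 : ((5 : ℕ) : ZMod n) = 0 := by exact_mod_cast h
    rw [ZMod.natCast_eq_zero_iff] at h1
    have := Nat.le_of_dvd (by omega) h1
    omega

end SArith

open SArith

theorem s_Arith : Stmt_S_Arith := by
  intro n π _ hn h1 h2
  have hc : ∀ k : ℕ, π (2 * ((k + 1 : ℕ) : ZMod n)) = π (2 * (k : ZMod n)) + 1 ∨
      π (2 * ((k + 1 : ℕ) : ZMod n)) = π (2 * (k : ZMod n)) - 1 := by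
    intro k
    have h := h1 (2 * (k : ZMod n) + 1)
    have e1 : 2 * (k : ZMod n) + 1 + 1 = 2 * ((k + 1 : ℕ) : ZMod n) := by push_cast; ring
    have e2 : 2 * (k : ZMod n) + 1 - 1 = 2 * (k : ZMod n) := by ring
    rw [e1, e2] at h
    exact h
  have hne : ∀ k : ℕ, π (2 * ((k + 1 + 1 : ℕ) : ZMod n)) ≠ π (2 * (k : ZMod n)) := by
    intro k h
    have h3 := π.injective h
    apply four_ne hn
    have : (4 : ZMod n) = 2 * ((k + 1 + 1 : ℕ) : ZMod n) - 2 * (k : ZMod n) := by push_cast; ring
    rw [this, h3, sub_self]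
  obtain ⟨ε, hε, h0⟩ : ∃ ε : ZMod n, (ε = 1 ∨ ε = -1) ∧
      π (2 * ((0 + 1 : ℕ) : ZMod n)) = π (2 * ((0 : ℕ) : ZMod n)) + ε := by
    rcases hc 0 with h | h
    · exact ⟨1, Or.inl rfl, h⟩
    · exact ⟨-1, Or.inr rfl, by rw [h]; ring⟩
  have hs : ∀ k : ℕ, π (2 * ((k + 1 : ℕ) : ZMod n)) = π (2 * (k : ZMod n)) + ε := by
    intro k
    induction k with
    | zero => exact h0
    | succ k ih =>
      have h3 := hne k
      rcases hc (k + 1) with h | h <;> rcases hε with rfl | rfl
      · exact h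
      · exfalso
        apply h3
        rw [h, ih]
        ring
      · exfalso
        apply h3
        rw [h, ih]
        ring
      · rw [h]
        ring
  have hk : ∀ k : ℕ, π (2 * (k : ZMod n)) = π 0 + k * ε := by
    intro k
    induction k with
    | zero => simp
    | succ k ih =>
      rw [hs k, ih]
      push_cast
      ring
  have g1 : π 2 = π 0 + ε := by
    have := hk 1
    simpa using this
  have g2 : π (-2) = π 0 - ε := by
    have h3 := hk (n - 1)
    have e : ((n - 1 : ℕ) : ZMod n) = -1 := by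
      rw [Nat.cast_sub (by omega : 1 ≤ n), ZMod.natCast_self]
      simp
    rw [e] at h3
    have e2 : (2 : ZMod n) * -1 = -2 := by ring
    rw [e2] at h3
    rw [h3]
    ring
  have g3 : π.symm (π 0 + ε) = 2 := by rw [← g1, Equiv.symm_apply_apply]
  have g4 : π.symm (π 0 - ε) = -2 := by rw [← g2, Equiv.symm_apply_apply]
  apply concl hn
  have h3 := h2 (π 0)
  rcases hε with rfl | rfl
  · rw [g3, g4] at h3
    rcases h3 with h3 | h3
    · left
      have : (3 : ZMod n) = 2 - (-2 + 1) := by ring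
      rw [this, ← h3, sub_self]
    · right
      have : (5 : ZMod n) = 2 - (-2 - 1) := by ring
      rw [this, ← h3, sub_self]
  · rw [sub_neg_eq_add] at g4
    rw [← sub_eq_add_neg] at g3
    rw [g3, g4] at h3
    rcases h3 with h3 | h3
    · right
      have : (5 : ZMod n) = (2 + 1) - (-2) := by ring
      rw [this, ← h3, sub_self]
    · left
      have : (3 : ZMod n) = (2 - 1) - (-2) := by ring
      rw [this, ← h3, sub_self]

end MGraph

end Pool.GOD
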