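import Pool.Agent.GOD.StmtS

/-!
The basic facts on permutation graphs (MP_7b7176_co, strong version): degrees of the two weight
classes, parity, simplicity.
-/

set_option autoImplicit false
set_option linter.unusedSectionVars false

namespace Pool.GOD

namespace MGraph

namespace SBasic

variable {V E : Type*} [Fintype V] [DecidableEq V] [Fintype E] [DecidableEq E] {G : MGraph V E}
  {w : E → ℕ} {n : ℕ} {a b : ZMod n → V} {p q m : ZMod n → E} {π : Equiv.Perm (ZMod n)}

lemma htwo (hd : G.PermData w n a b p q m π) (e : E) : e ∈ two w ↔ ∃ i, e = m i := by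
  simp only [two, Finset.mem_filter, Finset.mem_univ, true_and]
  constructor
  · intro h
    rcases hd.surjE e with ⟨i, rfl⟩ | ⟨i, rfl⟩ | ⟨i, rfl⟩
    · rw [hd.wp i] at h; omega
    · rw [hd.wq i] at h; omega
    · exact ⟨i, rfl⟩
  · rintro ⟨i, rfl⟩
    exact hd.wm i

lemma hone (hd : G.PermData w n a b p q m π) (e : E) :
    e ∈ one w ↔ (∃ i, e = p i) ∨ ∃ i, e = q i := by
  simp only [one, Finset.mem_filter, Finset.mem_univ, true_and]
  constructor
  · intro h
    rcases hd.surjE e with h1 | h1 | ⟨i, rfl⟩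
    · exact Or.inl h1
    · exact Or.inr h1
    · rw [hd.wm i] at h; omega
  · rintro (⟨i, rfl⟩ | ⟨i, rfl⟩)
    · exact hd.wp i
    · exact hd.wq i

lemma hdeg2a (hd : G.PermData w n a b p q m π) (i : ZMod n) : G.deg (two w) (a i) = 1 := by
  rw [deg, Finset.card_eq_one]
  refine ⟨m i, ?_⟩
  ext e
  rw [Finset.mem_filter, Finset.mem_singleton, htwo hd]
  constructor
  · rintro ⟨⟨j, rfl⟩, h⟩
    rw [hd.endm j, Sym2.mem_iff] at h
    rcases h with h | h
    · rw [hd.inja h]
    · exact absurd h (hd.disj _ _)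
  · rintro rfl
    exact ⟨⟨i, rfl⟩, by rw [hd.endm i]; exact Sym2.mem_mk_left _ _⟩

lemma hdeg1a (hd : G.PermData w n a b p q m π) (i : ZMod n) : G.deg (one w) (a i) = 2 := by
  have hne : p i ≠ p (i - 1) := by
    intro h
    have h1 := Cyc4X.p_inj hd h
    have h2 : (1 : ZMod n) = 0 := by
      have h3 : i - (i - 1) = 0 := by rw [← h1]; exact sub_self i
      rwa [sub_sub_cancel] at h3
    have h5 : ((1 : ℕ) : ZMod n) = 0 := by rw [Nat.cast_one]; exact h2
    have h6 := Nat.le_of_dvd (by norm_num) ((ZMod.natCast_eq_zero_iff 1 n).1 h5)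
    have h7 := hd.five
    omega
  rw [deg, Finset.card_eq_two]
  refine ⟨p i, p (i - 1), hne, ?_⟩
  ext e
  rw [Finset.mem_filter, Finset.mem_insert, Finset.mem_singleton, hone hd]
  constructor
  · rintro ⟨⟨j, rfl⟩ | ⟨j, rfl⟩, h⟩
    · rw [hd.endp j, Sym2.mem_iff] at h
      rcases h with h | h
      · left; rw [hd.inja h]
      · right; rw [hd.inja h, add_sub_cancel_right]
    · rw [hd.endq j, Sym2.mem_iff] at h
      rcases h with h | h
      · exact absurd h (hd.disj _ _)
      · exact absurd h (hd.disj _ _)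
  · rintro (rfl | rfl)
    · exact ⟨Or.inl ⟨i, rfl⟩, by rw [hd.endp]; exact Sym2.mem_mk_left _ _⟩
    · refine ⟨Or.inl ⟨i - 1, rfl⟩, ?_⟩
      rw [hd.endp, sub_add_cancel]
      exact Sym2.mem_mk_right _ _

lemma hcut (hd : G.PermData w n a b p q m π) [NeZero n] :
    G.cut (Finset.univ.image a) = two w := by
  ext e
  rw [htwo hd]
  have hin : ∀ i, a i ∈ Finset.univ.image a := fun i =>
    Finset.mem_image.2 ⟨i, Finset.mem_univ _, rfl⟩
  have hout : ∀ i, b i ∉ Finset.univ.image a := by
    intro i h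
    obtain ⟨j, -, hj⟩ := Finset.mem_image.1 h
    exact hd.disj j i hj
  rcases hd.surjE e with ⟨i, rfl⟩ | ⟨i, rfl⟩ | ⟨i, rfl⟩
  · rw [G.mem_cut (hd.endp i)]
    constructor
    · rintro (⟨-, h⟩ | ⟨-, h⟩)
      · exact absurd (hin _) h
      · exact absurd (hin _) h
    · rintro ⟨j, hj⟩
      exact absurd hj.symm (Cyc4X.m_ne_p hd j i)
  · rw [G.mem_cut (hd.endq i)]
    constructor
    · rintro (⟨h, -⟩ | ⟨h, -⟩)
      · exact absurd h (hout _)
      · exact absurd h (hout _)
    · rintro ⟨j, hj⟩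
      have h1 := hd.wm j
      rw [← hj, hd.wq] at h1
      omega
  · rw [G.mem_cut (hd.endm i)]
    constructor
    · intro _
      exact ⟨i, rfl⟩
    · intro _
      exact Or.inl ⟨hin _, hout _⟩

/-- Simplicity, for two edges on the first circuit or for an edge on the first circuit and an
arbitrary one. -/
lemma simple_p (hd : G.PermData w n a b p q m π) (i : ZMod n) (f : E)
    (h : G.ends (p i) = G.ends f) : p i = f := by
  have hmem : a i ∈ G.ends f := by rw [← h, hd.endp]; exact Sym2.mem_mk_left _ _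
  have hmem' : a (i + 1) ∈ G.ends f := by rw [← h, hd.endp]; exact Sym2.mem_mk_right _ _
  have h7 := hd.five
  have h2 : ∀ j : ZMod n, a (j + 1) ≠ a j := by
    intro j hj
    have h3 := hd.inja hj
    have h5 : ((1 : ℕ) : ZMod n) = 0 := by
      rw [Nat.cast_one]
      exact left_eq_add.1 h3.symm
    have h6 := Nat.le_of_dvd (by norm_num) ((ZMod.natCast_eq_zero_iff 1 n).1 h5)
    omega
  rcases hd.surjE f with ⟨j, rfl⟩ | ⟨j, rfl⟩ | ⟨j, rfl⟩
  · rw [hd.endp j, Sym2.mem_iff] at hmem hmem'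
    rcases hmem with h3 | h3
    · rw [hd.inja h3]
    · rcases hmem' with h4 | h4
      · exfalso
        have h5 := hd.inja h3
        have h6 := hd.inja h4
        have h8 : ((2 : ℕ) : ZMod n) = 0 := by
          rw [h5, add_assoc] at h6
          rw [Nat.cast_ofNat, ← one_add_one_eq_two]
          exact left_eq_add.1 h6.symm
        have h9 := Nat.le_of_dvd (by norm_num) ((ZMod.natCast_eq_zero_iff 2 n).1 h8)
        omega
      · exact absurd (h4.trans h3.symm) (h2 i)
  · rw [hd.endq j, Sym2.mem_iff] at hmem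
    rcases hmem with h3 | h3
    · exact absurd h3 (hd.disj _ _)
    · exact absurd h3 (hd.disj _ _)
  · rw [hd.endm j, Sym2.mem_iff] at hmem hmem'
    rcases hmem with h3 | h3
    · rcases hmem' with h4 | h4
      · exact absurd (h4.trans h3.symm) (h2 i)
      · exact absurd h4 (hd.disj _ _)
    · exact absurd h3 (hd.disj _ _)

lemma simple_q (hd : G.PermData w n a b p q m π) (i : ZMod n) (f : E)
    (h : G.ends (q i) = G.ends f) : q i = f :=
  simple_p (Cyc4X.swap hd) i f h

end SBasic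

open SBasic in
theorem s_Basic : Stmt_S_Basic := by
  intro V E _ _ _ _ G w n a b p q m π hd
  have : NeZero n := ⟨by have := hd.five; omega⟩
  refine ⟨?_, ?_, ?_, ?_⟩
  · intro v
    rcases hd.surj v with ⟨i, rfl⟩ | ⟨i, rfl⟩
    · exact hdeg2a hd i
    · exact hdeg2a (Cyc4X.swap hd) i
  · intro v
    rcases hd.surj v with ⟨i, rfl⟩ | ⟨i, rfl⟩
    · exact hdeg1a hd i
    · exact hdeg1a (Cyc4X.swap hd) i
  · intro D hD
    rw [← hcut hd]
    exact IsEven.card_inter_cut G hD _
  · intro e f h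
    rcases hd.surjE e with ⟨i, rfl⟩ | ⟨i, rfl⟩ | ⟨i, rfl⟩
    · exact simple_p hd i f h
    · exact simple_q hd i f h
    · rcases hd.surjE f with ⟨j, rfl⟩ | ⟨j, rfl⟩ | ⟨j, rfl⟩
      · exact (simple_p hd j _ h.symm).symm
      · exact (simple_q hd j _ h.symm).symm
      · rw [hd.endm, hd.endm, Sym2.eq_iff] at h
        rcases h with ⟨h1, -⟩ | ⟨h1, -⟩
        · rw [hd.inja h1]
        · exact absurd h1 (hd.disj _ _)

end MGraph

end Pool.GOD
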