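import Pool.Agent.GOD.StmtS

/-!
The bond at the beginning of the first circuit (`Stmt_S_Bonds`).
-/

set_option autoImplicit false
set_option linter.unusedSectionVars false

namespace Pool.GOD

namespace MGraph

theorem s_BondsX (hE : Stmt_S_EndE) (hC : Stmt_S_Cut) (hT : Stmt_S_Tri) (hP : Stmt_S_Pos) :
    Stmt_S_Bonds := by
  intro V E _ _ _ _ G w h e0 x y t D hch ht m v0 e0' hen hm
  obtain ⟨hsub, -, -, -⟩ := hE V E G w h e0 x y t D hch (by omega)
  obtain ⟨n1, v1, e1, E1⟩ := (hch.circ 1 (by omega)).exists_enum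
  obtain ⟨ip, iq, hcut⟩ := hC V E G w h e0 x y t D hch ht _ v0 e0' n1 v1 e1 hen.toEnum E1
  -- the odd edges are common
  have hodd : ∀ i, i < 2 * m + 1 → Odd i → e0' i ∈ D 0 ∩ D 1 := by
    intro i hi ho
    have h1 : e0' i ∈ D 0 := hen.toEnum.e_mem i
    have h2 : w (e0' i) = 2 := (hen.alt i hi).2 ho
    exact Finset.mem_inter.2 ⟨h1, hsub (Finset.mem_inter.2 ⟨h1, by
      unfold two; rw [Finset.mem_filter]; exact ⟨Finset.mem_univ _, h2⟩⟩)⟩
  have hcard : 3 ≤ (Finset.univ : Finset ↥(D 0 ∩ D 1)).card := by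
    have i1 : (e0' 1) ≠ e0' 3 := by
      intro h'
      have := hen.toEnum.inje 1 3 (by omega) (by omega) h'
      omega
    have i2 : (e0' 1) ≠ e0' 5 := by
      intro h'
      have := hen.toEnum.inje 1 5 (by omega) (by omega) h'
      omega
    have i3 : (e0' 3) ≠ e0' 5 := by
      intro h'
      have := hen.toEnum.inje 3 5 (by omega) (by omega) h'
      omega
    rw [Finset.card_univ, Fintype.card_coe]
    have h3 : ({e0' 1, e0' 3, e0' 5} : Finset E) ⊆ D 0 ∩ D 1 := by
      intro z hz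
      simp only [Finset.mem_insert, Finset.mem_singleton] at hz
      rcases hz with rfl | rfl | rfl
      · exact hodd 1 (by omega) (by decide)
      · exact hodd 3 (by omega) (by decide)
      · exact hodd 5 (by omega) (by decide)
    have h4 := Finset.card_le_card h3
    rw [Finset.card_eq_three.2 ⟨_, _, _, i1, i2, i3, rfl⟩] at h4
    exact h4
  obtain ⟨a, b, a', b', T, T', g1, g2, g3⟩ := two_triangles_of_hwc ip iq hcut.hwc hcard
  have hne : e0' 1 ≠ e0' (2 * m - 1) := by
    intro h'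
    have := hen.toEnum.inje 1 (2 * m - 1) (by omega) (by omega) h'
    omega
  have q1 : a.1 ≠ a'.1 := fun h' => g1 (Subtype.ext h')
  have q2 : a'.1 ≠ b.1 := fun h' => g2 (Subtype.ext h')
  have q3 : b'.1 ≠ a.1 := fun h' => g3 (Subtype.ext h')
  have key := hT V E G w h e0 x y t D hch ht m v0 e0' n1 v1 e1 hen E1
  have k1 := key a b T
  have k2 := key a' b' T'
  have pos := hP V E G w h e0 x y t D hch ht m v0 e0' hen
  -- leaves of bonds
  have leaf : ∀ (N : ℕ) (v : ℕ → V) (e : ℕ → E) (k : ℕ) (f : E),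
      G.Bond w (D 0) (D 1) N v e k f → e 0 = e0' 1 ∨ e 0 = e0' (2 * m - 1) := by
    intro N v e k f hB
    rcases pos N v e k f hB with h' | h'
    · exact Or.inl h'.2.1
    · exact Or.inr h'.2.1
  have fin : ∀ (N : ℕ) (v : ℕ → V) (e : ℕ → E) (k : ℕ) (f : E),
      G.Bond w (D 0) (D 1) N v e k f → e 0 = e0' 1 →
      ∃ N v e k f, G.Bond w (D 0) (D 1) N v e k f ∧ e 0 = e0' 1 ∧ v 1 = v0 1 ∧ v 0 = v0 2 ∧
      f = e0' 2 ∧ v (2 * k + 2) = v0 3 ∧ e (2 * k + 2) = e0' 3 := by
    intro N v e k f hB h0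
    rcases pos N v e k f hB with h' | h'
    · exact ⟨N, v, e, k, f, hB, h'.2⟩
    · exact absurd (h0.symm.trans h'.2.1) hne
  rcases k1 with c1 | c1 | ⟨N, v, e, k, f, hB, c1, c1'⟩
  · exfalso
    rcases k2 with c2 | c2 | ⟨N', v', e', k', f', hB', c2, c2'⟩
    · exact q1 (c1.1.trans c2.1.symm)
    · exact q2 (c2.1.trans c1.2.symm)
    · rcases leaf _ _ _ _ _ hB' with c3 | c3
      · exact q1 (c1.1.trans (c3.symm.trans c2))
      · exact q2 (c2.symm.trans (c3.trans c1.2.symm))
  · exfalso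
    rcases k2 with c2 | c2 | ⟨N', v', e', k', f', hB', c2, c2'⟩
    · exact q2 (c2.1.trans c1.2.symm)
    · exact q1 (c1.1.trans c2.1.symm)
    · rcases leaf _ _ _ _ _ hB' with c3 | c3
      · exact q2 (c2.symm.trans (c3.trans c1.2.symm))
      · exact q1 (c1.1.trans (c3.symm.trans c2))
  · rcases k2 with c2 | c2 | ⟨N', v', e', k', f', hB', c2, c2'⟩
    · exfalso
      rcases leaf _ _ _ _ _ hB with c3 | c3
      · exact q1 (c1.symm.trans (c3.trans c2.1.symm))
      · exact q3 (c2.2.trans (c3.symm.trans c1))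
    · exfalso
      rcases leaf _ _ _ _ _ hB with c3 | c3
      · exact q3 (c2.2.trans (c3.symm.trans c1))
      · exact q1 (c1.symm.trans (c3.trans c2.1.symm))
    · rcases leaf _ _ _ _ _ hB with c3 | c3
      · exact fin _ _ _ _ _ hB c3
      · rcases leaf _ _ _ _ _ hB' with c4 | c4
        · exact fin _ _ _ _ _ hB' c4
        · exact absurd (c1.symm.trans (c3.trans (c4.symm.trans c2))) q1

end MGraph

end Pool.GOD
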