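import Pool.Agent.GOD.StmtS

/-!
The first two circuits of a chain form a torus system with cut points (MP_7b7176_co):
`s_Cut : Stmt_S_Cut`.
-/

set_option autoImplicit false
set_option linter.unusedSectionVars false

namespace Pool.GOD

namespace MGraph

namespace SCut

variable {V E : Type} [Fintype V] [DecidableEq V] [Fintype E] [DecidableEq E] {G : MGraph V E}
  {w : E → ℕ} {e0 : E} {x y : V} {t : ℕ} {D : ℕ → Finset E}

lemma chi_pos {T : Finset E} {f : E} (h : f ∈ T) : chi T f = 1 := by
  unfold chi; rw [if_pos h]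

lemma chi_neg {T : Finset E} {f : E} (h : f ∉ T) : chi T f = 0 := by
  unfold chi; rw [if_neg h]

/-- two edges of weight 2 with a common end are equal -/
lemma two_unique (h : G.SP w) {f g : E} {v : V} (hf : w f = 2) (hg : w g = 2)
    (h1 : v ∈ G.ends f) (h2 : v ∈ G.ends g) : f = g := by
  have h3 := h.d2 v
  unfold deg at h3
  rw [Finset.card_eq_one] at h3
  obtain ⟨a, ha⟩ := h3
  have e1 : f ∈ (two w).filter (fun e => v ∈ G.ends e) := by
    rw [Finset.mem_filter]; exact ⟨by simp [two, hf], h1⟩
  have e2 : g ∈ (two w).filter (fun e => v ∈ G.ends e) := by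
    rw [Finset.mem_filter]; exact ⟨by simp [two, hg], h2⟩
  rw [ha, Finset.mem_singleton] at e1 e2
  rw [e1, e2]

/-- common edges of the first two circuits have weight 2 -/
lemma common_two (h : G.SP w) (hD : G.IsChain w e0 x y t D) (ht : 3 ≤ t) {f : E}
    (h0 : f ∈ D 0) (h1 : f ∈ D 1) : w f = 2 := by
  rcases h.val f with h' | h'
  · obtain ⟨i, -, hi⟩ := hD.cover1 f h'
    have a1 := hi 0 ⟨by omega, h0⟩
    have a2 := hi 1 ⟨by omega, h1⟩
    omega
  · exact h'

/-- the first two circuits form a piece -/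
lemma piece (h : G.SP w) (hD : G.IsChain w e0 x y t D) (ht : 3 ≤ t) :
    G.Piece (D 0) (D 1) where
  c1 := hD.circ 0 (by omega)
  c2 := hD.circ 1 (by omega)
  dle T a := by
    have h1 := G.deg_mono (Finset.subset_univ T) a
    rw [h.mc.1 a] at h1
    exact h1
  nadj _ _ h1 h2 h3 h4 _ h5 h6 :=
    two_unique h (common_two h hD ht h1 h2) (common_two h hD ht h3 h4) h5 h6

/-- the weight is the sum of the indicator functions of the circuits -/
lemma sum_chi (h : G.SP w) (hD : G.IsChain w e0 x y t D) {f : E} (hf : f ≠ e0) :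
    w f = ∑ i ∈ Finset.range t, chi (D i) f := by
  rcases h.val f with h' | h'
  · obtain ⟨i, ⟨hi1, hi2⟩, hi⟩ := hD.cover1 f h'
    rw [Finset.sum_eq_single i]
    · rw [h', chi_pos hi2]
    · intro j hj hji
      refine chi_neg fun h2 => hji (hi j ⟨Finset.mem_range.1 hj, h2⟩)
    · intro h2
      exact absurd (Finset.mem_range.2 hi1) h2
  · obtain ⟨i, hi1, hi2, hi3, hi⟩ := hD.cover2 f h' hf
    have hs : ({i, i + 1} : Finset ℕ) ⊆ Finset.range t := by
      intro j hj
      rw [Finset.mem_insert, Finset.mem_singleton] at hj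
      rw [Finset.mem_range]
      omega
    rw [← Finset.sum_subset hs]
    · rw [Finset.sum_pair (by omega), h', chi_pos hi2, chi_pos hi3]
    · intro j hj hj'
      refine chi_neg fun h2 => hj' ?_
      rw [Finset.mem_insert, Finset.mem_singleton]
      exact hi j (Finset.mem_range.1 hj) h2

/-- counting the members of a family of sets which contain an edge -/
lemma countP_range (F : ℕ → Finset E) (f : E) (n : ℕ) :
    ((List.range n).map F).countP (fun C => decide (f ∈ C)) = ∑ i ∈ Finset.range n, chi (F i) f := by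
  induction n with
  | zero => simp
  | succ n ih =>
    rw [List.range_succ, List.map_append, List.countP_append, ih, Finset.sum_range_succ]
    congr 1
    simp [List.countP_cons, chi]

/-- the edge `e0` has weight 2 -/
lemma root_two (h : G.SP w) (hD : G.IsChain w e0 x y t D) : w e0 = 2 := by
  rcases h.val e0 with h' | h'
  · obtain ⟨i, ⟨h1, h2⟩, -⟩ := hD.cover1 e0 h'
    exact absurd h2 (hD.emem i h1)
  · exact h'

/-- a trail of the first two circuits has a cut point -/
lemma key (h : G.SP w) (hD : G.IsChain w e0 x y t D) (ht : 3 ≤ t) {a b : E} (ha0 : a ∈ D 0)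
    (ha1 : a ∈ D 1) (hb0 : b ∈ D 0) (hb1 : b ∈ D 1) {T : Finset E} {P : E → Prop}
    (hS : TrailConcS G (D 0) (D 1) a b T) (hT : TrailConc G (D 0) (D 1) a b T P) :
    ∃ u, P u := by
  apply hT.cutp
  intro hbr
  obtain ⟨s, rfl⟩ : ∃ s, t = s + 2 := ⟨t - 2, by omega⟩
  set L : List (Finset E) := T :: (List.range s).map (fun i => D (i + 2)) with hL
  have hle : ∀ f, chi T f ≤ chi (D 0) f + chi (D 1) f := by
    intro f
    by_cases hf : f ∈ T
    · rw [chi_pos hf]
      rcases Finset.mem_union.1 (hT.sub hf) with h1 | h1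
      · rw [chi_pos h1]; omega
      · rw [chi_pos h1]; omega
    · rw [chi_neg hf]; omega
  have hcL : ∀ f, L.countP (fun C => decide (f ∈ C)) =
      chi T f + ∑ i ∈ Finset.range s, chi (D (i + 2)) f := by
    intro f
    rw [hL, List.countP_cons, countP_range (fun i => D (i + 2)) f s, add_comm]
    congr 1
    unfold chi
    by_cases hf : f ∈ T <;> simp [hf]
  have hw : ∀ f, f ≠ e0 → w f = chi (D 0) f + chi (D 1) f +
      ∑ i ∈ Finset.range s, chi (D (i + 2)) f := by
    intro f hf
    rw [sum_chi h hD hf, Finset.sum_range_succ', Finset.sum_range_succ']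
    simp only [zero_add]
    ring_nf
  have hr0 : e0 ∉ D 0 := hD.emem 0 (by omega)
  have hr1 : e0 ∉ D 1 := hD.emem 1 (by omega)
  have hmemL : ∀ C ∈ L, G.IsCircuit C ∧ C ⊆ Finset.univ.erase e0 := by
    intro C hC
    rw [hL, List.mem_cons] at hC
    rcases hC with rfl | hC
    · refine ⟨hT.circ, fun f hf => Finset.mem_erase.2 ⟨?_, Finset.mem_univ _⟩⟩
      rintro rfl
      rcases Finset.mem_union.1 (hT.sub hf) with h1 | h1
      · exact hr0 h1
      · exact hr1 h1
    · rw [List.mem_map] at hC
      obtain ⟨i, hi, rfl⟩ := hC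
      rw [List.mem_range] at hi
      refine ⟨hD.circ _ (by omega), fun f hf => Finset.mem_erase.2 ⟨?_, Finset.mem_univ _⟩⟩
      rintro rfl
      exact hD.emem (i + 2) (by omega) hf
  obtain ⟨L', hL'1, hL'2⟩ := h.ext e0 (root_two h hD) L hmemL
    (fun f hf => by
      rw [hcL, hw f (Finset.mem_erase.1 hf).1]
      have := hle f
      omega)
    (by
      have hE : (Finset.univ.erase e0).filter
          (fun f => L.countP (fun C => decide (f ∈ C)) < w f) =
          Finset.univ.filter (fun e => 0 < chi (D 0) e + chi (D 1) e - chi T e) := by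
        ext f
        rw [Finset.mem_filter, Finset.mem_filter, Finset.mem_erase]
        by_cases hf : f = e0
        · subst hf
          rw [chi_neg hr0, chi_neg hr1]
          simp
        · rw [hcL, hw f hf]
          have := hle f
          simp only [ne_eq, hf, not_false_eq_true, Finset.mem_univ, and_self, true_and]
          omega
      rw [hE]
      exact hbr)
  obtain ⟨D', hD', hmem⟩ := a_Chain V E G w h.mc e0 x y (root_two h hD) hD.ends (L ++ L')
    (fun C hC => by
      rcases List.mem_append.1 hC with h1 | h1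
      · exact hmemL C h1
      · exact hL'1 C h1)
    hL'2
  obtain ⟨j, hj, hTj⟩ := (hmem T).1 (List.mem_append.2 (Or.inl (by rw [hL]; simp)))
  obtain ⟨k, hk, hDk⟩ := (hmem (D 2)).1 (List.mem_append.2 (Or.inl (by
    rw [hL, List.mem_cons]
    right
    rw [List.mem_map]
    exact ⟨0, List.mem_range.2 (by omega), rfl⟩)))
  have hdelta := h.delta e0 x y (s + 2) D _ D' hD hD' ⟨2, by omega, k, hk, hDk⟩
  obtain ⟨g, gT, gD1, gD0, z, hz1, hz2⟩ := hS.adj1
  obtain ⟨f, fT, fD0, fD1, z', hz1', hz2'⟩ := hS.adj2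
  have wa := common_two h hD ht ha0 ha1
  have wb := common_two h hD ht hb0 hb1
  have wg : w g = 1 := by
    rcases h.val g with h' | h'
    · exact h'
    · exact absurd (two_unique h h' wb hz1 hz2 ▸ hb0) gD0
  have wf : w f = 1 := by
    rcases h.val f with h' | h'
    · exact h'
    · exact absurd (two_unique h h' wa hz1' hz2' ▸ ha1) fD1
  have d0 := hdelta f 0 j wf (by omega) hj fD0 (hTj ▸ fT)
  have d1 := hdelta g 1 j wg (by omega) hj gD1 (hTj ▸ gT)
  have e1 : Even j := d0.1 (by decide)
  have e2 : Even 1 := d1.2 e1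
  exact absurd e2 (by decide)

end SCut

/-- **the first two circuits of a chain form a torus system with cut points** -/
theorem s_Cut : Stmt_S_Cut := by
  intro V E _ _ _ _ G w h e0 x y t D hD ht n0 v0 e0' n1 v1 e1 h0 h1
  have hp := SCut.piece h hD ht
  refine Piece.hwcut h0 h1 ?_ ?_
  · intro a b ha0 ha1 hb0 hb1 hab da db hemp
    obtain ⟨T, hS, hT⟩ := hp.trail_sameS h0 h1 ha0 ha1 hb0 hb1 hab da db hemp
    exact SCut.key h hD ht ha0 ha1 hb0 hb1 hS hT
  · intro a b ha0 ha1 hb0 hb1 hab da db hemp
    obtain ⟨T, hS, hT⟩ := hp.trail_oppS h0 h1 ha0 ha1 hb0 hb1 hab da db hemp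
    exact SCut.key h hD ht ha0 ha1 hb0 hb1 hS hT

end MGraph

end Pool.GOD
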