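import Pool.Agent.GOD.StmtS

/-!
Module `Stmt_S_Delta` of the strong version of Q1 of MP_7b7176_co: two chains for one edge with a
common circuit have equal parities.
-/

set_option autoImplicit false
set_option linter.unusedSectionVars false

namespace Pool.GOD

namespace MGraph

namespace SDelta

variable {V E : Type} [Fintype V] [DecidableEq V] [Fintype E] [DecidableEq E] {G : MGraph V E}
  {w : E → ℕ} {n : ℕ} {a b : ZMod n → V} {p q m : ZMod n → E} {π : Equiv.Perm (ZMod n)}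

lemma exists_nat (hn : 5 ≤ n) (i0 c : ZMod n) : ∃ j : ℕ, j < n ∧ c = i0 + (j : ZMod n) := by
  have : NeZero n := ⟨by omega⟩
  refine ⟨(c - i0).val, ZMod.val_lt _, ?_⟩
  rw [ZMod.natCast_zmod_val]
  ring

lemma add_one_ne (hn : 5 ≤ n) (i : ZMod n) : i + 1 ≠ i := by
  have : Fact (1 < n) := ⟨by omega⟩
  intro h
  have : (1 : ZMod n) = 0 := by
    have := congrArg (fun z => z - i) h
    simpa using this
  exact one_ne_zero this

lemma m_ne (hP : G.PermData w n a b p q m π) {i j : ZMod n} (h : i ≠ j) : m i ≠ m j := by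
  intro he
  have h1 := hP.endm i
  rw [he, hP.endm j] at h1
  rw [Sym2.eq_iff] at h1
  rcases h1 with ⟨h2, _⟩ | ⟨h2, _⟩
  · exact h (hP.inja h2).symm
  · exact hP.disj _ _ h2

/-- An edge of weight 2 is an `m`-edge. -/
lemma eq_m (hP : G.PermData w n a b p q m π) {e : E} (h : w e = 2) : ∃ i, e = m i := by
  rcases hP.surjE e with ⟨i, rfl⟩ | ⟨i, rfl⟩ | h'
  · rw [hP.wp] at h; omega
  · rw [hP.wq] at h; omega
  · exact h'

/-- An edge of weight 1 is a `p`-edge or a `q`-edge. -/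
lemma eq_pq (hP : G.PermData w n a b p q m π) {e : E} (h : w e = 1) :
    (∃ i, e = p i) ∨ ∃ i, e = q i := by
  rcases hP.surjE e with h' | h' | ⟨i, rfl⟩
  · exact Or.inl h'
  · exact Or.inr h'
  · rw [hP.wm] at h; omega

/-- At a vertex different from the roots, a circuit of the chain which is there contains an edge
which has not weight 2. -/
lemma exists_one {e : E} {x y : V} {t : ℕ} {D : ℕ → Finset E} (hc : G.IsChain w e x y t D)
    {k : ℕ} (hk : k < t) {g : E} (hg : g ∈ D k) {z : V} (hz : z ∈ G.ends g) (hx : z ≠ x)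
    (hy : z ≠ y) : ∃ f ∈ D k, z ∈ G.ends f ∧ w f ≠ 2 := by
  have hpos : 0 < G.deg (D k) z := (deg_pos_iff G).2 ⟨g, hg, hz⟩
  have h2 : G.deg (D k) z = 2 := by
    rcases (hc.circ k hk).2.1 z with h | h
    · omega
    · exact h
  have h1 := hc.alt k hk z hx hy h2
  by_contra hcon
  push Not at hcon
  have : G.deg (D k ∩ two w) z = G.deg (D k) z := by
    unfold deg
    congr 1
    ext f
    simp only [Finset.mem_filter, Finset.mem_inter]
    constructor
    · rintro ⟨⟨h, _⟩, h'⟩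
      exact ⟨h, h'⟩
    · rintro ⟨h, h'⟩
      refine ⟨⟨h, ?_⟩, h'⟩
      have := hcon f h h'
      simp [two, this]
  omega

/-- The case where the chain starts at `a i0`. -/
theorem core (h0 : Stmt_S_Delta0) (hP : G.PermData w n a b p q m π) (i0 : ZMod n) (y : V)
    (t : ℕ) (D : ℕ → Finset E) (t' : ℕ) (D' : ℕ → Finset E)
    (hc : G.IsChain w (m i0) (a i0) y t D) (hc' : G.IsChain w (m i0) (a i0) y t' D')
    (hcom : ∃ k < t, ∃ k' < t', D k = D' k') (f : E) (i i' : ℕ) (hf : w f = 1) (hi : i < t)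
    (hi' : i' < t') (hfi : f ∈ D i) (hfi' : f ∈ D' i') : Even i ↔ Even i' := by
  have hn := hP.five
  have hy : y = b (π i0) := by
    have h1 := hc.ends
    rw [hP.endm i0, Sym2.eq_iff] at h1
    rcases h1 with ⟨_, h2⟩ | ⟨_, h2⟩
    · exact h2.symm
    · exact absurd h2.symm (hP.disj _ _)
  obtain ⟨hA, hB⟩ := h0 V E G w n a b p q m π hP i0 y t D hc
  obtain ⟨hA', hB'⟩ := h0 V E G w n a b p q m π hP i0 y t' D' hc'
  -- at least two circuits
  have ht : 2 ≤ t := by
    obtain ⟨l, hl, _⟩ := hc.cover2 (m (i0 + 1)) (hP.wm _) (m_ne hP (add_one_ne hn i0))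
    omega
  obtain ⟨k, hk, k', hk', hkk⟩ := hcom
  -- an edge of weight 2
  obtain ⟨g, hg2, hgk⟩ : ∃ g, w g = 2 ∧ g ∈ D k := by
    by_cases h : k + 1 < t
    · obtain ⟨g, h1, h2, _⟩ := hc.meet k h
      exact ⟨g, h1, h2⟩
    · obtain ⟨g, h1, _, h3⟩ := hc.meet (k - 1) (by omega)
      refine ⟨g, h1, ?_⟩
      have : k - 1 + 1 = k := by omega
      rwa [this] at h3
  obtain ⟨i1, rfl⟩ := eq_m hP hg2
  have hi1 : i1 ≠ i0 := by
    rintro rfl
    exact hc.emem k hk hgk
  have hends := hP.endm i1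
  -- a p-edge and a q-edge in `D k`
  obtain ⟨c, hc1⟩ : ∃ c, p c ∈ D k := by
    obtain ⟨f1, h1, h2, h3⟩ := exists_one hc hk hgk (z := a i1) (by rw [hends]; simp)
      (fun h => hi1 (hP.inja h)) (by rw [hy]; exact hP.disj _ _)
    rcases hP.surjE f1 with ⟨c, rfl⟩ | ⟨c, rfl⟩ | ⟨c, rfl⟩
    · exact ⟨c, h1⟩
    · rw [hP.endq, Sym2.mem_iff] at h2
      rcases h2 with h2 | h2
      · exact absurd h2 (hP.disj _ _)
      · exact absurd h2 (hP.disj _ _)
    · exact absurd (hP.wm c) h3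
  obtain ⟨c', hc1'⟩ : ∃ c', q c' ∈ D k := by
    obtain ⟨f1, h1, h2, h3⟩ := exists_one hc hk hgk (z := b (π i1)) (by rw [hends]; simp)
      (fun h => hP.disj _ _ h.symm)
      (by rw [hy]; exact fun h => hi1 (π.injective (hP.injb h)))
    rcases hP.surjE f1 with ⟨c, rfl⟩ | ⟨c, rfl⟩ | ⟨c, rfl⟩
    · rw [hP.endp, Sym2.mem_iff] at h2
      rcases h2 with h2 | h2
      · exact absurd h2.symm (hP.disj _ _)
      · exact absurd h2.symm (hP.disj _ _)
    · exact ⟨c, h1⟩
    · exact absurd (hP.wm c) h3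
  obtain ⟨j, hj, rfl⟩ := exists_nat hn i0 c
  obtain ⟨j', hj', rfl⟩ := exists_nat hn (π i0) c'
  have e1 := hA j hj k hk hc1
  have e2 := hA' j hj k' hk' (hkk ▸ hc1)
  have e3 := hB j' hj' k hk hc1'
  have e4 := hB' j' hj' k' hk' (hkk ▸ hc1')
  have hpar : Even (t - 1) ↔ Even (t' - 1) := by
    rw [Nat.even_add] at e3 e4
    tauto
  rcases eq_pq hP hf with ⟨c, rfl⟩ | ⟨c, rfl⟩
  · obtain ⟨l, hl, rfl⟩ := exists_nat hn i0 c
    exact (hA l hl i hi hfi).trans (hA' l hl i' hi' hfi').symm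
  · obtain ⟨l, hl, rfl⟩ := exists_nat hn (π i0) c
    have e5 := hB l hl i hi hfi
    have e6 := hB' l hl i' hi' hfi'
    rw [Nat.even_add] at e5 e6
    tauto

end SDelta

theorem s_Delta (h0 : Stmt_S_Delta0) (hs : Stmt_S_PermSymm) : Stmt_S_Delta := by
  intro V E _ _ _ _ G w n a b p q m π hP e x y t D t' D' hc hc' hcom f i i' hf hi hi' hfi hfi'
  have he : ∃ i0, e = m i0 := by
    have h1 : w e ≠ 1 := by
      intro h
      obtain ⟨l, ⟨hl, hl'⟩, _⟩ := hc.cover1 e h
      exact hc.emem l hl hl'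
    rcases hP.surjE e with ⟨c, rfl⟩ | ⟨c, rfl⟩ | h
    · exact absurd (hP.wp c) h1
    · exact absurd (hP.wq c) h1
    · exact h
  obtain ⟨i0, rfl⟩ := he
  have hends := hc.ends
  rw [hP.endm i0, Sym2.eq_iff] at hends
  rcases hends with ⟨h1, h2⟩ | ⟨h1, h2⟩
  · subst h1
    exact SDelta.core h0 hP i0 y t D t' D' hc hc' hcom f i i' hf hi hi' hfi hfi'
  · have hP' := hs V E G w n a b p q m π hP
    have hm : (fun i => m (π.symm i)) (π i0) = m i0 := by simp
    rw [← hm, ← h2] at hc hc'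
    exact SDelta.core h0 hP' (π i0) y t D t' D' hc hc' hcom f i i' hf hi hi' hfi hfi'

end MGraph

end Pool.GOD
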