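import Pool.Agent.GOD.StmtS

/-!
# MP_7b7176_co, strong version, module S_Delta0: parity of the indices along the two circuits
-/

set_option autoImplicit false
set_option linter.unusedSectionVars false

namespace Pool.GOD

namespace MGraph

namespace SDelta0

variable {V E : Type} [Fintype V] [DecidableEq V] [Fintype E] [DecidableEq E] {G : MGraph V E}
  {w : E → ℕ}

/-- a circuit with an edge at `z` has degree 2 at `z` -/
theorem deg_two {e : E} {x y : V} {t : ℕ} {D : ℕ → Finset E} (hc : G.IsChain w e x y t D)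
    {i : ℕ} (hi : i < t) {z : V} {h : E} (hh : h ∈ D i) (hz : z ∈ G.ends h) :
    G.deg (D i) z = 2 := by
  refine ((hc.circ i hi).2.1 z).resolve_left ?_
  intro h0
  unfold deg at h0
  rw [Finset.card_eq_zero] at h0
  have h1 : h ∈ (D i).filter (fun e => z ∈ G.ends e) := Finset.mem_filter.2 ⟨hh, hz⟩
  rw [h0] at h1
  exact absurd h1 (Finset.notMem_empty h)

theorem step {e : E} {x y : V} {t : ℕ} {D : ℕ → Finset E} (hc : G.IsChain w e x y t D) {z : V}
    (hzx : z ≠ x) (hzy : z ≠ y) {f f' g : E} (hff : f ≠ f') (hf : z ∈ G.ends f)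
    (hf' : z ∈ G.ends f') (hg : z ∈ G.ends g) (hwf : w f = 1) (hwf' : w f' = 1) (hwg : w g = 2)
    (hge : g ≠ e) (hall : ∀ h, z ∈ G.ends h → h = f ∨ h = f' ∨ h = g) {i i' : ℕ} (hi : i < t)
    (hi' : i' < t) (hfi : f ∈ D i) (hfi' : f' ∈ D i') : Even i ↔ ¬ Even i' := by
  have key : ∀ k < t, G.deg (D k) z = 2 → g ∈ D k := by
    intro k hk h2
    have h1 := hc.alt k hk z hzx hzy h2
    unfold deg at h1
    obtain ⟨h', hh'⟩ := Finset.card_eq_one.1 h1
    have h3 : h' ∈ (D k ∩ two w).filter (fun e => z ∈ G.ends e) := by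
      rw [hh']
      exact Finset.mem_singleton_self h'
    obtain ⟨h4, h5⟩ := Finset.mem_filter.1 h3
    obtain ⟨h6, h7⟩ := Finset.mem_inter.1 h4
    have h8 : w h' = 2 := (Finset.mem_filter.1 h7).2
    rcases hall h' h5 with rfl | rfl | rfl
    · omega
    · omega
    · exact h6
  have hd := deg_two hc hi hfi hf
  have hd' := deg_two hc hi' hfi' hf'
  have hgi := key i hi hd
  have hgi' := key i' hi' hd'
  obtain ⟨l, -, -, -, hl⟩ := hc.cover2 g hwg hge
  have h1 := hl i hi hgi
  have h2 := hl i' hi' hgi'
  have hne : i ≠ i' := by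
    rintro rfl
    have h3 : ({f, f', g} : Finset E) ⊆ (D i).filter (fun e => z ∈ G.ends e) := by
      intro h hh
      simp only [Finset.mem_insert, Finset.mem_singleton] at hh
      rcases hh with rfl | rfl | rfl
      · exact Finset.mem_filter.2 ⟨hfi, hf⟩
      · exact Finset.mem_filter.2 ⟨hfi', hf'⟩
      · exact Finset.mem_filter.2 ⟨hgi, hg⟩
    have h4 := Finset.card_le_card h3
    have h5 : ({f, f', g} : Finset E).card = 3 := by
      rw [Finset.card_eq_three]
      refine ⟨f, f', g, hff, ?_, ?_, rfl⟩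
      · rintro rfl
        omega
      · rintro rfl
        omega
    unfold deg at hd
    omega
  rcases h1 with h1 | h1 <;> rcases h2 with h2 | h2
  · exact absurd (h1.trans h2.symm) hne
  · subst h1 h2
    rw [Nat.even_add_one, not_not]
  · subst h1 h2
    rw [Nat.even_add_one]
  · exact absurd (h1.trans h2.symm) hne

theorem one_ne {n : ℕ} (h5 : 5 ≤ n) : (1 : ZMod n) ≠ 0 ∧ (2 : ZMod n) ≠ 0 := by
  have key : ∀ k : ℕ, 0 < k → k < n → ((k : ℕ) : ZMod n) ≠ 0 := by
    intro k hk hkn h
    rw [ZMod.natCast_eq_zero_iff] at h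
    exact absurd (Nat.le_of_dvd hk h) (by omega)
  refine ⟨?_, ?_⟩
  · have := key 1 (by omega) (by omega)
    simpa using this
  · have := key 2 (by omega) (by omega)
    simpa using this

theorem add_ne {n : ℕ} (c : ZMod n) {j : ℕ} (hj : 0 < j) (hjn : j < n) : c + (j : ZMod n) ≠ c := by
  intro h
  have h1 : (j : ZMod n) = 0 := by
    rwa [add_eq_left] at h
  rw [ZMod.natCast_eq_zero_iff] at h1
  exact absurd (Nat.le_of_dvd hj h1) (by omega)

end SDelta0

open SDelta0 in
theorem s_Delta0 : Stmt_S_Delta0 := by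
  intro V E _ _ _ _ G w n a b p q m π hd i0 y t D hc
  obtain ⟨h10, h20⟩ := one_ne hd.five
  have hy : y = b (π i0) := by
    have h1 := hc.ends
    rw [hd.endm, Sym2.eq_iff] at h1
    rcases h1 with ⟨-, h1⟩ | ⟨h1, -⟩
    · exact h1.symm
    · -- `a i0 = y`, then `b (π i0) = a i0`
      have h2 := hc.ends
      rw [hd.endm, Sym2.eq_iff] at h2
      rcases h2 with ⟨-, h3⟩ | ⟨-, h3⟩
      · exact h3.symm
      · exact absurd h3.symm (hd.disj i0 (π i0))
  have hm : ∀ c, m c = m i0 → c = i0 := by
    intro c h
    have h1 := hd.endm c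
    rw [h, hd.endm, Sym2.eq_iff] at h1
    rcases h1 with ⟨h1, -⟩ | ⟨h1, -⟩
    · exact (hd.inja h1).symm
    · exact absurd h1 (hd.disj _ _)
  constructor
  · -- first circuit
    have hpp : ∀ c : ZMod n, p (c + 1) ≠ p c := by
      intro c h
      have h1 := hd.endp (c + 1)
      rw [h, hd.endp, Sym2.eq_iff] at h1
      rcases h1 with ⟨h1, -⟩ | ⟨h1, -⟩
      · have h2 := hd.inja h1
        apply h10
        linear_combination (-1 : ZMod n) * h2
      · have h2 := hd.inja h1
        apply h20
        linear_combination (-1 : ZMod n) * h2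
    have hall : ∀ (c : ZMod n) (h : E), a (c + 1) ∈ G.ends h →
        h = p (c + 1) ∨ h = p c ∨ h = m (c + 1) := by
      intro c h hh
      rcases hd.surjE h with ⟨i, rfl⟩ | ⟨i, rfl⟩ | ⟨i, rfl⟩
      · rw [hd.endp, Sym2.mem_iff] at hh
        rcases hh with hh | hh
        · rw [hd.inja hh]
          exact Or.inl rfl
        · have h2 := hd.inja hh
          have h3 : c = i := by linear_combination h2
          rw [h3]
          exact Or.inr (Or.inl rfl)
      · rw [hd.endq, Sym2.mem_iff] at hh
        rcases hh with hh | hh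
        · exact absurd hh (hd.disj _ _)
        · exact absurd hh (hd.disj _ _)
      · rw [hd.endm, Sym2.mem_iff] at hh
        rcases hh with hh | hh
        · rw [hd.inja hh]
          exact Or.inr (Or.inr rfl)
        · exact absurd hh (hd.disj _ _)
    intro j
    induction j with
    | zero =>
      intro _ i hi hp
      have h1 : G.deg (D i) (a i0) = 2 := by
        refine deg_two hc hi hp ?_
        rw [hd.endp, Sym2.mem_iff]
        left
        simp
      rw [(hc.first i hi).1 h1]
    | succ j ih =>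
      intro hj i hi hp
      obtain ⟨i', ⟨hi', hp'⟩, -⟩ := hc.cover1 (p (i0 + j)) (hd.wp _)
      have h1 := ih (by omega) i' hi' hp'
      have e1 : i0 + ((j + 1 : ℕ) : ZMod n) = (i0 + j) + 1 := by
        push_cast
        ring
      have hz : a ((i0 + j) + 1) ≠ a i0 := by
        intro h
        have h2 := hd.inja h
        rw [← e1] at h2
        exact add_ne i0 (Nat.succ_pos j) hj h2
      rw [e1] at hp
      have h2 := step hc (z := a ((i0 + j) + 1)) hz (by rw [hy]; exact hd.disj _ _)
        (hpp (i0 + j)) (by rw [hd.endp, Sym2.mem_iff]; exact Or.inl rfl)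
        (by rw [hd.endp, Sym2.mem_iff]; exact Or.inr rfl) (g := m ((i0 + j) + 1))
        (by rw [hd.endm, Sym2.mem_iff]; exact Or.inl rfl) (hd.wp _) (hd.wp _) (hd.wm _)
        (fun h => hz (by rw [hm _ h])) (hall (i0 + j)) hi hi' hp hp'
      rw [h2, h1, Nat.even_add_one]
  · -- second circuit
    have hqq : ∀ c : ZMod n, q (c + 1) ≠ q c := by
      intro c h
      have h1 := hd.endq (c + 1)
      rw [h, hd.endq, Sym2.eq_iff] at h1
      rcases h1 with ⟨h1, -⟩ | ⟨h1, -⟩
      · have h2 := hd.injb h1
        apply h10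
        linear_combination (-1 : ZMod n) * h2
      · have h2 := hd.injb h1
        apply h20
        linear_combination (-1 : ZMod n) * h2
    have hall : ∀ (c : ZMod n) (h : E), b (c + 1) ∈ G.ends h →
        h = q (c + 1) ∨ h = q c ∨ h = m (π.symm (c + 1)) := by
      intro c h hh
      rcases hd.surjE h with ⟨i, rfl⟩ | ⟨i, rfl⟩ | ⟨i, rfl⟩
      · rw [hd.endp, Sym2.mem_iff] at hh
        rcases hh with hh | hh
        · exact absurd hh.symm (hd.disj _ _)
        · exact absurd hh.symm (hd.disj _ _)
      · rw [hd.endq, Sym2.mem_iff] at hh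
        rcases hh with hh | hh
        · rw [hd.injb hh]
          exact Or.inl rfl
        · have h2 := hd.injb hh
          have h3 : c = i := by linear_combination h2
          rw [h3]
          exact Or.inr (Or.inl rfl)
      · rw [hd.endm, Sym2.mem_iff] at hh
        rcases hh with hh | hh
        · exact absurd hh.symm (hd.disj _ _)
        · rw [hd.injb hh, Equiv.symm_apply_apply]
          exact Or.inr (Or.inr rfl)
    intro j
    induction j with
    | zero =>
      intro _ i hi hq
      have h1 : G.deg (D i) y = 2 := by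
        refine deg_two hc hi hq ?_
        rw [hd.endq, Sym2.mem_iff, hy]
        left
        simp
      have h2 := (hc.last i hi).1 h1
      have h3 : i = 0 + (t - 1) := by omega
      rw [← h3]
    | succ j ih =>
      intro hj i hi hq
      obtain ⟨i', ⟨hi', hq'⟩, -⟩ := hc.cover1 (q (π i0 + j)) (hd.wq _)
      have h1 := ih (by omega) i' hi' hq'
      have e1 : π i0 + ((j + 1 : ℕ) : ZMod n) = (π i0 + j) + 1 := by
        push_cast
        ring
      have hz : b ((π i0 + j) + 1) ≠ b (π i0) := by
        intro h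
        have h2 := hd.injb h
        rw [← e1] at h2
        exact add_ne (π i0) (Nat.succ_pos j) hj h2
      rw [e1] at hq
      have h2 := step hc (z := b ((π i0 + j) + 1)) (fun h => hd.disj _ _ h.symm) (by rw [hy]; exact hz)
        (hqq (π i0 + j)) (by rw [hd.endq, Sym2.mem_iff]; exact Or.inl rfl)
        (by rw [hd.endq, Sym2.mem_iff]; exact Or.inr rfl) (g := m (π.symm ((π i0 + j) + 1)))
        (by rw [hd.endm, Sym2.mem_iff, Equiv.apply_symm_apply]; exact Or.inr rfl) (hd.wq _)
        (hd.wq _) (hd.wm _)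
        (fun h => hz (by
          have h3 := hm _ h
          rw [Equiv.symm_apply_eq] at h3
          rw [h3])) (hall (π i0 + j)) hi hi' hq hq'
      have h4 : Even (j + 1 + (t - 1)) ↔ ¬ Even (j + (t - 1)) := by
        rw [show j + 1 + (t - 1) = (j + (t - 1)) + 1 by omega, Nat.even_add_one]
      rw [h2, h1, h4]

end MGraph

end Pool.GOD
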