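import Pool.Agent.GOD.StmtS

/-!
Enumeration of the first circuit of a chain (MP_7b7176_co, module `GSV_EndE`).
-/

set_option autoImplicit false
set_option linter.unusedSectionVars false

namespace Pool.GOD

namespace MGraph

namespace SEndE

variable {V E : Type*} [Fintype V] [DecidableEq V] [Fintype E] [DecidableEq E] {G : MGraph V E}
  {w : E → ℕ}

lemma two_le_deg {X : Finset E} {f g : E} {a : V} (hf : f ∈ X) (hg : g ∈ X) (hne : f ≠ g)
    (af : a ∈ G.ends f) (ag : a ∈ G.ends g) : 2 ≤ G.deg X a := by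
  have h1 : ({f, g} : Finset E) ⊆ X.filter (fun e => a ∈ G.ends e) := by
    intro z hz
    simp only [Finset.mem_insert, Finset.mem_singleton] at hz
    rw [Finset.mem_filter]
    rcases hz with rfl | rfl
    · exact ⟨hf, af⟩
    · exact ⟨hg, ag⟩
  have h2 := Finset.card_le_card h1
  rw [Finset.card_pair hne] at h2
  exact h2

lemma mem_two {f : E} : f ∈ two w ↔ w f = 2 := by
  simp [two]

lemma w_e0 (h : G.SP w) {e0 : E} {x y : V} {t : ℕ} {D : ℕ → Finset E}
    (hc : G.IsChain w e0 x y t D) : w e0 = 2 := by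
  rcases h.val e0 with h1 | h1
  · obtain ⟨i, ⟨hi, hm⟩, _⟩ := hc.cover1 e0 h1
    exact absurd hm (hc.emem i hi)
  · exact h1

lemma not_two_at_x (h : G.SP w) {e0 : E} {x y : V} {t : ℕ} {D : ℕ → Finset E}
    (hc : G.IsChain w e0 x y t D) {f : E} (hf : f ∈ D 0) (hx : x ∈ G.ends f) : w f ≠ 2 := by
  intro h2
  have hne : f ≠ e0 := by
    rintro rfl
    exact hc.emem 0 hc.pos hf
  have hx0 : x ∈ G.ends e0 := by
    rw [hc.ends]
    exact Sym2.mem_mk_left _ _
  have h3 := two_le_deg (G := G) (mem_two.2 h2) (mem_two.2 (w_e0 h hc)) hne hx hx0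
  rw [h.d2 x] at h3
  omega

/-- an enumeration that starts at `x` -/
lemma exists_enum_at {D : Finset E} (hD : G.IsCircuit D) {x : V} (hx : G.deg D x = 2) :
    ∃ n v e, Enum G D n v e ∧ v 0 = x := by
  obtain ⟨n, v, e, he⟩ := hD.exists_enum
  have h1 : 0 < G.deg D x := by omega
  rw [deg_pos_iff] at h1
  obtain ⟨f, hf, hxf⟩ := h1
  obtain ⟨i, _, rfl⟩ := (he.mem f).1 hf
  rw [he.ends i, Sym2.mem_iff] at hxf
  rcases hxf with h2 | h2
  · exact ⟨n, _, _, he.rot i, by show v (0 + i) = x; rw [Nat.zero_add]; exact h2.symm⟩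
  · exact ⟨n, _, _, he.rot (i + 1), by show v (0 + (i + 1)) = x; rw [Nat.zero_add]; exact h2.symm⟩

lemma alt_iff (h : G.SP w) {e0 : E} {x y : V} {t : ℕ} {D : ℕ → Finset E}
    (hc : G.IsChain w e0 x y t D) (ht : 2 ≤ t) {n : ℕ} {v : ℕ → V} {e : ℕ → E}
    (he : Enum G (D 0) n v e) (h0 : v 0 = x) : ∀ i, i < n → (w (e i) = 2 ↔ Odd i) := by
  intro i
  induction i with
  | zero =>
    intro _
    have h1 : w (e 0) ≠ 2 := by
      refine not_two_at_x h hc (he.e_mem 0) ?_
      rw [he.ends 0, ← h0]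
      exact Sym2.mem_mk_left _ _
    simp [h1]
  | succ i ih =>
    intro hi
    have ih' := ih (by omega)
    have hv1 : v (i + 1) ∈ G.ends (e i) := by
      rw [he.ends i]
      exact Sym2.mem_mk_right _ _
    have hv2 : v (i + 1) ∈ G.ends (e (i + 1)) := by
      rw [he.ends (i + 1)]
      exact Sym2.mem_mk_left _ _
    have hdeg : G.deg (D 0) (v (i + 1)) = 2 :=
      (hc.circ 0 hc.pos).deg_eq_two (he.e_mem i) hv1
    have hx : v (i + 1) ≠ x := by
      intro hx
      rw [← h0] at hx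
      have := he.injv _ _ hi (by omega) hx
      omega
    have hy : v (i + 1) ≠ y := by
      intro hy
      rw [hy] at hdeg
      have := (hc.last 0 hc.pos).1 hdeg
      omega
    have hne : e i ≠ e (i + 1) := by
      intro hne
      have := he.inje _ _ (by omega) hi hne
      omega
    have halt := hc.alt 0 hc.pos _ hx hy hdeg
    have hiff : w (e (i + 1)) = 2 ↔ ¬ w (e i) = 2 := by
      constructor
      · intro h1 h2
        have h3 := two_le_deg (G := G) (X := D 0 ∩ two w)
          (Finset.mem_inter.2 ⟨he.e_mem i, mem_two.2 h2⟩)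
          (Finset.mem_inter.2 ⟨he.e_mem (i + 1), mem_two.2 h1⟩) hne hv1 hv2
        omega
      · intro h2
        have h3 : 0 < G.deg (D 0 ∩ two w) (v (i + 1)) := by omega
        rw [deg_pos_iff] at h3
        obtain ⟨g, hg, hvg⟩ := h3
        rw [Finset.mem_inter, mem_two] at hg
        rcases eq_or_eq_of_deg_two hdeg (he.e_mem i) (he.e_mem (i + 1)) hg.1 hv1 hv2 hvg hne
          with h4 | h4
        · rw [h4] at hg
          exact absurd hg.2 h2
        · rw [h4] at hg
          exact hg.2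
    rw [hiff, ih', Nat.odd_add_one]

end SEndE

open SEndE in
theorem s_EndE : Stmt_S_EndE := by
  intro V E _ _ _ _ G w h e0 x y t D hc ht
  have hsub : D 0 ∩ two w ⊆ D 1 := by
    intro f hf
    rw [Finset.mem_inter, mem_two] at hf
    have hne : f ≠ e0 := by
      rintro rfl
      exact hc.emem 0 hc.pos hf.1
    obtain ⟨i, _, _, h2, h3⟩ := hc.cover2 f hf.2 hne
    have h4 := h3 0 hc.pos hf.1
    have h5 : i = 0 := by omega
    rw [h5] at h2
    exact h2
  have hpos : 0 < (D 0 ∩ two w).card := by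
    obtain ⟨f, hf, hf0, _⟩ := hc.meet 0 (by omega)
    exact Finset.card_pos.2 ⟨f, Finset.mem_inter.2 ⟨hf0, mem_two.2 hf⟩⟩
  refine ⟨hsub, h.par _ (hc.circ 0 hc.pos).isEven, hpos, ?_⟩
  obtain ⟨n, v, e, he, h0⟩ := exists_enum_at (hc.circ 0 hc.pos)
    ((hc.first 0 hc.pos).2 rfl)
  have halt := alt_iff h hc ht he h0
  have hn := he.two
  have hlast : w (e (n - 1)) ≠ 2 := by
    refine not_two_at_x h hc (he.e_mem _) ?_
    rw [he.ends (n - 1), show n - 1 + 1 = 0 + n by omega, he.pv, h0]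
    exact Sym2.mem_mk_right _ _
  have hodd : ¬ Odd (n - 1) := by
    intro ho
    exact hlast ((halt (n - 1) (by omega)).2 ho)
  rw [Nat.not_odd_iff_even] at hodd
  obtain ⟨m, hm⟩ := hodd
  have hnm : n = 2 * m + 1 := by omega
  have himg : D 0 ∩ two w = (Finset.range m).image (fun j => e (2 * j + 1)) := by
    ext f
    rw [Finset.mem_inter, mem_two, he.mem f, Finset.mem_image]
    constructor
    · rintro ⟨⟨i, hi, rfl⟩, h2⟩
      obtain ⟨j, hj⟩ := (halt i hi).1 h2
      refine ⟨j, Finset.mem_range.2 (by omega), ?_⟩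
      rw [← hj]
    · rintro ⟨j, hj, rfl⟩
      have hj' := Finset.mem_range.1 hj
      have h1 : 2 * j + 1 < n := by omega
      exact ⟨⟨2 * j + 1, h1, rfl⟩, (halt _ h1).2 ⟨j, rfl⟩⟩
  have hcard : (D 0 ∩ two w).card = m := by
    rw [himg, Finset.card_image_of_injOn, Finset.card_range]
    intro i hi j hj hij
    have hi' := Finset.mem_range.1 (Finset.mem_coe.1 hi)
    have hj' := Finset.mem_range.1 (Finset.mem_coe.1 hj)
    have := he.inje (2 * i + 1) (2 * j + 1) (by omega) (by omega) hij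
    omega
  rw [hcard]
  rw [hnm] at he halt
  exact ⟨v, e, ⟨he, h0, halt⟩⟩

end MGraph

end Pool.GOD
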