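import Pool.Agent.GOD.StmtS

set_option autoImplicit false

namespace Pool.GOD

namespace MGraph

theorem s_EndRev : Stmt_S_EndRev := by
  intro V E _ _ _ _ G w D x m v e h
  refine { toEnum := h.toEnum.rev, v0 := ?_, alt := ?_ }
  · show v (2 * m + 1 - 0 % (2 * m + 1)) = x
    have h1 := h.pv 0
    rw [Nat.zero_add] at h1
    rw [Nat.zero_mod, Nat.sub_zero, h1, h.v0]
  · intro i hi
    show w (e (2 * m + 1 - 1 - i % (2 * m + 1))) = 2 ↔ Odd i
    rw [Nat.mod_eq_of_lt hi, h.alt _ (by omega)]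
    constructor
    · rintro ⟨k, hk⟩
      exact ⟨m - k - 1, by omega⟩
    · rintro ⟨k, hk⟩
      exact ⟨m - k - 1, by omega⟩

end MGraph

end Pool.GOD
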