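import Pool.Agent.GOD.StmtS

set_option autoImplicit false
set_option linter.unusedSectionVars false

namespace Pool.GOD

namespace MGraph

namespace SExt

variable {V E : Type} [Fintype V] [DecidableEq V] [Fintype E] [DecidableEq E]

theorem mem_newEnd {N k : ℕ} {e : ℕ → E} {f g : E} :
    g ∈ newEnd N k e f ↔ g = f ∨ ∃ i, 2 * k + 2 ≤ i ∧ i < 2 * N ∧ e i = g := by
  unfold newEnd
  rw [Finset.mem_insert, Finset.mem_image]
  simp only [Finset.mem_Ico, and_assoc]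

theorem mem_two {w : E → ℕ} {f : E} : f ∈ two w ↔ w f = 2 := by
  unfold two
  rw [Finset.mem_filter]
  exact ⟨fun h => h.2, fun h => ⟨Finset.mem_univ _, h⟩⟩

theorem mem_one {w : E → ℕ} {f : E} : f ∈ one w ↔ w f = 1 := by
  unfold one
  rw [Finset.mem_filter]
  exact ⟨fun h => h.2, fun h => ⟨Finset.mem_univ _, h⟩⟩

/-- If the degree is 1 then two edges at the vertex are equal. -/
theorem eq_of_deg_one {G : MGraph V E} {D : Finset E} {a : V} {f g : E} (h : G.deg D a = 1)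
    (hf : f ∈ D) (hg : g ∈ D) (af : a ∈ G.ends f) (ag : a ∈ G.ends g) : f = g := by
  unfold deg at h
  rw [Finset.card_eq_one] at h
  obtain ⟨c, hc⟩ := h
  have h1 : f ∈ D.filter (fun e => a ∈ G.ends e) := Finset.mem_filter.2 ⟨hf, af⟩
  have h2 : g ∈ D.filter (fun e => a ∈ G.ends e) := Finset.mem_filter.2 ⟨hg, ag⟩
  rw [hc, Finset.mem_singleton] at h1 h2
  rw [h1, h2]

/-- A vertex where the degree of `C` is 2 and the degree of `C ∩ two w` is 1 has a 1-edge in `C`. -/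
theorem exists_one {G : MGraph V E} {w : E → ℕ} (hval : ∀ e, w e = 1 ∨ w e = 2) {C : Finset E}
    {a : V} (h : G.deg C a = 2) (h' : G.deg (C ∩ two w) a = 1) :
    ∃ f ∈ C, w f = 1 ∧ a ∈ G.ends f := by
  by_contra hcon
  push Not at hcon
  have hsub : C.filter (fun e => a ∈ G.ends e) ⊆ (C ∩ two w).filter (fun e => a ∈ G.ends e) := by
    intro f hf
    rw [Finset.mem_filter] at hf ⊢
    refine ⟨Finset.mem_inter.2 ⟨hf.1, mem_two.2 ?_⟩, hf.2⟩
    rcases hval f with h1 | h1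
    · exact absurd hf.2 (hcon f hf.1 h1)
    · exact h1
  have := Finset.card_le_card hsub
  unfold deg at h h'
  omega

end SExt

open SExt in
theorem s_Ext (hX : Stmt_S_Exch) (hE : Stmt_S_EndE) : Stmt_S_Ext := by
  intro V E _ _ _ _ G w hSP e0 x y t D hC ht N v e k f hB g hgD hg0 hg1
  by_contra hx
  obtain ⟨hk, t', D', ht', hC', hD0, -⟩ := hX V E G w hSP e0 x y t D hC ht N v e k f hB
  have hends0 : G.ends (e 0) = s(v 0, v 1) := hB.ends 0
  have hw0 : w (e 0) = 2 := (hB.alt 0).2 ⟨0, rfl⟩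
  have hv1e0 : v 1 ∈ G.ends (e 0) := by
    rw [hends0]
    exact Sym2.mem_mk_right _ _
  obtain ⟨z, hz⟩ := hg1
  have hv1g : v 1 ∈ G.ends g := by
    rw [hz]
    exact Sym2.mem_mk_left _ _
  have hzg : z ∈ G.ends g := by
    rw [hz]
    exact Sym2.mem_mk_right _ _
  have hwg : w g = 1 := by
    rcases hSP.val g with h | h
    · exact h
    · exact absurd (eq_of_deg_one (hSP.d2 (v 1)) (mem_two.2 h) (mem_two.2 hw0) hv1g hv1e0) hg0
  have hzx : z ≠ x := by
    rintro rfl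
    exact hx hzg
  have hzv1 : z ≠ v 1 := (ends_ne hz).symm
  have hzv0 : z ≠ v 0 := by
    rintro rfl
    apply hg0
    apply hSP.simple
    rw [hz, hends0, Sym2.eq_swap]
  have h0t : 0 < t := hC.pos
  have hcirc0 : G.IsCircuit (D 0) := hC.circ 0 h0t
  have hzy : z ≠ y := by
    rintro rfl
    have h2 := hcirc0.deg_eq_two hgD hzg
    have := (hC.last 0 h0t).1 h2
    omega
  have hdegz : G.deg (D 0) z = 2 := hcirc0.deg_eq_two hgD hzg
  have halt := hC.alt 0 h0t z hzx hzy hdegz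
  obtain ⟨s, hs, hzs⟩ := G.deg_pos_iff.1 (by rw [halt]; exact Nat.one_pos)
  rw [Finset.mem_inter, mem_two] at hs
  obtain ⟨hsD0, hws⟩ := hs
  have hsD1 : s ∈ D 1 :=
    (hE V E G w hSP e0 x y t D hC (by omega)).1 (Finset.mem_inter.2 ⟨hsD0, mem_two.2 hws⟩)
  have hs0 : s ≠ e 0 := by
    rintro rfl
    rw [hends0, Sym2.mem_iff] at hzs
    rcases hzs with h | h
    · exact hzv0 h
    · exact hzv1 h
  obtain ⟨j, hj, hej⟩ := (hB.mem s).1 hsD1
  have hj0 : j ≠ 0 := by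
    rintro rfl
    exact hs0 hej.symm
  have hjk : 2 * k + 2 ≤ j := by
    by_contra hcon
    exact hB.gap j (by omega) (by omega) (by rw [hej]; exact hsD0)
  have hsD'0 : s ∈ D' 0 := by
    rw [hD0, mem_newEnd]
    exact Or.inr ⟨j, hjk, hj, hej⟩
  have hsD'1 : s ∈ D' 1 :=
    (hE V E G w hSP (e 0) (v 0) (v 1) t' D' hC' (by omega)).1
      (Finset.mem_inter.2 ⟨hsD'0, mem_two.2 hws⟩)
  have hc0 : G.IsCircuit (D' 0) := hC'.circ 0 (by omega)
  have hc1 : G.IsCircuit (D' 1) := hC'.circ 1 (by omega)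
  have hd0 := hc0.deg_eq_two hsD'0 hzs
  have hd1 := hc1.deg_eq_two hsD'1 hzs
  obtain ⟨s0, hs0D, hws0, hzs0⟩ :=
    exists_one hSP.val hd0 (hC'.alt 0 (by omega) z hzv0 hzv1 hd0)
  obtain ⟨s1, hs1D, hws1, hzs1⟩ :=
    exists_one hSP.val hd1 (hC'.alt 1 (by omega) z hzv0 hzv1 hd1)
  have hne : s0 ≠ s1 := by
    rintro rfl
    obtain ⟨i, -, hi⟩ := hC'.cover1 s0 hws0
    have h1 := hi 0 ⟨by omega, hs0D⟩
    have h2 := hi 1 ⟨by omega, hs1D⟩
    omega
  have hg01 : g = s0 ∨ g = s1 :=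
    eq_or_eq_of_deg_two (hSP.d1 z) (mem_one.2 hws0) (mem_one.2 hws1) (mem_one.2 hwg)
      hzs0 hzs1 hzg hne
  have hgD'0 : g ∉ D' 0 := by
    rw [hD0, mem_newEnd]
    rintro (h | ⟨i, hi1, hi2, hi3⟩)
    · rw [h, hB.ef, Sym2.mem_iff] at hv1g
      have hlt := hB.lt
      rcases hv1g with h' | h'
      · have := hB.injv 1 0 (by omega) (by omega) h'
        omega
      · have := hB.injv 1 (2 * k + 2) (by omega) (by omega) h'
        omega
    · have hg1' : g ∈ D 1 := (hB.mem g).2 ⟨i, hi2, hi3⟩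
      obtain ⟨i', -, hi'⟩ := hC.cover1 g hwg
      have h1 := hi' 0 ⟨h0t, hgD⟩
      have h2 := hi' 1 ⟨by omega, hg1'⟩
      omega
  have hgD'1 : g ∈ D' 1 := by
    rcases hg01 with h | h
    · exact absurd (by rw [h]; exact hs0D) hgD'0
    · rw [h]
      exact hs1D
  have hfin := (hC'.last 1 (by omega)).1 (hc1.deg_eq_two hgD'1 hv1g)
  omega

end MGraph

end Pool.GOD
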