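import Pool.Agent.GOD.StmtS

/-!
A maximal end circuit has at most 3 edges of weight 2.
-/

set_option autoImplicit false
set_option linter.unusedSectionVars false

namespace Pool.GOD

namespace MGraph

namespace SFin

variable {V E : Type} [Fintype V] [DecidableEq V] [Fintype E] [DecidableEq E] {G : MGraph V E}

/-- at most one edge in a set of degree one -/
theorem eq_of_deg_one {X : Finset E} {v : V} (hX : G.deg X v = 1) {a b : E} (ha : a ∈ X)
    (hb : b ∈ X) (hva : v ∈ G.ends a) (hvb : v ∈ G.ends b) : a = b := by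
  unfold deg at hX
  obtain ⟨c, hc⟩ := Finset.card_eq_one.mp hX
  have h1 : a ∈ X.filter (fun e => v ∈ G.ends e) := Finset.mem_filter.mpr ⟨ha, hva⟩
  have h2 : b ∈ X.filter (fun e => v ∈ G.ends e) := Finset.mem_filter.mpr ⟨hb, hvb⟩
  rw [hc, Finset.mem_singleton] at h1 h2
  rw [h1, h2]

theorem eq_or_of_deg_two {X : Finset E} {v : V} (hX : G.deg X v = 2) {a b c : E} (ha : a ∈ X)
    (hb : b ∈ X) (hc : c ∈ X) (hva : v ∈ G.ends a) (hvb : v ∈ G.ends b) (hvc : v ∈ G.ends c)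
    (hab : a ≠ b) : c = a ∨ c = b := by
  by_contra hcon
  push Not at hcon
  have h1 : ({a, b, c} : Finset E) ⊆ X.filter (fun e => v ∈ G.ends e) := by
    intro z hz
    simp only [Finset.mem_insert, Finset.mem_singleton] at hz
    rcases hz with rfl | rfl | rfl
    · exact Finset.mem_filter.mpr ⟨ha, hva⟩
    · exact Finset.mem_filter.mpr ⟨hb, hvb⟩
    · exact Finset.mem_filter.mpr ⟨hc, hvc⟩
  have h2 := Finset.card_le_card h1
  have h3 : ({a, b, c} : Finset E).card = 3 := by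
    rw [Finset.card_eq_three]
    exact ⟨a, b, c, hab, fun h => hcon.1 h.symm, fun h => hcon.2 h.symm, rfl⟩
  unfold deg at hX
  omega

theorem mem_two {w : E → ℕ} {e : E} : e ∈ two w ↔ w e = 2 := by simp [two]

theorem mem_one {w : E → ℕ} {e : E} : e ∈ one w ↔ w e = 1 := by simp [one]

/-- the other end -/
theorem other_end {p q r : V} (h : s(p, q) = s(r, p)) : q = r := by
  rcases Sym2.eq_iff.mp h with ⟨h1, h2⟩ | ⟨-, h2⟩
  · rw [h2, h1]
  · exact h2

theorem mem_left {e : E} {a b : V} (h : G.ends e = s(a, b)) : a ∈ G.ends e := by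
  rw [h]
  exact Sym2.mem_mk_left a b

theorem mem_right {e : E} {a b : V} (h : G.ends e = s(a, b)) : b ∈ G.ends e := by
  rw [h]
  exact Sym2.mem_mk_right a b

theorem main (w : E → ℕ) (h : G.SP w) (m : ℕ) (hm : 4 ≤ m) {e0 : E} {x y : V} {t : ℕ}
    {D : ℕ → Finset E} (hD : G.IsChain w e0 x y t D) (ht : 3 ≤ t) {v : ℕ → V} {e : ℕ → E} {f : E}
    (hB : G.Bond w (D 0) (D 1) (m + 2) v e 1 f) (he6 : e 6 ∈ D 0) {D0' D1' : Finset E}
    (hf' : f ∈ D0') {u : ℕ → V} {g : ℕ → E} {f2 : E}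
    (hB' : G.Bond w D0' D1' (m + 2) u g 1 f2) (hu1 : u 1 = v 4) (hu4 : u 4 = v 6) : False := by
  -- the edges `g 1, g 2, g 3`
  have wv : ∀ i, Odd i → w (e i) = 1 := by
    intro i hi
    rcases h.val (e i) with h1 | h1
    · exact h1
    · exact absurd ((hB.alt i).mp h1) (Nat.not_even_iff_odd.mpr hi)
  have wg : ∀ i, Odd i → w (g i) = 1 := by
    intro i hi
    rcases h.val (g i) with h1 | h1
    · exact h1
    · exact absurd ((hB'.alt i).mp h1) (Nat.not_even_iff_odd.mpr hi)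
  have w2v : ∀ i, Even i → w (e i) = 2 := fun i hi => (hB.alt i).mpr hi
  have w2g : ∀ i, Even i → w (g i) = 2 := fun i hi => (hB'.alt i).mpr hi
  have hg1 : G.ends (g 1) = s(u 1, u 2) := hB'.ends 1
  have hg2 : G.ends (g 2) = s(u 2, u 3) := hB'.ends 2
  have hg3 : G.ends (g 3) = s(u 3, u 4) := hB'.ends 3
  have hE1 : G.ends (e 1) = s(v 1, v 2) := hB.ends 1
  have hE2 : G.ends (e 2) = s(v 2, v 3) := hB.ends 2
  have hE3 : G.ends (e 3) = s(v 3, v 4) := hB.ends 3
  have hE6 : G.ends (e 6) = s(v 6, v 7) := hB.ends 6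
  have hef : G.ends f = s(v 0, v 4) := hB.ef
  have e3D1 : e 3 ∈ D 1 := hB.toEnum.e_mem 3
  have e1D1 : e 1 ∈ D 1 := hB.toEnum.e_mem 1
  have e2D1 : e 2 ∈ D 1 := hB.toEnum.e_mem 2
  have e3f : e 3 ≠ f := fun hh => hB.f1 (hh ▸ e3D1)
  have gap' : ∀ i, 0 < i → i < 4 → g i ∉ D0' := fun i h1 h2 => hB'.gap i h1 (by omega)
  -- g 1 = e 3
  have k1 : g 1 = e 3 := by
    have hv4 : v 4 ∈ G.ends (g 1) := by
      rw [hg1, hu1]
      exact Sym2.mem_mk_left _ _
    rcases eq_or_of_deg_two (h.d1 (v 4)) (mem_one.mpr (wv 3 (by decide)))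
      (mem_one.mpr hB.wf) (mem_one.mpr (wg 1 (by decide))) (mem_right hE3) (mem_right hef) hv4
      e3f with h1 | h1
    · exact h1
    · exact absurd (h1 ▸ hf') (gap' 1 (by omega) (by omega))
  have k2 : u 2 = v 3 := by
    rw [k1, hE3, hu1] at hg1
    exact (other_end hg1.symm)
  -- g 2 = e 2
  have k3 : g 2 = e 2 := by
    refine eq_of_deg_one (h.d2 (v 3)) (mem_two.mpr (w2g 2 (by decide)))
      (mem_two.mpr (w2v 2 (by decide))) ?_ (mem_right hE2)
    rw [hg2, k2]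
    exact Sym2.mem_mk_left _ _
  have k4 : u 3 = v 2 := by
    rw [k3, hE2, k2] at hg2
    exact other_end hg2.symm
  have hg3' : G.ends (g 3) = s(v 2, v 6) := by rw [hg3, k4, hu4]
  have k5 : g 3 ≠ e 1 := by
    intro hh
    rw [hh, hE1] at hg3'
    have h1 : v 6 = v 1 := other_end hg3'.symm
    have h2 := hB.injv 6 1 (by omega) (by omega) h1
    omega
  -- e 2 is in D 2
  have e2e0 : e 2 ≠ e0 := fun hh => hD.emem 1 (by omega) (hh ▸ e2D1)
  have e2D0 : e 2 ∉ D 0 := hB.gap 2 (by omega) (by omega)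
  have e2D2 : e 2 ∈ D 2 := by
    obtain ⟨i, hi, hi1, hi2, hi3⟩ := hD.cover2 (e 2) (w2v 2 (by decide)) e2e0
    rcases hi3 1 (by omega) e2D1 with h1 | h1
    · rw [← h1] at hi2
      exact hi2
    · have : i = 0 := by omega
      rw [this] at hi1
      exact absurd hi1 e2D0
  have v2x : v 2 ≠ x := by
    intro hh
    apply e2e0
    refine eq_of_deg_one (h.d2 x) (mem_two.mpr (w2v 2 (by decide)))
      (mem_two.mpr ?_) (hh ▸ mem_left hE2) (mem_left hD.ends)
    rcases h.val e0 with h1 | h1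
    · obtain ⟨i, hi, -⟩ := hD.cover1 e0 h1
      exact absurd hi.2 (hD.emem i hi.1)
    · exact h1
  have v2y : v 2 ≠ y := by
    intro hh
    apply e2e0
    refine eq_of_deg_one (h.d2 y) (mem_two.mpr (w2v 2 (by decide)))
      (mem_two.mpr ?_) (hh ▸ mem_left hE2) (mem_right hD.ends)
    rcases h.val e0 with h1 | h1
    · obtain ⟨i, hi, -⟩ := hD.cover1 e0 h1
      exact absurd hi.2 (hD.emem i hi.1)
    · exact h1
  have d2v2 : G.deg (D 2) (v 2) = 2 := (hD.circ 2 (by omega)).deg_eq_two e2D2 (mem_left hE2)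
  have d2v2' : G.deg (D 2 ∩ two w) (v 2) = 1 := hD.alt 2 (by omega) (v 2) v2x v2y d2v2
  -- a 1-edge of D 2 at v 2
  obtain ⟨s, hs, hsv, hs2⟩ : ∃ s ∈ D 2, v 2 ∈ G.ends s ∧ s ∉ two w := by
    by_contra hcon
    push Not at hcon
    have h1 : (D 2).filter (fun e => v 2 ∈ G.ends e) ⊆
        (D 2 ∩ two w).filter (fun e => v 2 ∈ G.ends e) := by
      intro z hz
      rw [Finset.mem_filter] at hz
      exact Finset.mem_filter.mpr ⟨Finset.mem_inter.mpr ⟨hz.1, hcon z hz.1 hz.2⟩, hz.2⟩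
    have h2 := Finset.card_le_card h1
    unfold deg at d2v2 d2v2'
    omega
  have ws : w s = 1 := by
    rcases h.val s with h1 | h1
    · exact h1
    · exact absurd (mem_two.mpr h1) hs2
  have se1 : s ≠ e 1 := by
    intro hh
    obtain ⟨i, -, hi2⟩ := hD.cover1 (e 1) (wv 1 (by decide))
    have h1 := hi2 1 ⟨by omega, e1D1⟩
    have h2 := hi2 2 ⟨by omega, hh ▸ hs⟩
    omega
  have sg3 : s = g 3 := by
    rcases eq_or_of_deg_two (h.d1 (v 2)) (mem_one.mpr (wv 1 (by decide)))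
      (mem_one.mpr (wg 3 (by decide))) (mem_one.mpr ws) (mem_right hE1) (mem_left hg3') hsv
      (Ne.symm k5) with h1 | h1
    · exact absurd h1 se1
    · exact h1
  have g3D2 : g 3 ∈ D 2 := sg3 ▸ hs
  have hA : G.deg (D 2) (v 6) = 2 := (hD.circ 2 (by omega)).deg_eq_two g3D2 (mem_right hg3')
  have hC : G.deg (D 0) (v 6) = 2 := (hD.circ 0 (by omega)).deg_eq_two he6 (mem_left hE6)
  rcases hD.disj 0 (by omega) 2 (by omega) (by omega) (v 6) with h1 | h1
  · omega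
  · omega

end SFin

theorem s_Fin (hE : Stmt_S_EndE) (hN : Stmt_S_NewEnd) (hX : Stmt_S_Exch)
    (hS : Stmt_S_Struct) : Stmt_S_Fin := by
  intro V E _ _ _ _ G w h m hM e0 x y t D hD ht hcard
  by_contra hcon
  have hm : 4 ≤ m := by omega
  obtain ⟨-, -, -, v0, e0', hEnd⟩ := hE V E G w h e0 x y t D hD (by omega)
  rw [hcard] at hEnd
  obtain ⟨v, e, f, hB, h1, h2, h3, h4, h5, h6, h7⟩ :=
    hS V E G w h m hM hm e0 x y t D hD ht v0 e0' hEnd
  obtain ⟨-, t', D', ht', hD', hD0', hcard'⟩ := hX V E G w h e0 x y t D hD ht (m + 2) v e 1 f hB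
  obtain ⟨v', e', hEnd', he0', hei', hvi'⟩ := hN V E G w (D 0) (D 1) (m + 2) v e 1 f hB
  have hmm : m + 2 - 1 - 1 = m := by omega
  rw [hmm] at hEnd' hei' hvi'
  rw [← hD0'] at hEnd'
  obtain ⟨u, g, f2, hB', k1, k2, k3, k4, k5, k6, k7⟩ :=
    hS V E G w h m hM hm (e 0) (v 0) (v 1) t' D' hD' ht' v' e' hEnd'
  have hf' : f ∈ D' 0 := by
    rw [hD0']
    exact Finset.mem_insert_self _ _
  refine SFin.main w h m hm hD ht hB h7 hf' hB' ?_ ?_
  · rw [k2, hvi' 1 (by omega) (by omega)]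
  · rw [k5, hvi' 3 (by omega) (by omega)]

end MGraph

end Pool.GOD
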