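import Pool.Agent.GOD.StmtS2

/-!
# MP_7b7176_co, module IsoExt: the extension property is invariant under isomorphism
-/

set_option autoImplicit false
set_option linter.unusedSectionVars false

namespace Pool.GOD

namespace MGraph

namespace SIsoExt

open IsoX

variable {E E' : Type*} [Fintype E] [DecidableEq E] [Fintype E'] [DecidableEq E']

lemma countP_im (ψ : E ≃ E') (L : List (Finset E)) (f : E') :
    (L.map (im ψ)).countP (fun C => decide (f ∈ C)) =
      L.countP (fun C => decide (ψ.symm f ∈ C)) := by
  rw [List.countP_map]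
  congr 1
  funext D
  simp [mem_im']

end SIsoExt

open IsoX in
theorem s_IsoExt : Stmt_S_IsoExt := by
  intro V E V' E' _ _ _ _ _ _ _ _ G w G' w' hI hE e he L hL hc hb
  obtain ⟨φ, ψ, h1, h2⟩ := hI
  have h : IsoD G G' φ ψ := h1
  have herase : im ψ (Finset.univ.erase e) = Finset.univ.erase (ψ e) := by
    rw [im_erase, im_univ]
  obtain ⟨L', h3, h4⟩ := hE (ψ e) (by rw [h2, he]) (L.map (im ψ)) (by
      intro C hC
      obtain ⟨D, hD, rfl⟩ := List.mem_map.1 hC
      refine ⟨h.circ (hL D hD).1, ?_⟩
      rw [← herase]
      exact im_subset (hL D hD).2) (by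
      intro f hf
      rw [SIsoExt.countP_im]
      have h5 := hc (ψ.symm f) (by
        rw [← herase, mem_im'] at hf
        exact hf)
      rw [← h2 (ψ.symm f), Equiv.apply_symm_apply] at h5
      exact h5) (by
      have h6 := h.bridgeless hb
      have h7 : im ψ ((Finset.univ.erase e).filter
          (fun f => L.countP (fun C => decide (f ∈ C)) < w f)) =
          (Finset.univ.erase (ψ e)).filter
            (fun f => (L.map (im ψ)).countP (fun C => decide (f ∈ C)) < w' f) := by
        ext f
        rw [mem_im', Finset.mem_filter, Finset.mem_filter, SIsoExt.countP_im, ← herase, mem_im',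
          ← h2 (ψ.symm f), Equiv.apply_symm_apply]
      rw [← h7]
      exact h6)
  refine ⟨L'.map (im ψ.symm), ?_, ?_⟩
  · intro C hC
    obtain ⟨D, hD, rfl⟩ := List.mem_map.1 hC
    refine ⟨h.symm.circ (h3 D hD).1, ?_⟩
    have h8 := im_subset (ψ := ψ.symm) (h3 D hD).2
    rw [← herase, im_symm_im] at h8
    exact h8
  · intro f hf
    have h9 := h4 (ψ f) (by
      rw [← herase, mem_im]
      exact hf)
    rw [List.countP_append, SIsoExt.countP_im, Equiv.symm_apply_apply, h2] at h9
    rw [List.countP_append, SIsoExt.countP_im, Equiv.symm_symm]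
    exact h9

end MGraph

end Pool.GOD
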