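import Pool.Agent.GOD.StmtS

/-!
The two bonds of a maximal end circuit: index combinatorics (MP_7b7176_co, strong version).
-/

set_option autoImplicit false

namespace Pool.GOD

namespace MGraph

namespace SK

variable {V E : Type} [Fintype V] [DecidableEq V] [Fintype E] [DecidableEq E] {G : MGraph V E}
  {w : E → ℕ} {D0 D1 : Finset E}

theorem mem_tw {f : E} : f ∈ two w ↔ w f = 2 := by
  rw [two, Finset.mem_filter]
  exact ⟨fun h => h.2, fun h => ⟨Finset.mem_univ _, h⟩⟩

/-- the number of edges of weight 2 of an end circuit -/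
theorem card_two {x : V} {m : ℕ} {v0 : ℕ → V} {e0' : ℕ → E} (hE : G.EndE w D0 x m v0 e0') :
    (D0 ∩ two w).card = m := by
  have h : D0 ∩ two w = (Finset.range m).image (fun j => e0' (2 * j + 1)) := by
    ext f
    rw [Finset.mem_inter, Finset.mem_image, mem_tw]
    constructor
    · rintro ⟨hf, hw⟩
      obtain ⟨i, hi, rfl⟩ := (hE.mem f).1 hf
      obtain ⟨j, hj⟩ := (hE.alt i hi).1 hw
      exact ⟨j, Finset.mem_range.2 (by omega), by rw [hj]⟩
    · rintro ⟨j, hj, rfl⟩
      have hj' := Finset.mem_range.1 hj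
      exact ⟨(hE.mem _).2 ⟨2 * j + 1, by omega, rfl⟩,
        (hE.alt (2 * j + 1) (by omega)).2 ⟨j, rfl⟩⟩
  rw [h, Finset.card_image_of_injOn, Finset.card_range]
  intro i hi j hj hij
  have hi' := Finset.mem_range.1 (Finset.mem_coe.1 hi)
  have hj' := Finset.mem_range.1 (Finset.mem_coe.1 hj)
  have := hE.inje (2 * i + 1) (2 * j + 1) (by omega) (by omega) hij
  omega

/-- the number of positions of `D1` with an edge of weight 2 not in `D0` -/
theorem card_out {m N : ℕ} {v : ℕ → V} {e : ℕ → E} (hm : (D0 ∩ two w).card = m)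
    (hsub : D0 ∩ two w ⊆ D1) (he : Enum G D1 (2 * N) v e) (halt : ∀ i, w (e i) = 2 ↔ Even i) :
    ((Finset.range N).filter (fun j => e (2 * j) ∉ D0)).card + m = N := by
  have h : D0 ∩ two w = ((Finset.range N).filter (fun j => e (2 * j) ∈ D0)).image
      (fun j => e (2 * j)) := by
    ext f
    rw [Finset.mem_image]
    constructor
    · intro hf
      obtain ⟨i, hi, rfl⟩ := (he.mem f).1 (hsub hf)
      rw [Finset.mem_inter, mem_tw] at hf
      obtain ⟨j, hj⟩ := (halt i).1 hf.2
      have hj2 : i = 2 * j := by omega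
      refine ⟨j, Finset.mem_filter.2 ⟨Finset.mem_range.2 (by omega), ?_⟩, by rw [hj2]⟩
      rw [← hj2]
      exact hf.1
    · rintro ⟨j, hj, rfl⟩
      rw [Finset.mem_inter, mem_tw]
      exact ⟨(Finset.mem_filter.1 hj).2, (halt (2 * j)).2 (even_two_mul j)⟩
  have h2 : ((Finset.range N).filter (fun j => e (2 * j) ∈ D0)).card = m := by
    rw [← hm, h, Finset.card_image_of_injOn]
    intro i hi j hj hij
    have hi' := Finset.mem_range.1 (Finset.mem_filter.1 (Finset.mem_coe.1 hi)).1
    have hj' := Finset.mem_range.1 (Finset.mem_filter.1 (Finset.mem_coe.1 hj)).1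
    have := he.inje (2 * i) (2 * j) (by omega) (by omega) hij
    omega
  have h3 := Finset.card_filter_add_card_filter_not (s := Finset.range N)
    (fun j => e (2 * j) ∈ D0)
  rw [Finset.card_range, h2] at h3
  omega

end SK

theorem s_K (hU : Stmt_S_Uniq) : Stmt_S_K := by
  intro V E _ _ _ _ G w D0 D1 x m v0 e0' hc hE hsub hm4 N v e k f hB he0 hek N' v' e' k' f' hB'
    he0' hek' hk1 hk1' hN hN'
  have hcard := SK.card_two hE
  -- the position of the second leaf
  obtain ⟨r, hr, hre⟩ := (hB.mem (e' 0)).1 (hB'.toEnum.e_mem 0)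
  have hreven : Even r := by
    have h1 : w (e' 0) = 2 := (hB'.alt 0).2 ⟨0, rfl⟩
    rw [← hre] at h1
    exact (hB.alt r).1 h1
  obtain ⟨s, hs⟩ := hreven
  have hr0 : r ≠ 0 := by
    intro h
    rw [h, he0, he0'] at hre
    have := hE.inje 1 (2 * m - 1) (by omega) (by omega) hre
    omega
  have hr1 : 2 * k + 2 ≤ r := by
    by_contra h
    have h1 := hB.gap r (by omega) (by omega)
    rw [hre] at h1
    exact h1 hB'.q0
  have hr2 : r ≠ 2 * k + 2 := by
    intro h
    rw [h, hek, he0'] at hre
    have := hE.inje 3 (2 * m - 1) (by omega) (by omega) hre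
    omega
  have hout := SK.card_out hcard hsub hB.toEnum hB.alt
  have hlt := hB.lt
  have hlt' := hB'.lt
  obtain ⟨hNN, hAB⟩ := hU V E G D1 (2 * N) (fun i => v (i + r)) (fun i => e (i + r)) (2 * N') v' e'
    hc (hB.toEnum.rot r) hB'.toEnum (by
      change e' 0 = e (0 + r)
      rw [Nat.zero_add, hre])
  have hNN' : N' = N := by omega
  subst hNN'
  -- the positions of the edges outside of `D0`
  have hmem1 : ∀ j, 1 ≤ j → j ≤ k → j ∈ (Finset.range N').filter (fun j => e (2 * j) ∉ D0) := by
    intro j hj1 hj2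
    exact Finset.mem_filter.2 ⟨Finset.mem_range.2 (by omega), hB.gap (2 * j) (by omega) (by omega)⟩
  rcases hAB with hA | hBr
  · -- the same orientation
    have hA' : ∀ i, e' i = e (i + r) := hA
    have hrb : r + (2 * k' + 2) ≤ 2 * N' := by
      by_contra h
      have h1 := hB'.gap (2 * N' - r) (by omega) (by omega)
      rw [hA', show 2 * N' - r + r = 0 + 2 * N' by omega, hB.pe] at h1
      exact h1 hB.q0
    have hmem2 : ∀ j, 1 ≤ j → j ≤ k' →
        s + j ∈ (Finset.range N').filter (fun j => e (2 * j) ∉ D0) := by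
      intro j hj1 hj2
      refine Finset.mem_filter.2 ⟨Finset.mem_range.2 (by omega), ?_⟩
      have h1 := hB'.gap (2 * j) (by omega) (by omega)
      rw [hA', show 2 * j + r = 2 * (s + j) by omega] at h1
      exact h1
    have hT : (Finset.Icc 1 k ∪ Finset.Icc (s + 1) (s + k')) ⊆
        (Finset.range N').filter (fun j => e (2 * j) ∉ D0) := by
      intro j hj
      rcases Finset.mem_union.1 hj with h | h
      · rw [Finset.mem_Icc] at h
        exact hmem1 j h.1 h.2
      · rw [Finset.mem_Icc] at h
        have := hmem2 (j - s) (by omega) (by omega)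
        rwa [show s + (j - s) = j by omega] at this
    have hTc : (Finset.Icc 1 k ∪ Finset.Icc (s + 1) (s + k')).card = k + k' := by
      rw [Finset.card_union_of_disjoint, Nat.card_Icc, Nat.card_Icc]
      · omega
      · rw [Finset.disjoint_left]
        intro j hj1 hj2
        rw [Finset.mem_Icc] at hj1 hj2
        omega
    have hle := Finset.card_le_card hT
    rw [hTc] at hle
    have hk : k = 1 := by omega
    have hk' : k' = 1 := by omega
    have hN2 : N' = m + 2 := by omega
    refine ⟨hk, hN2, ?_⟩
    by_contra h6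
    have h6' : 3 ∈ (Finset.range N').filter (fun j => e (2 * j) ∉ D0) :=
      Finset.mem_filter.2 ⟨Finset.mem_range.2 (by omega), h6⟩
    have heq := Finset.eq_of_subset_of_card_le hT (by rw [hTc]; omega)
    rw [← heq, Finset.mem_union, Finset.mem_Icc, Finset.mem_Icc] at h6'
    omega
  · -- the opposite orientation
    have hB2 : ∀ i, i ≤ r → e' i = e (r - i) := by
      intro i hi
      have h1 : e' i = e (2 * N' - i + r) := hBr i (by omega)
      rw [h1, show 2 * N' - i + r = r - i + 2 * N' by omega, hB.pe]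
    have hrb : 2 * k + 2 + (2 * k' + 2) ≤ r := by
      by_contra h
      have h1 := hB'.gap (r - (2 * k + 2)) (by omega) (by omega)
      rw [hB2 _ (by omega), show r - (r - (2 * k + 2)) = 2 * k + 2 by omega] at h1
      exact h1 hB.p0
    have hmem2 : ∀ j, 1 ≤ j → j ≤ k' →
        s - j ∈ (Finset.range N').filter (fun j => e (2 * j) ∉ D0) := by
      intro j hj1 hj2
      refine Finset.mem_filter.2 ⟨Finset.mem_range.2 (by omega), ?_⟩
      have h1 := hB'.gap (2 * j) (by omega) (by omega)
      rw [hB2 _ (by omega), show r - 2 * j = 2 * (s - j) by omega] at h1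
      exact h1
    have hT : (Finset.Icc 1 k ∪ Finset.Icc (s - k') (s - 1)) ⊆
        (Finset.range N').filter (fun j => e (2 * j) ∉ D0) := by
      intro j hj
      rcases Finset.mem_union.1 hj with h | h
      · rw [Finset.mem_Icc] at h
        exact hmem1 j h.1 h.2
      · rw [Finset.mem_Icc] at h
        have := hmem2 (s - j) (by omega) (by omega)
        rwa [show s - (s - j) = j by omega] at this
    have hTc : (Finset.Icc 1 k ∪ Finset.Icc (s - k') (s - 1)).card = k + k' := by
      rw [Finset.card_union_of_disjoint, Nat.card_Icc, Nat.card_Icc]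
      · omega
      · rw [Finset.disjoint_left]
        intro j hj1 hj2
        rw [Finset.mem_Icc] at hj1 hj2
        omega
    have hle := Finset.card_le_card hT
    rw [hTc] at hle
    have hk : k = 1 := by omega
    have hk' : k' = 1 := by omega
    have hN2 : N' = m + 2 := by omega
    refine ⟨hk, hN2, ?_⟩
    by_contra h6
    have h6' : 3 ∈ (Finset.range N').filter (fun j => e (2 * j) ∉ D0) :=
      Finset.mem_filter.2 ⟨Finset.mem_range.2 (by omega), h6⟩
    have heq := Finset.eq_of_subset_of_card_le hT (by rw [hTc]; omega)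
    rw [← heq, Finset.mem_union, Finset.mem_Icc, Finset.mem_Icc] at h6'
    have hs4 : s = 4 := by omega
    have h1 : e' 4 = e 4 := by
      rw [hB2 4 (by omega), show r - 4 = 4 by omega]
    rw [hk] at hek
    rw [hk'] at hek'
    rw [show 2 * 1 + 2 = 4 by norm_num] at hek hek'
    rw [hek, hek'] at h1
    have := hE.inje (2 * m - 3) 3 (by omega) (by omega) h1
    omega

end MGraph

end Pool.GOD
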