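import Pool.Agent.GOD.StmtS

/-!
The second circuit of a chain with at least three circuits alternates.
-/

set_option autoImplicit false
set_option linter.unusedSectionVars false

namespace Pool.GOD

namespace MGraph

namespace SMidE

variable {V E : Type*} [Fintype V] [DecidableEq V] [Fintype E] [DecidableEq E]
  {G : MGraph V E} {w : E → ℕ}

theorem mem_two {f : E} : f ∈ two w ↔ w f = 2 := by simp [two]

/-- at a vertex of `D` with exactly one edge of weight 2 in `D` -/
theorem alt_step {D : Finset E} {a : V} {f g : E} (hd : G.deg D a = 2)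
    (hd1 : G.deg (D ∩ two w) a = 1) (hf : f ∈ D) (hg : g ∈ D) (af : a ∈ G.ends f)
    (ag : a ∈ G.ends g) (hfg : f ≠ g) : w g = 2 ↔ ¬ w f = 2 := by
  unfold deg at hd1
  obtain ⟨k, hk⟩ := Finset.card_eq_one.1 hd1
  have hk1 : k ∈ (D ∩ two w).filter fun e => a ∈ G.ends e := by
    rw [hk]
    exact Finset.mem_singleton_self k
  rw [Finset.mem_filter, Finset.mem_inter, mem_two] at hk1
  have huniq : ∀ z ∈ D, a ∈ G.ends z → w z = 2 → z = k := by
    intro z hz az wz
    have : z ∈ (D ∩ two w).filter fun e => a ∈ G.ends e := by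
      rw [Finset.mem_filter, Finset.mem_inter, mem_two]
      exact ⟨⟨hz, wz⟩, az⟩
    rw [hk] at this
    exact Finset.mem_singleton.1 this
  constructor
  · intro wg wf
    exact hfg ((huniq f hf af wf).trans (huniq g hg ag wg).symm)
  · intro wf
    rcases eq_or_eq_of_deg_two hd hf hg hk1.1.1 af ag hk1.2 hfg with h | h
    · exact absurd (h ▸ hk1.1.2) wf
    · exact h ▸ hk1.1.2

/-- an enumeration of a circuit in which the weights 2 alternate -/
theorem card_of_alt {D : Finset E} {n : ℕ} {v : ℕ → V} {e : ℕ → E} (h : Enum G D n v e)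
    (ha : ∀ i, w (e i) = 2 ↔ Even i) : n = 2 * (D ∩ two w).card := by
  have hn : Even n := by
    rw [← ha n, ← Nat.zero_add n, h.pe 0, ha 0]
    exact Even.zero
  obtain ⟨m, hm⟩ := hn
  have h1 : D ∩ two w = (Finset.range m).image fun k => e (2 * k) := by
    ext f
    rw [Finset.mem_inter, mem_two, Finset.mem_image, h.mem f]
    constructor
    · rintro ⟨⟨i, hi, rfl⟩, hw⟩
      obtain ⟨k, hk⟩ := (ha i).1 hw
      refine ⟨k, Finset.mem_range.2 (by omega), ?_⟩
      show e (2 * k) = e i
      rw [hk, two_mul]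
    · rintro ⟨k, hk, rfl⟩
      rw [Finset.mem_range] at hk
      exact ⟨⟨2 * k, by omega, rfl⟩, (ha _).2 (even_two_mul k)⟩
  rw [h1, Finset.card_image_of_injOn, Finset.card_range]
  · omega
  · intro i hi j hj hij
    rw [Finset.mem_coe, Finset.mem_range] at hi hj
    have h2 := h.inje (2 * i) (2 * j) (by omega) (by omega) hij
    omega

end SMidE

theorem s_MidE : Stmt_S_MidE := by
  intro V E _ _ _ _ G w _ e0 x y t D hch ht n v e he h0
  have h1t : 1 < t := by omega
  have hc : G.IsCircuit (D 1) := hch.circ 1 h1t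
  have hstep : ∀ i, w (e (i + 1)) = 2 ↔ ¬ w (e i) = 2 := by
    intro i
    have m1 : v (i + 1) ∈ G.ends (e i) := by
      rw [he.ends i]
      exact Sym2.mem_mk_right _ _
    have m2 : v (i + 1) ∈ G.ends (e (i + 1)) := by
      rw [he.ends (i + 1)]
      exact Sym2.mem_mk_left _ _
    have hd : G.deg (D 1) (v (i + 1)) = 2 := hc.deg_eq_two (he.e_mem i) m1
    have hx : v (i + 1) ≠ x := by
      intro h
      rw [h] at hd
      exact absurd ((hch.first 1 h1t).1 hd) (by omega)
    have hy : v (i + 1) ≠ y := by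
      intro h
      rw [h] at hd
      exact absurd ((hch.last 1 h1t).1 hd) (by omega)
    have hne : e i ≠ e (i + 1) := by
      intro h
      have h2 := (he.e_eq_iff _ _).1 h
      have h3 := he.two
      have h4 : (i + 1) % n = (i % n + 1) % n := by rw [Nat.mod_add_mod]
      have h5 : i % n < n := Nat.mod_lt _ (by omega)
      rw [h4] at h2
      by_cases h6 : i % n + 1 = n
      · rw [h6, Nat.mod_self] at h2
        omega
      · rw [Nat.mod_eq_of_lt (by omega : i % n + 1 < n)] at h2
        omega
    exact SMidE.alt_step hd (hch.alt 1 h1t _ hx hy hd) (he.e_mem i) (he.e_mem (i + 1)) m1 m2 hne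
  have ha : ∀ i, w (e i) = 2 ↔ Even i := by
    intro i
    induction i with
    | zero => exact ⟨fun _ => Even.zero, fun _ => h0⟩
    | succ i ih => rw [hstep i, ih, Nat.even_add_one]
  exact ⟨SMidE.card_of_alt he ha, ha⟩

end MGraph

end Pool.GOD
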