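import Pool.Agent.GOD.StmtS

set_option autoImplicit false

namespace Pool.GOD

namespace MGraph

namespace SNewEnd

theorem succ_mod {L i : ℕ} (hL : 0 < L) (h : i % L + 1 < L) : (i + 1) % L = i % L + 1 := by
  rw [Nat.add_mod, Nat.mod_eq_of_lt (show 1 < L by omega)]
  exact Nat.mod_eq_of_lt h

theorem succ_mod' {L i : ℕ} (hL : 2 ≤ L) (h : i % L + 1 = L) : (i + 1) % L = 0 := by
  rw [Nat.add_mod, Nat.mod_eq_of_lt (show 1 < L by omega), h, Nat.mod_self]

end SNewEnd

open SNewEnd in
theorem s_NewEnd : Stmt_S_NewEnd := by
  intro V E _ _ _ _ G w D0 D1 N v e k f h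
  have hlt := h.lt
  obtain ⟨m, hm⟩ : ∃ m, m = N - k - 1 := ⟨_, rfl⟩
  have hm1 : 1 ≤ m := by omega
  have hN : 2 * k + 1 + (2 * m + 1) = 2 * N := by omega
  rw [← hm]
  have hv2N : v (2 * N) = v 0 := by
    have h1 := h.pv 0
    rwa [Nat.zero_add] at h1
  have hne : ∀ i, e i ≠ f := fun i hi => h.f1 (hi ▸ h.toEnum.e_mem i)
  refine ⟨fun i => if i % (2 * m + 1) = 0 then v 0 else v (2 * k + 1 + i % (2 * m + 1)),
    fun i => if i % (2 * m + 1) = 0 then f else e (2 * k + 1 + i % (2 * m + 1)), ?_, ?_, ?_, ?_⟩
  · refine { pos := by omega, pv := ?_, pe := ?_, ends := ?_, two := by omega, injv := ?_,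
             inje := ?_, mem := ?_, v0 := ?_, alt := ?_ }
    · intro i
      simp only [Nat.add_mod_right]
    · intro i
      simp only [Nat.add_mod_right]
    · intro i
      have hr : i % (2 * m + 1) < 2 * m + 1 := Nat.mod_lt _ (by omega)
      by_cases h0 : i % (2 * m + 1) = 0
      · have h1 : (i + 1) % (2 * m + 1) = 1 := by
          rw [succ_mod (by omega) (by omega), h0]
        simp only [h0, h1, if_true]
        rw [if_neg (by omega), h.ef]
      · by_cases h2 : i % (2 * m + 1) + 1 < 2 * m + 1
        · have h1 := succ_mod (by omega) h2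
          simp only [h0, h1, if_false]
          rw [if_neg (by omega), h.ends]
          rfl
        · have h3 : i % (2 * m + 1) = 2 * m := by omega
          have h1 : (i + 1) % (2 * m + 1) = 0 := succ_mod' (by omega) (by omega)
          simp only [h3, h1, if_true]
          rw [if_neg (by omega), if_neg (by omega), h.ends]
          rw [show 2 * k + 1 + 2 * m + 1 = 2 * N by omega, hv2N]
    · intro i j hi hj hij
      simp only [Nat.mod_eq_of_lt hi, Nat.mod_eq_of_lt hj] at hij
      by_cases hi0 : i = 0
      · by_cases hj0 : j = 0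
        · omega
        · rw [if_pos hi0, if_neg hj0] at hij
          have := h.injv 0 (2 * k + 1 + j) (by omega) (by omega) hij
          omega
      · by_cases hj0 : j = 0
        · rw [if_neg hi0, if_pos hj0] at hij
          have := h.injv (2 * k + 1 + i) 0 (by omega) (by omega) hij
          omega
        · rw [if_neg hi0, if_neg hj0] at hij
          have := h.injv (2 * k + 1 + i) (2 * k + 1 + j) (by omega) (by omega) hij
          omega
    · intro i j hi hj hij
      simp only [Nat.mod_eq_of_lt hi, Nat.mod_eq_of_lt hj] at hij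
      by_cases hi0 : i = 0
      · by_cases hj0 : j = 0
        · omega
        · rw [if_pos hi0, if_neg hj0] at hij
          exact absurd hij.symm (hne _)
      · by_cases hj0 : j = 0
        · rw [if_neg hi0, if_pos hj0] at hij
          exact absurd hij (hne _)
        · rw [if_neg hi0, if_neg hj0] at hij
          have := h.inje (2 * k + 1 + i) (2 * k + 1 + j) (by omega) (by omega) hij
          omega
    · intro g
      rw [newEnd, Finset.mem_insert, Finset.mem_image]
      constructor
      · rintro (rfl | ⟨a, ha, rfl⟩)
        · refine ⟨0, by omega, ?_⟩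
          simp only [Nat.zero_mod, if_true]
        · rw [Finset.mem_Ico] at ha
          refine ⟨a - (2 * k + 1), by omega, ?_⟩
          have h1 : (a - (2 * k + 1)) % (2 * m + 1) = a - (2 * k + 1) :=
            Nat.mod_eq_of_lt (by omega)
          simp only [h1]
          rw [if_neg (by omega), show 2 * k + 1 + (a - (2 * k + 1)) = a by omega]
      · rintro ⟨i, hi, rfl⟩
        simp only [Nat.mod_eq_of_lt hi]
        by_cases hi0 : i = 0
        · left
          rw [if_pos hi0]
        · right
          rw [if_neg hi0]
          exact ⟨2 * k + 1 + i, by rw [Finset.mem_Ico]; omega, rfl⟩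
    · simp only [Nat.zero_mod, if_true]
    · intro i hi
      simp only [Nat.mod_eq_of_lt hi]
      by_cases hi0 : i = 0
      · rw [if_pos hi0, h.wf, hi0]
        constructor
        · intro h1
          omega
        · rintro ⟨a, ha⟩
          omega
      · rw [if_neg hi0, h.alt]
        constructor
        · rintro ⟨a, ha⟩
          exact ⟨a - k - 1, by omega⟩
        · rintro ⟨a, ha⟩
          exact ⟨k + 1 + a, by omega⟩
  · simp only [Nat.zero_mod, if_true]
  · intro i h1 h2
    have h3 : i % (2 * m + 1) = i := Nat.mod_eq_of_lt (by omega)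
    simp only [h3]
    rw [if_neg (by omega)]
  · intro i h1 h2
    by_cases h4 : i = 2 * m + 1
    · subst h4
      simp only [Nat.mod_self, if_true]
      rw [hN, hv2N]
    · have h3 : i % (2 * m + 1) = i := Nat.mod_eq_of_lt (by omega)
      simp only [h3]
      rw [if_neg (by omega)]

end MGraph

end Pool.GOD
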