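import Pool.Agent.GOD.StmtS

/-!
MP_7b7176_co, strong version: the other new circuit of a bond.
-/

set_option autoImplicit false
set_option linter.unusedSectionVars false

namespace Pool.GOD

namespace MGraph

namespace SNewOther

variable {V E : Type*} {G : MGraph V E} {D : Finset E} {n : ℕ} {v : ℕ → V} {e : ℕ → E}

/-- an enumeration which starts with a given directed edge -/
theorem start (h : Enum G D n v e) {f : E} {a b : V} (hf : f ∈ D) (hab : G.ends f = s(a, b)) :
    ∃ v' e', Enum G D n v' e' ∧ e' 0 = f ∧ v' 0 = a ∧ v' 1 = b := by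
  obtain ⟨r, hr, hrf⟩ := (h.mem f).1 hf
  have h1 := h.rot r
  have h2 : G.ends f = s(v (0 + r), v (1 + r)) := by
    rw [← hrf, h.ends r, Nat.zero_add, Nat.add_comm 1 r]
  have hn := h.two
  rw [hab] at h2
  rcases Sym2.eq_iff.1 h2 with ⟨h3, h4⟩ | ⟨h3, h4⟩
  · exact ⟨_, _, h1, by simpa using hrf, h3.symm, h4.symm⟩
  · have h5 := h1.rev.rot (n - 1)
    refine ⟨_, _, h5, ?_, ?_, ?_⟩
    · show e (n - 1 - (0 + (n - 1)) % n + r) = f
      rw [Nat.zero_add, Nat.mod_eq_of_lt (show n - 1 < n by omega), Nat.sub_self, Nat.zero_add,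
        hrf]
    · show v (n - (0 + (n - 1)) % n + r) = a
      rw [Nat.zero_add, Nat.mod_eq_of_lt (show n - 1 < n by omega),
        show n - (n - 1) = 1 by omega, h3]
    · show v (n - (1 + (n - 1)) % n + r) = b
      rw [show 1 + (n - 1) = n by omega, Nat.mod_self, Nat.sub_zero, Nat.add_comm n r, h.pv,
        ← Nat.zero_add r, h4]

/-- two sequences one after the other, the second one backwards -/
def join {A : Type*} (L p q : ℕ) (g1 g2 : ℕ → A) (i : ℕ) : A :=
  if i % L < p then g1 (i % L + 2) else g2 (q - (i % L - p))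

theorem join_lt {A : Type*} (L p q : ℕ) (g1 g2 : ℕ → A) {i : ℕ} (hi : i < L) (hp : i < p) :
    join L p q g1 g2 i = g1 (i + 2) := by
  unfold join
  rw [Nat.mod_eq_of_lt hi, if_pos hp]

theorem join_ge {A : Type*} (L p q : ℕ) (g1 g2 : ℕ → A) {i : ℕ} (hi : i < L) (hp : p ≤ i) :
    join L p q g1 g2 i = g2 (q - (i - p)) := by
  unfold join
  rw [Nat.mod_eq_of_lt hi, if_neg (by omega)]

theorem join_mod {A : Type*} (L p q : ℕ) (g1 g2 : ℕ → A) (i : ℕ) :
    join L p q g1 g2 i = join L p q g1 g2 (i % L) := by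
  unfold join
  rw [Nat.mod_mod]

/-- the closed walk -/
theorem walk {n0 N k : ℕ} {V0 : ℕ → V} {E0 : ℕ → E} {v : ℕ → V} {e : ℕ → E}
    (h0 : CWalk G n0 V0 E0) (h1 : CWalk G N v e) (hn : 3 ≤ n0) (hc : V0 0 = v (2 * k + 2))
    (h2 : V0 2 = v 1) :
    CWalk G (n0 - 2 + (2 * k + 1)) (join (n0 - 2 + (2 * k + 1)) (n0 - 2) (2 * k + 2) V0 v)
      (join (n0 - 2 + (2 * k + 1)) (n0 - 2) (2 * k + 1) E0 e) where
  pos := by omega
  pv i := by rw [join_mod, Nat.add_mod_right, ← join_mod]
  pe i := by rw [join_mod, Nat.add_mod_right, ← join_mod]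
  ends i := by
    obtain ⟨L, hL⟩ : ∃ L, L = n0 - 2 + (2 * k + 1) := ⟨_, rfl⟩
    rw [← hL]
    have hLpos : 0 < L := by omega
    have hm : i % L < L := Nat.mod_lt _ hLpos
    have hV0 : V0 n0 = V0 0 := by
      have := h0.pv 0
      rwa [Nat.zero_add] at this
    rw [join_mod L _ _ E0 e i, join_mod L _ _ V0 v i, join_mod L _ _ V0 v (i + 1)]
    obtain ⟨j, hj⟩ : ∃ j, j = i % L := ⟨_, rfl⟩
    by_cases hl : j + 1 = L
    · have h3 : (i + 1) % L = 0 := by
        rw [Nat.add_mod, ← hj]
        by_cases h1' : L = 1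
        · rw [h1', Nat.mod_one]
        · rw [Nat.mod_eq_of_lt (show 1 < L by omega), hl, Nat.mod_self]
      rw [← hj, h3, join_ge L _ _ E0 e (by omega : j < L) (by omega),
        join_ge L _ _ V0 v (by omega : j < L) (by omega),
        join_lt L _ _ V0 v hLpos (by omega), h1.ends,
        show 2 * k + 1 - (j - (n0 - 2)) = 1 by omega,
        show 2 * k + 2 - (j - (n0 - 2)) = 2 by omega, h2, Sym2.eq_swap]
    · have h3 : (i + 1) % L = j + 1 := by
        rw [Nat.add_mod, ← hj, Nat.mod_eq_of_lt (show 1 < L by omega)]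
        exact Nat.mod_eq_of_lt (by omega)
      rw [← hj, h3]
      by_cases h4 : j + 1 < n0 - 2
      · rw [join_lt L _ _ E0 e (by omega : j < L) (by omega),
          join_lt L _ _ V0 v (by omega : j < L) (by omega),
          join_lt L _ _ V0 v (by omega : j + 1 < L) (by omega), h0.ends]
      · by_cases h5 : j + 1 = n0 - 2
        · rw [join_lt L _ _ E0 e (by omega : j < L) (by omega),
            join_lt L _ _ V0 v (by omega : j < L) (by omega),
            join_ge L _ _ V0 v (by omega : j + 1 < L) (by omega), h0.ends,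
            show 2 * k + 2 - (j + 1 - (n0 - 2)) = 2 * k + 2 by omega, ← hc, ← hV0,
            show j + 2 + 1 = n0 by omega]
        · rw [join_ge L _ _ E0 e (by omega : j < L) (by omega),
            join_ge L _ _ V0 v (by omega : j < L) (by omega),
            join_ge L _ _ V0 v (by omega : j + 1 < L) (by omega), h1.ends,
            show 2 * k + 1 - (j - (n0 - 2)) + 1 = 2 * k + 2 - (j - (n0 - 2)) by omega,
            show 2 * k + 2 - (j + 1 - (n0 - 2)) = 2 * k + 1 - (j - (n0 - 2)) by omega,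
            Sym2.eq_swap]

end SNewOther

theorem s_NewOther : Stmt_S_NewOther := by
  intro V E _ _ _ _ G w D0 D1 N v e k f hdeg hD0 hB
  obtain ⟨n0, v00, e00, hE00⟩ := hD0.exists_enum
  obtain ⟨V0, E0, hE, hE0, hV0, hV1⟩ := SNewOther.start hE00 hB.f0
    (by rw [hB.ef, Sym2.eq_swap] : G.ends f = s(v (2 * k + 2), v 0))
  have hlt := hB.lt
  have hn2 := hE.two
  have hef : e 0 ≠ f := by
    intro h
    apply hB.f1
    rw [← h]
    exact hB.toEnum.e_mem 0
  have hV0n : V0 n0 = V0 0 := by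
    have := hE.pv 0
    rwa [Nat.zero_add] at this
  -- the second edge
  have hE1 : e 0 = E0 1 := by
    have a0 : v 0 ∈ G.ends f := by rw [hB.ef]; exact Sym2.mem_mk_left _ _
    have a1 : v 0 ∈ G.ends (E0 1) := by rw [hE.ends, hV1]; exact Sym2.mem_mk_left _ _
    have a2 : v 0 ∈ G.ends (e 0) := by rw [hB.ends]; exact Sym2.mem_mk_left _ _
    have hne : f ≠ E0 1 := by
      intro h
      rw [← hE0] at h
      have := hE.inje 0 1 (by omega) (by omega) h
      omega
    rcases eq_or_eq_of_deg_two (hD0.deg_eq_two hB.f0 a0) hB.f0 (hE.e_mem 1) hB.q0 a0 a1 a2 hne with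
      h | h
    · exact absurd h hef
    · exact h
  have hV2 : V0 2 = v 1 := by
    have h1 := hE.ends 1
    rw [← hE1, hB.ends, hV1] at h1
    rcases Sym2.eq_iff.1 h1 with ⟨-, h2⟩ | ⟨h2, h3⟩
    · exact h2.symm
    · exact h2.symm.trans h3.symm
  have hcq : V0 0 ≠ V0 2 := by
    rw [hV0, hV2]
    intro h
    have := hB.injv _ _ (by omega) (by omega) h
    omega
  have hn3 : 3 ≤ n0 := by
    by_contra h
    have h1 : n0 = 2 := by omega
    apply hcq
    rw [← h1, hV0n]
  have hW := SNewOther.walk hE.toCWalk hB.toEnum.toCWalk hn3 hV0 hV2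
  obtain ⟨L, hL⟩ : ∃ L, L = n0 - 2 + (2 * k + 1) := ⟨_, rfl⟩
  rw [← hL] at hW
  obtain ⟨F, hF⟩ : ∃ F, F = SNewOther.join L (n0 - 2) (2 * k + 1) E0 e := ⟨_, rfl⟩
  rw [← hF] at hW
  have hF1 : ∀ i, i < n0 - 2 → F i = E0 (i + 2) := by
    intro i hi
    rw [hF, SNewOther.join_lt L _ _ E0 e (by omega : i < L) hi]
  have hF2 : ∀ i, n0 - 2 ≤ i → i < L → F i = e (2 * k + 1 - (i - (n0 - 2))) := by
    intro i hi hi'
    rw [hF, SNewOther.join_ge L _ _ E0 e hi' hi]
  have hinj : ∀ i j, i < L → j < L → F i = F j → i = j := by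
    have key : ∀ i j, i < n0 - 2 → n0 - 2 ≤ j → j < L → F i = F j → False := by
      intro i j hi hj hj' h
      rw [hF1 i hi, hF2 j hj hj'] at h
      apply hB.gap (2 * k + 1 - (j - (n0 - 2))) (by omega) (by omega)
      rw [← h]
      exact hE.e_mem _
    intro i j hi hj h
    by_cases h1 : i < n0 - 2
    · by_cases h2 : j < n0 - 2
      · rw [hF1 i h1, hF1 j h2] at h
        have := hE.inje _ _ (by omega) (by omega) h
        omega
      · exact absurd (key i j h1 (by omega) hj h) id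
    · by_cases h2 : j < n0 - 2
      · exact absurd (key j i h2 (by omega) hi h.symm) id
      · rw [hF2 i (by omega) hi, hF2 j (by omega) hj] at h
        have := hB.inje _ _ (by omega) (by omega) h
        omega
  have hT : ∀ g, g ∈ newOther D0 k e f ↔ ∃ i, i < L ∧ F i = g := by
    intro g
    unfold newOther
    rw [Finset.mem_union, Finset.mem_erase, Finset.mem_erase, Finset.mem_image]
    constructor
    · rintro (⟨h1, h2, h3⟩ | ⟨m, hm, rfl⟩)
      · obtain ⟨i, hi, rfl⟩ := (hE.mem g).1 h3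
        have hi0 : i ≠ 0 := by
          rintro rfl
          exact h1 hE0
        have hi1 : i ≠ 1 := by
          rintro rfl
          exact h2 hE1.symm
        refine ⟨i - 2, by omega, ?_⟩
        rw [hF1 (i - 2) (by omega), show i - 2 + 2 = i by omega]
      · rw [Finset.mem_Ioo] at hm
        refine ⟨n0 - 2 + (2 * k + 1 - m), by omega, ?_⟩
        rw [hF2 _ (by omega) (by omega),
          show 2 * k + 1 - (n0 - 2 + (2 * k + 1 - m) - (n0 - 2)) = m by omega]
    · rintro ⟨i, hi, rfl⟩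
      by_cases h1 : i < n0 - 2
      · left
        rw [hF1 i h1]
        refine ⟨?_, ?_, hE.e_mem _⟩
        · intro h
          rw [← hE0] at h
          have := hE.inje _ _ (by omega) (by omega) h
          omega
        · intro h
          rw [hE1] at h
          have := hE.inje _ _ (by omega) (by omega) h
          omega
      · right
        rw [hF2 i (by omega) hi]
        exact ⟨_, Finset.mem_Ioo.2 ⟨by omega, by omega⟩, rfl⟩
  have hC : G.IsCircuit (newOther D0 k e f) := hW.isCircuit hinj hT (fun a => hdeg _ a)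
  refine ⟨hC, ?_⟩
  intro z hz hzv
  have h1 : 0 < G.deg D0 z := by omega
  obtain ⟨g, hg, hzg⟩ := G.deg_pos_iff.1 h1
  obtain ⟨i, hi, rfl⟩ := (hE.mem g).1 hg
  have h2 : ∃ j, j < n0 ∧ z = V0 j := by
    rw [hE.ends, Sym2.mem_iff] at hzg
    rcases hzg with h | h
    · exact ⟨i, hi, h⟩
    · by_cases h3 : i + 1 = n0
      · refine ⟨0, by omega, ?_⟩
        rw [h, h3, hV0n]
      · exact ⟨i + 1, by omega, h⟩
  obtain ⟨j, hj, rfl⟩ := h2
  have hj1 : j ≠ 1 := by
    rintro rfl
    exact hzv hV1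
  by_cases hj0 : j = 0
  · subst hj0
    have h3 : e (2 * k + 1) ∈ newOther D0 k e f := by
      unfold newOther
      refine Finset.mem_union_right _ (Finset.mem_image.2 ⟨2 * k + 1, ?_, rfl⟩)
      exact Finset.mem_Ioo.2 ⟨by omega, by omega⟩
    refine hC.deg_eq_two h3 ?_
    rw [hB.ends, hV0]
    exact Sym2.mem_mk_right _ _
  · have h3 : E0 j ∈ newOther D0 k e f := by
      rw [hT]
      refine ⟨j - 2, by omega, ?_⟩
      rw [hF1 (j - 2) (by omega), show j - 2 + 2 = j by omega]
    refine hC.deg_eq_two h3 ?_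
    rw [hE.ends]
    exact Sym2.mem_mk_left _ _

end MGraph

end Pool.GOD
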