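import Pool.Agent.GOD.StmtS

/-!
# Consecutive elements on a circuit
-/

set_option autoImplicit false

namespace Pool.GOD

namespace MGraph

namespace SNext

/-- positions on a cycle -/
theorem cyc_pos {n i j d l k : ℕ} (hj : j < n)
    (hd : (i < j ∧ d = j - i) ∨ (j < i ∧ d = j + n - i)) (h0 : 0 < l) (hl : l < d) (hk : k < n)
    (hc : k = i + l ∨ k + n = i + l) :
    k ≠ i ∧ k ≠ j ∧ ¬ ((i < j ∧ j < k) ∨ (j < k ∧ k < i) ∨ (k < i ∧ i < j)) := by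
  omega

end SNext

open SNext in
theorem s_Next : Stmt_S_Next := by
  intro V E _ _ _ _ G D0 D1 n1 v1 e1 h a b hN
  have ha : a.1 ∈ D1 := (Finset.mem_inter.1 a.2).2
  have hb : b.1 ∈ D1 := (Finset.mem_inter.1 b.2).2
  have hi := h.idx_lt ha
  have hj := h.idx_lt hb
  have hij : idx e1 a.1 ≠ idx e1 b.1 := fun e => hN.1 (Subtype.ext (h.idx_inj ha hb e))
  obtain ⟨d, hd⟩ : ∃ d, (idx e1 a.1 < idx e1 b.1 ∧ d = idx e1 b.1 - idx e1 a.1) ∨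
      (idx e1 b.1 < idx e1 a.1 ∧ d = idx e1 b.1 + n1 - idx e1 a.1) := by
    rcases lt_or_gt_of_ne hij with h1 | h1
    · exact ⟨_, Or.inl ⟨h1, rfl⟩⟩
    · exact ⟨_, Or.inr ⟨h1, rfl⟩⟩
  have hbe : e1 (idx e1 a.1 + d) = b.1 := by
    rcases hd with ⟨h1, h2⟩ | ⟨h1, h2⟩
    · rw [show idx e1 a.1 + d = idx e1 b.1 by omega, h.e_idx hb]
    · rw [show idx e1 a.1 + d = idx e1 b.1 + n1 by omega, h.pe, h.e_idx hb]
  refine ⟨d, by omega, by omega, hbe, fun l h0 hl hc => ?_⟩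
  have hcD : e1 (idx e1 a.1 + l) ∈ D1 := h.e_mem _
  obtain ⟨k, hk, hke, hkl⟩ : ∃ k, k < n1 ∧ e1 k = e1 (idx e1 a.1 + l) ∧
      (k = idx e1 a.1 + l ∨ k + n1 = idx e1 a.1 + l) := by
    by_cases h1 : idx e1 a.1 + l < n1
    · exact ⟨_, h1, rfl, Or.inl rfl⟩
    · refine ⟨idx e1 a.1 + l - n1, by omega, ?_, Or.inr (by omega)⟩
      rw [← h.pe, show idx e1 a.1 + l - n1 + n1 = idx e1 a.1 + l by omega]
  have hki : idx e1 (e1 (idx e1 a.1 + l)) = k := by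
    rw [← hke]
    exact h.idx_e hk
  obtain ⟨p1, p2, p3⟩ := cyc_pos hj hd h0 hl hk hkl
  have hcy := hN.2 ⟨e1 (idx e1 a.1 + l), Finset.mem_inter.2 ⟨hc, hcD⟩⟩ (Finset.mem_univ _)
    (fun e => p1 (by rw [← hki]; exact congrArg (fun s : ↥(D0 ∩ D1) => idx e1 s.1) e))
    (fun e => p2 (by rw [← hki]; exact congrArg (fun s : ↥(D0 ∩ D1) => idx e1 s.1) e))
  unfold Cyc at hcy
  simp only [hki] at hcy
  exact p3 hcy

end MGraph

end Pool.GOD
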