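import Pool.Agent.GOD.StmtS

/-!
Module `Stmt_S_Odd` of the strong version of Q1 of MP_7b7176_co: for every edge of weight 2 there is
a chain with at least 3 circuits.
-/

set_option autoImplicit false
set_option linter.unusedSectionVars false

namespace Pool.GOD

namespace MGraph

namespace SOdd

variable {V E : Type} [Fintype V] [DecidableEq V] [Fintype E] [DecidableEq E] {G : MGraph V E}
  {w : E → ℕ} {n : ℕ} {a b : ZMod n → V} {p q m : ZMod n → E} {π : Equiv.Perm (ZMod n)}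

lemma add_one_ne (hn : 5 ≤ n) (i : ZMod n) : i + 1 ≠ i := by
  have : Fact (1 < n) := ⟨by omega⟩
  intro h
  have : (1 : ZMod n) = 0 := by
    have := congrArg (fun z => z - i) h
    simpa using this
  exact one_ne_zero this

lemma natVal (hn : 5 ≤ n) (i0 c : ZMod n) : c = i0 + ((c - i0).val : ZMod n) := by
  have : NeZero n := ⟨by omega⟩
  rw [ZMod.natCast_zmod_val]
  ring

lemma val_lt (hn : 5 ≤ n) (c : ZMod n) : c.val < n := by
  have : NeZero n := ⟨by omega⟩
  exact ZMod.val_lt _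

/-- `val` of the predecessor of a nonzero element -/
lemma val_pred (hn : 5 ≤ n) {c : ZMod n} (hc : c ≠ 0) : (c - 1).val + 1 = c.val := by
  have : NeZero n := ⟨by omega⟩
  have h1 : c.val ≠ 0 := fun h => hc ((ZMod.val_eq_zero c).1 h)
  have h2 := ZMod.val_lt c
  have h3 : c - 1 = ((c.val - 1 : ℕ) : ZMod n) := by
    rw [Nat.cast_sub (by omega), ZMod.natCast_zmod_val, Nat.cast_one]
  rw [h3, ZMod.val_natCast, Nat.mod_eq_of_lt (by omega)]
  omega

lemma val_neg_one (hn : 5 ≤ n) : (0 - 1 : ZMod n).val = n - 1 := by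
  obtain ⟨k, rfl⟩ : ∃ k, n = k + 1 := ⟨n - 1, by omega⟩
  rw [zero_sub, ZMod.val_neg_one]
  omega

lemma q_inj (hP : G.PermData w n a b p q m π) : Function.Injective q :=
  Cyc4X.p_inj (Cyc4X.swap hP)

/-- An edge of weight 2 is an `m`-edge. -/
lemma eq_m (hP : G.PermData w n a b p q m π) {e : E} (h : w e = 2) : ∃ i, e = m i := by
  rcases hP.surjE e with ⟨i, rfl⟩ | ⟨i, rfl⟩ | h'
  · rw [hP.wp] at h; omega
  · rw [hP.wq] at h; omega
  · exact h'

open Classical in
/-- The edges `≠ e = m i0` of weight 2 and every second edge of weight 1 on both circuits,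
starting from the ends of `e` (parity `s`). -/
noncomputable def cls (p q m : ZMod n → E) (i0 j0 : ZMod n) (s : ℕ) : Finset E :=
  Finset.univ.filter (fun f => f ≠ m i0 ∧ ((∃ i, f = m i) ∨
    (∃ c, f = p c ∧ (c - i0).val % 2 = s) ∨ ∃ c, f = q c ∧ (c - j0).val % 2 = s))

lemma mem_cls {i0 j0 : ZMod n} {s : ℕ} {f : E} : f ∈ cls p q m i0 j0 s ↔
    f ≠ m i0 ∧ ((∃ i, f = m i) ∨
    (∃ c, f = p c ∧ (c - i0).val % 2 = s) ∨ ∃ c, f = q c ∧ (c - j0).val % 2 = s) := by
  simp [cls]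

lemma m_mem (hP : G.PermData w n a b p q m π) {i0 j0 : ZMod n} {s : ℕ} {i : ZMod n} :
    m i ∈ cls p q m i0 j0 s ↔ i ≠ i0 := by
  rw [mem_cls]
  constructor
  · rintro ⟨h, -⟩ rfl
    exact h rfl
  · intro h
    exact ⟨fun h' => h (Cyc4X.m_inj hP h'), Or.inl ⟨i, rfl⟩⟩

lemma p_mem (hP : G.PermData w n a b p q m π) {i0 j0 : ZMod n} {s : ℕ} {c : ZMod n} :
    p c ∈ cls p q m i0 j0 s ↔ (c - i0).val % 2 = s := by
  rw [mem_cls]
  constructor
  · rintro ⟨h, ⟨i, h1⟩ | ⟨c', h1, h2⟩ | ⟨c', h1, h2⟩⟩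
    · exact absurd h1.symm (Cyc4X.m_ne_p hP i c)
    · rwa [Cyc4X.p_inj hP h1]
    · exact absurd h1 (Cyc4X.p_ne_q hP c c')
  · intro h
    exact ⟨fun h' => Cyc4X.m_ne_p hP i0 c h'.symm, Or.inr (Or.inl ⟨c, rfl, h⟩)⟩

lemma q_mem (hP : G.PermData w n a b p q m π) {i0 j0 : ZMod n} {s : ℕ} {c : ZMod n} :
    q c ∈ cls p q m i0 j0 s ↔ (c - j0).val % 2 = s := by
  have hmq : ∀ i, q c ≠ m i := by
    intro i h
    have h1 := hP.wq c
    rw [h, hP.wm] at h1
    omega
  rw [mem_cls]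
  constructor
  · rintro ⟨h, ⟨i, h1⟩ | ⟨c', h1, h2⟩ | ⟨c', h1, h2⟩⟩
    · exact absurd h1 (hmq i)
    · exact absurd h1.symm (Cyc4X.p_ne_q hP c' c)
    · rwa [q_inj hP h1]
  · intro h
    exact ⟨hmq i0, Or.inr (Or.inr ⟨c, rfl, h⟩)⟩

/-- The edges at `a c`. -/
lemma star_a (hP : G.PermData w n a b p q m π) (c : ZMod n) (f : E) :
    a c ∈ G.ends f ↔ f = p c ∨ f = p (c - 1) ∨ f = m c := by
  constructor
  · intro h
    rcases hP.surjE f with ⟨j, rfl⟩ | ⟨j, rfl⟩ | ⟨j, rfl⟩
    · rw [hP.endp j, Sym2.mem_iff] at h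
      rcases h with h | h
      · left; rw [hP.inja h]
      · right; left; rw [hP.inja h, add_sub_cancel_right]
    · rw [hP.endq j, Sym2.mem_iff] at h
      rcases h with h | h
      · exact absurd h (hP.disj _ _)
      · exact absurd h (hP.disj _ _)
    · rw [hP.endm j, Sym2.mem_iff] at h
      rcases h with h | h
      · right; right; rw [hP.inja h]
      · exact absurd h (hP.disj _ _)
  · rintro (rfl | rfl | rfl)
    · rw [hP.endp]; exact Sym2.mem_mk_left _ _
    · rw [hP.endp, sub_add_cancel]; exact Sym2.mem_mk_right _ _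
    · rw [hP.endm]; exact Sym2.mem_mk_left _ _

/-- The degree of a set of edges at `a c`. -/
lemma deg_a (hP : G.PermData w n a b p q m π) (c : ZMod n) (X : Finset E) :
    G.deg X (a c) = (if p c ∈ X then 1 else 0) + (if p (c - 1) ∈ X then 1 else 0) +
      (if m c ∈ X then 1 else 0) := by
  have hn := hP.five
  have h1 : p c ≠ p (c - 1) := by
    intro h
    have h2 := Cyc4X.p_inj hP h
    refine add_one_ne hn (c - 1) ?_
    rw [sub_add_cancel]
    exact h2
  have h2 : m c ≠ p c := Cyc4X.m_ne_p hP _ _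
  have h3 : m c ≠ p (c - 1) := Cyc4X.m_ne_p hP _ _
  have h4 : X.filter (fun f => a c ∈ G.ends f) =
      (({p c, p (c - 1), m c} : Finset E).filter (· ∈ X)) := by
    ext f
    simp only [Finset.mem_filter, Finset.mem_insert, Finset.mem_singleton]
    rw [star_a hP c f]
    tauto
  rw [deg, h4, Finset.card_filter, Finset.sum_insert, Finset.sum_insert, Finset.sum_singleton,
    add_assoc]
  · rw [Finset.mem_singleton]
    exact h3.symm
  · rw [Finset.mem_insert, Finset.mem_singleton]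
    rintro (h | h)
    · exact h1 h
    · exact h2 h.symm

lemma even_a (hP : G.PermData w n a b p q m π) (i0 j0 : ZMod n) (s : ℕ) (hs : s < 2)
    (c : ZMod n) : Even (G.deg (cls p q m i0 j0 s) (a c)) := by
  have hn := hP.five
  have hodd := hP.odd
  rw [deg_a hP]
  have e1 : c - 1 - i0 = (c - i0) - 1 := by ring
  by_cases hc : c = i0
  · subst hc
    rw [if_neg (c := m c ∈ _) (by rw [m_mem hP]; simp)]
    by_cases h0 : s = 0
    · subst h0
      rw [if_pos (c := p c ∈ _), if_pos (c := p (c - 1) ∈ _)]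
      · decide
      · rw [p_mem hP, e1, sub_self, val_neg_one hn]
        obtain ⟨k, hk⟩ := hodd
        omega
      · rw [p_mem hP, sub_self]
        have : NeZero n := ⟨by omega⟩
        simp
    · rw [if_neg (c := p c ∈ _), if_neg (c := p (c - 1) ∈ _)]
      · decide
      · rw [p_mem hP, e1, sub_self, val_neg_one hn]
        obtain ⟨k, hk⟩ := hodd
        omega
      · rw [p_mem hP, sub_self]
        have : NeZero n := ⟨by omega⟩
        have h5 : (0 : ZMod n).val = 0 := ZMod.val_zero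
        omega
  · rw [if_pos (c := m c ∈ _) (by rw [m_mem hP]; exact hc)]
    have h5 : (c - i0 - 1).val + 1 = (c - i0).val := val_pred hn (sub_ne_zero.2 hc)
    by_cases h6 : (c - i0).val % 2 = s
    · rw [if_pos (c := p c ∈ _) (by rw [p_mem hP]; exact h6),
        if_neg (c := p (c - 1) ∈ _) (by rw [p_mem hP, e1]; omega)]
      decide
    · rw [if_neg (c := p c ∈ _) (by rw [p_mem hP]; exact h6),
        if_pos (c := p (c - 1) ∈ _) (by rw [p_mem hP, e1]; omega)]
      decide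

lemma cls_swap (i0 : ZMod n) (s : ℕ) :
    cls p q m i0 (π i0) s = cls q p (fun i => m (π.symm i)) (π i0) (π.symm (π i0)) s := by
  ext f
  rw [mem_cls, mem_cls, Equiv.symm_apply_apply]
  have h1 : (∃ i, f = m i) ↔ ∃ i, f = m (π.symm i) := by
    constructor
    · rintro ⟨i, rfl⟩
      exact ⟨π i, by rw [Equiv.symm_apply_apply]⟩
    · rintro ⟨i, rfl⟩
      exact ⟨_, rfl⟩
  rw [← h1, or_comm (a := ∃ c, f = p c ∧ (c - i0).val % 2 = s)]

lemma isEven_cls (hP : G.PermData w n a b p q m π) (i0 : ZMod n) (s : ℕ) (hs : s < 2) :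
    G.IsEven (cls p q m i0 (π i0) s) := by
  intro v
  rcases hP.surj v with ⟨c, rfl⟩ | ⟨c, rfl⟩
  · exact even_a hP i0 (π i0) s hs c
  · rw [cls_swap i0 s]
    exact even_a (Cyc4X.swap hP) (π i0) (π.symm (π i0)) s hs c

lemma chi_add (hP : G.PermData w n a b p q m π) (i0 j0 : ZMod n) (f : E) (hf : f ≠ m i0) :
    chi (cls p q m i0 j0 0) f + chi (cls p q m i0 j0 1) f = w f := by
  unfold chi
  rcases hP.surjE f with ⟨c, rfl⟩ | ⟨c, rfl⟩ | ⟨c, rfl⟩
  · simp only [p_mem hP, hP.wp]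
    rcases Nat.mod_two_eq_zero_or_one (c - i0).val with h | h <;> simp [h]
  · simp only [q_mem hP, hP.wq]
    rcases Nat.mod_two_eq_zero_or_one (c - j0).val with h | h <;> simp [h]
  · simp only [m_mem hP, hP.wm]
    have : c ≠ i0 := fun h => hf (by rw [h])
    simp [this]

/-- At a vertex different from the roots, a circuit of the chain which is there contains an edge
which has not weight 2. -/
lemma exists_one {e : E} {x y : V} {t : ℕ} {D : ℕ → Finset E} (hc : G.IsChain w e x y t D)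
    {k : ℕ} (hk : k < t) {g : E} (hg : g ∈ D k) {z : V} (hz : z ∈ G.ends g) (hx : z ≠ x)
    (hy : z ≠ y) : ∃ f ∈ D k, z ∈ G.ends f ∧ w f ≠ 2 := by
  have hpos : 0 < G.deg (D k) z := (deg_pos_iff G).2 ⟨g, hg, hz⟩
  have h2 : G.deg (D k) z = 2 := by
    rcases (hc.circ k hk).2.1 z with h | h
    · omega
    · exact h
  have h1 := hc.alt k hk z hx hy h2
  by_contra hcon
  push Not at hcon
  have : G.deg (D k ∩ two w) z = G.deg (D k) z := by
    unfold deg
    congr 1
    ext f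
    simp only [Finset.mem_filter, Finset.mem_inter]
    constructor
    · rintro ⟨⟨h, _⟩, h'⟩
      exact ⟨h, h'⟩
    · rintro ⟨h, h'⟩
      refine ⟨⟨h, ?_⟩, h'⟩
      have := hcon f h h'
      simp [two, this]
  omega

/-- The chain for `m i0`, starting at `a i0`. -/
theorem core (h0 : Stmt_S_Delta0) (hm : G.MinContra w) (hP : G.PermData w n a b p q m π)
    (i0 : ZMod n) : ∃ t D, 3 ≤ t ∧ G.IsChain w (m i0) (a i0) (b (π i0)) t D := by
  have hn := hP.five
  obtain ⟨L0, hL0, hc0⟩ := a_BDeco V E G _ (isEven_cls hP i0 0 (by norm_num))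
  obtain ⟨L1, hL1, hc1⟩ := a_BDeco V E G _ (isEven_cls hP i0 1 (by norm_num))
  have hne : ∀ s, ∀ C : Finset E, C ⊆ cls p q m i0 (π i0) s → C ⊆ Finset.univ.erase (m i0) := by
    intro s C hC f hf
    rw [Finset.mem_erase]
    exact ⟨(mem_cls.1 (hC hf)).1, Finset.mem_univ _⟩
  obtain ⟨D, hD, hDL⟩ := a_Chain V E G w hm (m i0) (a i0) (b (π i0)) (hP.wm i0) (hP.endm i0)
    (L0 ++ L1) (by
      intro C hC
      rw [List.mem_append] at hC
      rcases hC with hC | hC
      · exact ⟨(hL0 C hC).1, hne 0 C (hL0 C hC).2⟩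
      · exact ⟨(hL1 C hC).1, hne 1 C (hL1 C hC).2⟩) (by
      intro f hf
      rw [Finset.mem_erase] at hf
      rw [List.countP_append, hc0, hc1]
      exact chi_add hP i0 (π i0) f hf.1)
  set t := (L0 ++ L1).length with ht_def
  refine ⟨t, D, ?_, hD⟩
  -- at least two circuits
  have ht : 2 ≤ t := by
    obtain ⟨l, hl, _⟩ := hD.cover2 (m (i0 + 1)) (hP.wm _)
      (fun h => add_one_ne hn i0 (Cyc4X.m_inj hP h))
    omega
  obtain ⟨g, hg2, hgk, -⟩ := hD.meet 0 (by omega)
  obtain ⟨i1, rfl⟩ := eq_m hP hg2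
  have hi1 : i1 ≠ i0 := by
    rintro rfl
    exact hD.emem 0 (by omega) hgk
  have hends := hP.endm i1
  -- a p-edge and a q-edge in `D 0`
  obtain ⟨c, hc⟩ : ∃ c, p c ∈ D 0 := by
    obtain ⟨f1, h1, h2, h3⟩ := exists_one hD (by omega : 0 < t) hgk (z := a i1)
      (by rw [hends]; simp) (fun h => hi1 (hP.inja h)) (hP.disj _ _)
    rcases hP.surjE f1 with ⟨c, rfl⟩ | ⟨c, rfl⟩ | ⟨c, rfl⟩
    · exact ⟨c, h1⟩
    · rw [hP.endq, Sym2.mem_iff] at h2
      rcases h2 with h2 | h2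
      · exact absurd h2 (hP.disj _ _)
      · exact absurd h2 (hP.disj _ _)
    · exact absurd (hP.wm c) h3
  obtain ⟨c', hc'⟩ : ∃ c', q c' ∈ D 0 := by
    obtain ⟨f1, h1, h2, h3⟩ := exists_one hD (by omega : 0 < t) hgk (z := b (π i1))
      (by rw [hends]; simp) (fun h => hP.disj _ _ h.symm)
      (fun h => hi1 (π.injective (hP.injb h)))
    rcases hP.surjE f1 with ⟨c, rfl⟩ | ⟨c, rfl⟩ | ⟨c, rfl⟩
    · rw [hP.endp, Sym2.mem_iff] at h2
      rcases h2 with h2 | h2
      · exact absurd h2.symm (hP.disj _ _)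
      · exact absurd h2.symm (hP.disj _ _)
    · exact ⟨c, h1⟩
    · exact absurd (hP.wm c) h3
  -- both are in the same class
  obtain ⟨s, hs⟩ : ∃ s, D 0 ⊆ cls p q m i0 (π i0) s := by
    have h1 : D 0 ∈ L0 ++ L1 := (hDL (D 0)).2 ⟨0, by omega, rfl⟩
    rw [List.mem_append] at h1
    rcases h1 with h1 | h1
    · exact ⟨0, (hL0 _ h1).2⟩
    · exact ⟨1, (hL1 _ h1).2⟩
  have hcs := (p_mem hP).1 (hs hc)
  have hcs' := (q_mem hP).1 (hs hc')
  obtain ⟨hA, hB⟩ := h0 V E G w n a b p q m π hP i0 (b (π i0)) t D hD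
  have e1 := hA (c - i0).val (val_lt hn _) 0 (by omega) (by rw [← natVal hn]; exact hc)
  have e2 := hB (c' - π i0).val (val_lt hn _) 0 (by omega) (by rw [← natVal hn]; exact hc')
  have e3 : Even (0 : ℕ) := by decide
  have e4 := e1.1 e3
  have e5 := e2.1 e3
  rw [Nat.even_iff] at e4 e5
  omega

end SOdd

theorem s_Odd (h0 : Stmt_S_Delta0) (hs : Stmt_S_PermSymm) : Stmt_S_Odd := by
  intro V E _ _ _ _ G w hm n a b p q m π hP e x y he hends
  obtain ⟨i0, rfl⟩ := SOdd.eq_m hP he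
  rw [hP.endm i0, Sym2.eq_iff] at hends
  rcases hends with ⟨h1, h2⟩ | ⟨h1, h2⟩
  · subst h1
    subst h2
    exact SOdd.core h0 hm hP i0
  · subst h1
    subst h2
    have hP' := hs V E G w n a b p q m π hP
    have h3 := SOdd.core h0 hm hP' (π i0)
    simp only [Equiv.symm_apply_apply] at h3
    exact h3

end MGraph

end Pool.GOD
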