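import Pool.Agent.GOD.StmtS2

/-!
The weighted Petersen graph has the extension property (`Stmt_S_P10Ext`).

Weights `r : Fin 15 → ℕ` with values at most 2 are encoded by numbers in base 4.  `good` looks for
a cut with exactly one edge of the support (`brd`) or for at most three circuits of the table `tab`
(all 57 circuits of the Petersen graph) whose sum is the weight (`cov`).
-/

set_option autoImplicit false
set_option linter.unusedSectionVars false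

namespace Pool.GOD

namespace MGraph

namespace SP10Ext

open P10X

/-- The circuits of the Petersen graph: edge set, list of vertices, code. -/
def tab : List (Finset (Fin 15) × List (Fin 10) × ℕ) := [
  ({0, 1, 2, 3, 4}, [0, 1, 2, 3, 4], 341),
  ({0, 1, 5, 7, 10}, [0, 1, 2, 7, 5], 1065989),
  ({0, 4, 6, 9, 14}, [0, 1, 6, 9, 4], 268701953),
  ({0, 5, 6, 11, 13}, [0, 1, 6, 8, 5], 71308289),
  ({1, 2, 6, 8, 11}, [1, 2, 3, 8, 6], 4263956),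
  ({1, 6, 7, 12, 14}, [1, 2, 7, 9, 6], 285233156),
  ({2, 3, 7, 9, 12}, [2, 3, 4, 9, 7], 17055824),
  ({2, 7, 8, 10, 13}, [2, 3, 8, 5, 7], 68239376),
  ({3, 4, 5, 8, 13}, [0, 4, 3, 8, 5], 67175744),
  ({3, 8, 9, 11, 14}, [3, 4, 9, 6, 8], 272957504),
  ({4, 5, 9, 10, 12}, [0, 4, 9, 7, 5], 18089216),
  ({10, 11, 12, 13, 14}, [5, 7, 9, 6, 8], 357564416),
  ({0, 1, 2, 5, 8, 13}, [0, 1, 2, 3, 8, 5], 67175445),
  ({0, 1, 4, 7, 9, 12}, [0, 1, 2, 7, 9, 4], 17056005),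
  ({0, 3, 4, 6, 8, 11}, [0, 1, 6, 8, 3, 4], 4264257),
  ({0, 5, 6, 10, 12, 14}, [0, 1, 6, 9, 7, 5], 286266369),
  ({1, 2, 3, 6, 9, 14}, [1, 2, 3, 4, 9, 6], 268701780),
  ({1, 6, 7, 10, 11, 13}, [1, 2, 7, 5, 8, 6], 72372228),
  ({2, 3, 4, 5, 7, 10}, [0, 4, 3, 2, 7, 5], 1066320),
  ({2, 7, 8, 11, 12, 14}, [2, 3, 8, 6, 9, 7], 289488912),
  ({3, 8, 9, 10, 12, 13}, [3, 4, 9, 7, 5, 8], 85262400),
  ({4, 5, 9, 11, 13, 14}, [0, 4, 9, 6, 8, 5], 340002048),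
  ({0, 1, 2, 3, 5, 9, 10, 12}, [0, 1, 2, 3, 4, 9, 7, 5], 18089045),
  ({0, 1, 2, 4, 8, 9, 11, 14}, [0, 1, 2, 3, 8, 6, 9, 4], 272957717),
  ({0, 1, 3, 4, 7, 8, 10, 13}, [0, 1, 2, 7, 5, 8, 3, 4], 68239685),
  ({0, 1, 5, 7, 11, 12, 13, 14}, [0, 1, 2, 7, 9, 6, 8, 5], 356533253),
  ({0, 2, 3, 4, 6, 7, 12, 14}, [0, 1, 6, 9, 7, 2, 3, 4], 285233489),
  ({0, 2, 5, 6, 7, 8, 10, 11}, [0, 1, 6, 8, 3, 2, 7, 5], 5329937),
  ({0, 3, 5, 6, 8, 9, 13, 14}, [0, 1, 6, 9, 4, 3, 8, 5], 335877185),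
  ({0, 4, 6, 9, 10, 11, 12, 13}, [0, 1, 6, 8, 5, 7, 9, 4], 89395457),
  ({1, 2, 3, 4, 5, 6, 11, 13}, [0, 4, 3, 2, 1, 6, 8, 5], 71308628),
  ({1, 2, 6, 8, 10, 12, 13, 14}, [1, 2, 3, 8, 5, 7, 9, 6], 353439764),
  ({1, 3, 6, 7, 8, 9, 11, 12}, [1, 2, 7, 9, 4, 3, 8, 6], 21319748),
  ({1, 4, 5, 6, 7, 9, 10, 14}, [0, 4, 9, 6, 1, 2, 7, 5], 269767940),
  ({2, 3, 7, 9, 10, 11, 13, 14}, [2, 3, 4, 9, 6, 8, 5, 7], 341065808),
  ({2, 4, 5, 7, 8, 9, 12, 13}, [0, 4, 9, 7, 2, 3, 8, 5], 84231440),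
  ({3, 4, 5, 8, 10, 11, 12, 14}, [0, 4, 3, 8, 6, 9, 7, 5], 290522432),
  ({0, 1, 2, 3, 5, 9, 11, 13, 14}, [0, 1, 2, 3, 4, 9, 6, 8, 5], 340001877),
  ({0, 1, 2, 4, 8, 9, 10, 12, 13}, [0, 1, 2, 3, 8, 5, 7, 9, 4], 85262613),
  ({0, 1, 2, 5, 8, 10, 11, 12, 14}, [0, 1, 2, 3, 8, 6, 9, 7, 5], 290522133),
  ({0, 1, 3, 4, 7, 8, 11, 12, 14}, [0, 1, 2, 7, 9, 6, 8, 3, 4], 289489221),
  ({0, 1, 3, 5, 7, 8, 9, 12, 13}, [0, 1, 2, 7, 9, 4, 3, 8, 5], 84231237),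
  ({0, 1, 4, 7, 9, 10, 11, 13, 14}, [0, 1, 2, 7, 5, 8, 6, 9, 4], 341065989),
  ({0, 2, 3, 4, 6, 7, 10, 11, 13}, [0, 1, 6, 8, 5, 7, 2, 3, 4], 72372561),
  ({0, 2, 3, 5, 6, 7, 9, 10, 14}, [0, 1, 6, 9, 4, 3, 2, 7, 5], 269767761),
  ({0, 2, 4, 6, 7, 8, 9, 11, 12}, [0, 1, 6, 8, 3, 2, 7, 9, 4], 21319953),
  ({0, 2, 5, 6, 7, 8, 12, 13, 14}, [0, 1, 6, 9, 7, 2, 3, 8, 5], 352408593),
  ({0, 3, 4, 6, 8, 10, 12, 13, 14}, [0, 1, 6, 9, 7, 5, 8, 3, 4], 353440065),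
  ({0, 3, 5, 6, 8, 9, 10, 11, 12}, [0, 1, 6, 8, 3, 4, 9, 7, 5], 22352961),
  ({1, 2, 3, 4, 5, 6, 10, 12, 14}, [0, 4, 3, 2, 1, 6, 9, 7, 5], 286266708),
  ({1, 2, 3, 6, 9, 10, 11, 12, 13}, [1, 2, 3, 4, 9, 7, 5, 8, 6], 89395284),
  ({1, 2, 4, 5, 6, 8, 9, 13, 14}, [0, 4, 9, 6, 1, 2, 3, 8, 5], 335877396),
  ({1, 3, 4, 5, 6, 7, 8, 10, 11}, [0, 4, 3, 8, 6, 1, 2, 7, 5], 5330244),
  ({1, 3, 6, 7, 8, 9, 10, 13, 14}, [1, 2, 7, 5, 8, 3, 4, 9, 6], 336941124),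
  ({1, 4, 5, 6, 7, 9, 11, 12, 13}, [0, 4, 9, 7, 2, 1, 6, 8, 5], 88364292),
  ({2, 3, 4, 5, 7, 11, 12, 13, 14}, [0, 4, 3, 2, 7, 9, 6, 8, 5], 356533584),
  ({2, 4, 5, 7, 8, 9, 10, 11, 14}, [0, 4, 9, 6, 8, 3, 2, 7, 5], 274023696)]
/-- Some cuts: vertex set, code of the cut. -/
def ctab : List (Finset (Fin 10) × ℕ) := [
  ({0}, 1281),
  ({1}, 4101),
  ({2}, 16404),
  ({3}, 65616),
  ({4}, 262464),
  ({5}, 68158464),
  ({6}, 272633856),
  ({7}, 17842176),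
  ({8}, 71368704),
  ({9}, 285474816),
  ({0, 1, 2, 3, 4}, 349184)]

/-- The digit of `N` in base 4. -/
def dig (N f : ℕ) : ℕ := N / 4 ^ f % 4

/-- The indices. -/
def all15 : List ℕ := [0, 1, 2, 3, 4, 5, 6, 7, 8, 9, 10, 11, 12, 13, 14]

lemma mem_all15 (f : Fin 15) : f.1 ∈ all15 := by
  revert f
  decide

/-- The code of the support. -/
def supp (N : ℕ) : ℕ := (N ||| (N / 2)) &&& 357913941

/-- `N` is the sum of the codes of at most `k` circuits of the table. -/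
def cov : ℕ → ℕ → Bool
  | 0, N => N == 0
  | k + 1, N => N == 0 || tab.any fun t =>
      ((supp N &&& t.2.2) == t.2.2) &&
        ((t.2.2 &&& (supp N - (supp N &&& (supp N - 1)))) != 0) &&
        (all15.all fun f => dig N f == dig t.2.2 f + dig (N - t.2.2) f) && cov k (N - t.2.2)

/-- There is a cut in the table with exactly one edge of the support. -/
def brd (N : ℕ) : Bool := ctab.any fun p =>
  ((supp N &&& p.2) != 0) && (((supp N &&& p.2) &&& ((supp N &&& p.2) - 1)) == 0) &&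
    (all15.all fun g => ((dig N g != 0) && (dig p.2 g != 0)) ==
      (g == Nat.log2 (supp N &&& p.2) / 2)) && (Nat.log2 (supp N &&& p.2) / 2 < 15 : Bool)

lemma tab_ok : ∀ t ∈ tab, t.1.Nonempty ∧ (∀ v, P10.deg t.1 v = 0 ∨ P10.deg t.1 v = 2) ∧
    (∀ v, P10.deg t.1 v = 2 → v ∈ t.2.1) ∧ List.IsChain (P10.AdjIn t.1) t.2.1 ∧ t.2.1 ≠ [] ∧
    ∀ f : Fin 15, dig t.2.2 f.1 = if f ∈ t.1 then 1 else 0 := by
  decide +kernel

lemma ctab_ok : ∀ p ∈ ctab, ∀ f : Fin 15, dig p.2 f.1 ≠ 0 ↔ f ∈ P10.cut p.1 := by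
  decide +kernel

lemma tab_circuit {t : Finset (Fin 15) × List (Fin 10) × ℕ} (ht : t ∈ tab) :
    P10.IsCircuit t.1 := by
  obtain ⟨h1, h2, h3, h4, h5, -⟩ := tab_ok t ht
  cases hl : t.2.1 with
  | nil => exact absurd hl h5
  | cons a l =>
    rw [hl] at h3 h4
    exact isCircuit_of t.1 a l h1 h2 h3 h4

lemma cov_spec : ∀ k N : ℕ, cov k N = true → ∃ L' : List (Finset (Fin 15)),
    (∀ C ∈ L', P10.IsCircuit C) ∧
      ∀ f : Fin 15, L'.countP (fun C => decide (f ∈ C)) = dig N f.1 := by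
  have h0 : ∀ f : Fin 15, dig 0 f.1 = 0 := by
    intro f
    unfold dig
    simp
  intro k
  induction k with
  | zero =>
    intro N h
    have hN : N = 0 := by
      unfold cov at h
      exact beq_iff_eq.mp h
    subst hN
    exact ⟨[], by simp, fun f => by rw [h0 f]; rfl⟩
  | succ k ih =>
    intro N h
    unfold cov at h
    rw [Bool.or_eq_true] at h
    rcases h with h | h
    · have hN : N = 0 := beq_iff_eq.mp h
      subst hN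
      exact ⟨[], by simp, fun f => by rw [h0 f]; rfl⟩
    · rw [List.any_eq_true] at h
      obtain ⟨t, ht, h⟩ := h
      rw [Bool.and_eq_true, Bool.and_eq_true] at h
      obtain ⟨⟨-, h2⟩, h3⟩ := h
      rw [List.all_eq_true] at h2
      obtain ⟨L', hL', hc⟩ := ih _ h3
      obtain ⟨-, -, -, -, -, h6⟩ := tab_ok t ht
      refine ⟨t.1 :: L', ?_, ?_⟩
      · intro C hC
        rcases List.mem_cons.mp hC with rfl | hC
        · exact tab_circuit ht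
        · exact hL' C hC
      · intro f
        have h7 := beq_iff_eq.mp (h2 f.1 (mem_all15 f))
        rw [List.countP_cons, hc f, h7, h6 f]
        by_cases hf : f ∈ t.1
        · rw [if_pos hf, if_pos (decide_eq_true hf)]
          omega
        · rw [if_neg hf, if_neg (by rw [decide_eq_true_eq]; exact hf)]
          omega

lemma brd_spec (N : ℕ) (h : brd N = true) : ∃ (S : Finset (Fin 10)) (f : Fin 15),
    ∀ g : Fin 15, (dig N g.1 ≠ 0 ∧ g ∈ P10.cut S) ↔ g = f := by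
  unfold brd at h
  rw [List.any_eq_true] at h
  obtain ⟨p, hp, h⟩ := h
  rw [Bool.and_eq_true, Bool.and_eq_true] at h
  obtain ⟨⟨-, h2⟩, h3⟩ := h
  rw [List.all_eq_true] at h2
  have h3 := of_decide_eq_true h3
  refine ⟨p.1, ⟨_, h3⟩, ?_⟩
  intro g
  have h4 := beq_iff_eq.mp (h2 g.1 (mem_all15 g))
  rw [← ctab_ok p hp g, Fin.ext_iff]
  rw [Bool.eq_iff_iff, Bool.and_eq_true, bne_iff_ne, bne_iff_ne, beq_iff_eq] at h4
  exact h4

/-- The check for one weight. -/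
def good (r0 r1 r2 r3 r4 s0 s1 s2 s3 s4 q0 q1 q2 q3 q4 : ℕ) (N : ℕ) : Bool :=
  (dig N 0 == r0) && (dig N 1 == r1) && (dig N 2 == r2) && (dig N 3 == r3) && (dig N 4 == r4) &&
  (dig N 5 == s0) && (dig N 6 == s1) && (dig N 7 == s2) && (dig N 8 == s3) && (dig N 9 == s4) &&
  (dig N 10 == q0) && (dig N 11 == q1) && (dig N 12 == q2) && (dig N 13 == q3) &&
  (dig N 14 == q4) && (brd N || cov 3 N)

/-- The code of a weight. -/
def enc (r0 r1 r2 r3 r4 s0 s1 s2 s3 s4 q0 q1 q2 q3 q4 : ℕ) : ℕ :=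
  r0 + 4 * (r1 + 4 * (r2 + 4 * (r3 + 4 * (r4 + 4 * (s0 + 4 * (s1 + 4 * (s2 + 4 * (s3 +
    4 * (s4 + 4 * (q0 + 4 * (q1 + 4 * (q2 + 4 * (q3 + 4 * q4)))))))))))))

/-- The sum is odd. -/
def odd3 (a b c : ℕ) : Bool := (a + b + c) % 2 == 1

/-- The check for all weights. -/
def chkAll : Bool :=
  [0, 1].all fun r4 => [0, 1].all fun r0 => [0, 1, 2].all fun s0 => odd3 r4 r0 s0 ||
  [0, 1].all fun r1 => [0, 1, 2].all fun s1 => odd3 r0 r1 s1 ||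
  [0, 1].all fun r2 => [0, 1, 2].all fun s2 => odd3 r1 r2 s2 ||
  [0, 1].all fun r3 => [0, 1, 2].all fun s3 => odd3 r2 r3 s3 ||
  [0, 1, 2].all fun s4 => odd3 r3 r4 s4 || (s0 * s1 * s2 * s3 * s4 != 0) ||
  [0, 1].all fun q0 => [0, 1].all fun q3 => odd3 q3 q0 s0 ||
  [0, 1].all fun q2 => odd3 q0 q2 s2 || [0, 1].all fun q1 => odd3 q1 q3 s3 ||
  [0, 1].all fun q4 => odd3 q2 q4 s4 || odd3 q4 q1 s1 ||
  good r0 r1 r2 r3 r4 s0 s1 s2 s3 s4 q0 q1 q2 q3 q4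
    (enc r0 r1 r2 r3 r4 s0 s1 s2 s3 s4 q0 q1 q2 q3 q4)

lemma chkAll_true : chkAll = true := by
  decide +kernel

lemma mem2 {a : ℕ} (h : a ≤ 1) : a ∈ [0, 1] := by
  have : a = 0 ∨ a = 1 := by omega
  rcases this with rfl | rfl <;> simp

lemma mem3 {a : ℕ} (h : a ≤ 2) : a ∈ [0, 1, 2] := by
  have : a = 0 ∨ a = 1 ∨ a = 2 := by omega
  rcases this with rfl | rfl | rfl <;> simp

lemma use {a b c : ℕ} (h : (a + b + c) % 2 = 0) {P : Bool} (hP : (odd3 a b c || P) = true) :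
    P = true := by
  rw [Bool.or_eq_true] at hP
  rcases hP with hP | hP
  · unfold odd3 at hP
    have := beq_iff_eq.mp hP
    omega
  · exact hP

lemma check (r0 r1 r2 r3 r4 s0 s1 s2 s3 s4 q0 q1 q2 q3 q4 : ℕ)
    (hr0 : r0 ≤ 1) (hr1 : r1 ≤ 1) (hr2 : r2 ≤ 1) (hr3 : r3 ≤ 1) (hr4 : r4 ≤ 1)
    (hs0 : s0 ≤ 2) (hs1 : s1 ≤ 2) (hs2 : s2 ≤ 2) (hs3 : s3 ≤ 2) (hs4 : s4 ≤ 2)
    (hq0 : q0 ≤ 1) (hq1 : q1 ≤ 1) (hq2 : q2 ≤ 1) (hq3 : q3 ≤ 1) (hq4 : q4 ≤ 1)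
    (hz : s0 * s1 * s2 * s3 * s4 = 0)
    (v0 : (r4 + r0 + s0) % 2 = 0) (v1 : (r0 + r1 + s1) % 2 = 0) (v2 : (r1 + r2 + s2) % 2 = 0)
    (v3 : (r2 + r3 + s3) % 2 = 0) (v4 : (r3 + r4 + s4) % 2 = 0) (v5 : (q3 + q0 + s0) % 2 = 0)
    (v6 : (q4 + q1 + s1) % 2 = 0) (v7 : (q0 + q2 + s2) % 2 = 0) (v8 : (q1 + q3 + s3) % 2 = 0)
    (v9 : (q2 + q4 + s4) % 2 = 0) :
    good r0 r1 r2 r3 r4 s0 s1 s2 s3 s4 q0 q1 q2 q3 q4
      (enc r0 r1 r2 r3 r4 s0 s1 s2 s3 s4 q0 q1 q2 q3 q4) = true := by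
  have h := chkAll_true
  unfold chkAll at h
  have h := List.all_eq_true.mp h r4 (mem2 hr4)
  have h := List.all_eq_true.mp h r0 (mem2 hr0)
  have h := use v0 (List.all_eq_true.mp h s0 (mem3 hs0))
  have h := List.all_eq_true.mp h r1 (mem2 hr1)
  have h := use v1 (List.all_eq_true.mp h s1 (mem3 hs1))
  have h := List.all_eq_true.mp h r2 (mem2 hr2)
  have h := use v2 (List.all_eq_true.mp h s2 (mem3 hs2))
  have h := List.all_eq_true.mp h r3 (mem2 hr3)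
  have h := use v3 (List.all_eq_true.mp h s3 (mem3 hs3))
  have h := List.all_eq_true.mp h s4 (mem3 hs4)
  rw [Bool.or_assoc] at h
  have h := use v4 h
  rw [Bool.or_eq_true] at h
  rcases h with h | h
  · exact absurd hz (bne_iff_ne.mp h)
  have h := List.all_eq_true.mp h q0 (mem2 hq0)
  have h := use v5 (List.all_eq_true.mp h q3 (mem2 hq3))
  have h := use v7 (List.all_eq_true.mp h q2 (mem2 hq2))
  have h := use v8 (List.all_eq_true.mp h q1 (mem2 hq1))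
  have h := List.all_eq_true.mp h q4 (mem2 hq4)
  rw [Bool.or_assoc] at h
  have h := use v9 h
  exact use v6 h

lemma cnt_even (L : List (Finset (Fin 15))) : (∀ C ∈ L, P10.IsCircuit C) → ∀ v : Fin 10,
    (L.countP (fun C => decide ((inc v).1 ∈ C)) + L.countP (fun C => decide ((inc v).2.1 ∈ C)) +
      L.countP (fun C => decide ((inc v).2.2 ∈ C))) % 2 = 0 := by
  induction L with
  | nil =>
    intro _ v
    rfl
  | cons C L ih =>
    intro h v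
    have h1 := ih (fun D hD => h D (List.mem_cons_of_mem C hD)) v
    have h2 := (h C List.mem_cons_self).2.1 v
    rw [deg_eq] at h2
    unfold chi at h2
    simp only [List.countP_cons, decide_eq_true_eq]
    omega

lemma mul5 {a b c d e : ℕ} (h : a = 0 ∨ b = 0 ∨ c = 0 ∨ d = 0 ∨ e = 0) :
    a * b * c * d * e = 0 := by
  rcases h with rfl | rfl | rfl | rfl | rfl <;> simp

end SP10Ext

open SP10Ext P10X in
/-- The weighted Petersen graph has the extension property. -/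
theorem s_P10Ext : Stmt_S_P10Ext := by
  intro e he L hL hle hbr
  have hcirc : ∀ C ∈ L, P10.IsCircuit C := fun C hC => (hL C hC).1
  obtain ⟨cnt, hcnt⟩ : ∃ cnt : Fin 15 → ℕ,
      ∀ f, cnt f = L.countP (fun C => decide (f ∈ C)) := ⟨_, fun _ => rfl⟩
  have hcnte : cnt e = 0 := by
    rw [hcnt, List.countP_eq_zero]
    intro C hC
    rw [decide_eq_true_eq]
    intro h
    exact absurd rfl (Finset.mem_erase.mp ((hL C hC).2 h)).1
  have hle' : ∀ f, f ≠ e → cnt f ≤ w10 f := by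
    intro f hf
    rw [hcnt]
    exact hle f (Finset.mem_erase.mpr ⟨hf, Finset.mem_univ f⟩)
  obtain ⟨r, hr⟩ : ∃ r : Fin 15 → ℕ, ∀ f, r f = if f = e then 0 else w10 f - cnt f :=
    ⟨_, fun _ => rfl⟩
  have hre : r e = 0 := by rw [hr, if_pos rfl]
  have hrle : ∀ f, r f ≤ w10 f := by
    intro f
    rw [hr]
    split_ifs <;> omega
  have hsum : ∀ f, (r f + cnt f) % 2 = w10 f % 2 := by
    intro f
    by_cases hf : f = e
    · subst hf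
      rw [hre, hcnte, he]
    · rw [hr, if_neg hf, Nat.sub_add_cancel (hle' f hf)]
  have hpar : ∀ v : Fin 10, (r (inc v).1 + r (inc v).2.1 + r (inc v).2.2) % 2 = 0 := by
    intro v
    have h1 := cnt_even L hcirc v
    rw [← hcnt, ← hcnt, ← hcnt] at h1
    have h2 := hsum (inc v).1
    have h3 := hsum (inc v).2.1
    have h4 := hsum (inc v).2.2
    obtain ⟨-, -, -, h5, h6, h7⟩ := inc_ne v
    rw [h5] at h2
    rw [h6] at h3
    rw [h7] at h4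
    omega
  have hz : r 5 * r 6 * r 7 * r 8 * r 9 = 0 := by
    have hcase : ∀ e, w10 e = 2 → e = 5 ∨ e = 6 ∨ e = 7 ∨ e = 8 ∨ e = 9 := by decide
    apply mul5
    rcases hcase e he with rfl | rfl | rfl | rfl | rfl
    · exact Or.inl hre
    · exact Or.inr (Or.inl hre)
    · exact Or.inr (Or.inr (Or.inl hre))
    · exact Or.inr (Or.inr (Or.inr (Or.inl hre)))
    · exact Or.inr (Or.inr (Or.inr (Or.inr hre)))
  have hgood := check (r 0) (r 1) (r 2) (r 3) (r 4) (r 5) (r 6) (r 7) (r 8) (r 9) (r 10) (r 11)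
    (r 12) (r 13) (r 14) (hrle 0) (hrle 1) (hrle 2) (hrle 3) (hrle 4) (hrle 5) (hrle 6) (hrle 7)
    (hrle 8) (hrle 9) (hrle 10) (hrle 11) (hrle 12) (hrle 13) (hrle 14) hz (hpar 0) (hpar 1)
    (hpar 2) (hpar 3) (hpar 4) (hpar 5) (hpar 6) (hpar 7) (hpar 8) (hpar 9)
  obtain ⟨N, hN⟩ : ∃ N, N = enc (r 0) (r 1) (r 2) (r 3) (r 4) (r 5) (r 6) (r 7) (r 8) (r 9)
    (r 10) (r 11) (r 12) (r 13) (r 14) := ⟨_, rfl⟩
  rw [← hN] at hgood
  unfold good at hgood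
  simp only [Bool.and_eq_true, beq_iff_eq] at hgood
  obtain ⟨⟨⟨⟨⟨⟨⟨⟨⟨⟨⟨⟨⟨⟨⟨d0, d1⟩, d2⟩, d3⟩, d4⟩, d5⟩, d6⟩, d7⟩, d8⟩, d9⟩, d10⟩, d11⟩, d12⟩, d13⟩,
    d14⟩, hfin⟩ := hgood
  have hdig : ∀ f : Fin 15, dig N f.1 = r f := by
    intro f
    fin_cases f <;> assumption
  rw [Bool.or_eq_true] at hfin
  rcases hfin with h | h
  · exfalso
    obtain ⟨S, f, hS⟩ := brd_spec N h
    apply hbr f
    rw [isBridge_iff]
    refine ⟨S, ?_⟩
    ext g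
    rw [Finset.mem_singleton, ← hS g, Finset.mem_inter, Finset.mem_filter, Finset.mem_erase,
      ← hcnt, hdig g, hr g]
    by_cases hg : g = e
    · rw [if_pos hg]
      simp [hg]
    · rw [if_neg hg]
      have := hle' g hg
      constructor
      · rintro ⟨⟨-, h1⟩, h2⟩
        exact ⟨by omega, h2⟩
      · rintro ⟨h1, h2⟩
        exact ⟨⟨⟨hg, Finset.mem_univ g⟩, by omega⟩, h2⟩
  · obtain ⟨L', hL', hc⟩ := cov_spec 3 N h
    refine ⟨L', ?_, ?_⟩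
    · intro C hC
      refine ⟨hL' C hC, ?_⟩
      intro f hf
      rw [Finset.mem_erase]
      refine ⟨?_, Finset.mem_univ f⟩
      rintro rfl
      have h1 := hc f
      rw [hdig, hre, List.countP_eq_zero] at h1
      exact h1 C hC (decide_eq_true hf)
    · intro f hf
      have hfe := (Finset.mem_erase.mp hf).1
      rw [List.countP_append, ← hcnt, hc f, hdig, hr, if_neg hfe]
      have := hle' f hfe
      omega

end MGraph

end Pool.GOD
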