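import Pool.Agent.GOD.StmtS

/-!
# MP_7b7176_co, module PermSymm: permutation graphs may be turned upside down
-/

namespace Pool.GOD

namespace MGraph

theorem s_PermSymm : Stmt_S_PermSymm := by
  intro V E _ _ _ _ G w n a b p q m π h
  refine ⟨h.odd, h.five, h.injb, h.inja, fun i j hij => h.disj j i hij.symm, ?_, h.endq, h.endp,
    ?_, h.wq, h.wp, fun i => h.wm _, ?_⟩
  · intro v
    rcases h.surj v with hv | hv
    · exact Or.inr hv
    · exact Or.inl hv
  · intro i
    have h1 := h.endm (π.symm i)
    rw [Equiv.apply_symm_apply] at h1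
    rw [h1]
    exact Sym2.eq_swap
  · intro e
    rcases h.surjE e with he | he | ⟨i, he⟩
    · exact Or.inr (Or.inl he)
    · exact Or.inl he
    · refine Or.inr (Or.inr ⟨π i, ?_⟩)
      change e = m (π.symm (π i))
      rw [Equiv.symm_apply_apply]
      exact he

end MGraph

end Pool.GOD
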