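import Pool.Agent.GOD.StmtS

/-!
If all end circuits have exactly two edges of weight 2, then `π` maps distance 2 to distance 1.
-/

set_option autoImplicit false

namespace Pool.GOD

namespace MGraph

namespace SPi

variable {V E : Type} [Fintype V] [DecidableEq V] [Fintype E] [DecidableEq E] {G : MGraph V E}
  {w : E → ℕ} {n : ℕ} {a b : ZMod n → V} {p q m : ZMod n → E} {π : Equiv.Perm (ZMod n)}

theorem oneA (h : G.PermData w n a b p q m π) {f : E} {c : ZMod n} {z : V} (hf : w f ≠ 2)
    (he : G.ends f = s(a c, z)) : z = a (c + 1) ∨ z = a (c - 1) := by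
  rcases h.surjE f with ⟨j, rfl⟩ | ⟨j, rfl⟩ | ⟨j, rfl⟩
  · rw [h.endp, Sym2.eq_iff] at he
    rcases he with ⟨h1, h2⟩ | ⟨h1, h2⟩
    · left
      rw [← h2, h.inja h1]
    · right
      have h3 : j + 1 = c := h.inja h2
      rw [← h1, ← h3, add_sub_cancel_right]
  · rw [h.endq, Sym2.eq_iff] at he
    rcases he with ⟨h1, h2⟩ | ⟨h1, h2⟩
    · exact absurd h1.symm (h.disj c j)
    · exact absurd h2.symm (h.disj c (j + 1))
  · exact absurd (h.wm j) hf

theorem twoA (h : G.PermData w n a b p q m π) {f : E} {c : ZMod n} {z : V} (hf : w f = 2)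
    (he : G.ends f = s(a c, z)) : z = b (π c) := by
  rcases h.surjE f with ⟨j, rfl⟩ | ⟨j, rfl⟩ | ⟨j, rfl⟩
  · rw [h.wp j] at hf
    exact absurd hf (by norm_num)
  · rw [h.wq j] at hf
    exact absurd hf (by norm_num)
  · rw [h.endm, Sym2.eq_iff] at he
    rcases he with ⟨h1, h2⟩ | ⟨h1, h2⟩
    · rw [← h2, h.inja h1]
    · exact absurd h2.symm (h.disj c (π j))

theorem oneB (h : G.PermData w n a b p q m π) {f : E} {c d : ZMod n} (hf : w f ≠ 2)
    (he : G.ends f = s(b c, b d)) : d = c + 1 ∨ d = c - 1 := by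
  rcases h.surjE f with ⟨j, rfl⟩ | ⟨j, rfl⟩ | ⟨j, rfl⟩
  · rw [h.endp, Sym2.eq_iff] at he
    rcases he with ⟨h1, h2⟩ | ⟨h1, h2⟩
    · exact absurd h1 (h.disj j c)
    · exact absurd h1 (h.disj j d)
  · rw [h.endq, Sym2.eq_iff] at he
    rcases he with ⟨h1, h2⟩ | ⟨h1, h2⟩
    · left
      have h3 : j = c := h.injb h1
      have h4 : j + 1 = d := h.injb h2
      rw [← h4, h3]
    · right
      have h3 : j = d := h.injb h1
      have h4 : j + 1 = c := h.injb h2
      rw [← h4, h3, add_sub_cancel_right]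
  · exact absurd (h.wm j) hf

end SPi

open SPi in
theorem s_Pi (hE : Stmt_S_EndE) : Stmt_S_Pi := by
  intro V E _ _ _ _ G w hS n a b p q m π hP hc i
  obtain ⟨t, D, ht, hD⟩ := hS.odd (m i) (a i) (b (π i)) (hP.wm i) (hP.endm i)
  obtain ⟨-, -, -, v, e, he⟩ := hE V E G w hS (m i) (a i) (b (π i)) t D hD (by omega)
  rw [hc (m i) (a i) (b (π i)) t D hD ht] at he
  have w0 : w (e 0) ≠ 2 := fun h => by
    have := (he.alt 0 (by norm_num)).1 h
    revert this
    decide
  have w1 : w (e 1) = 2 := (he.alt 1 (by norm_num)).2 (by decide)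
  have w2 : w (e 2) ≠ 2 := fun h => by
    have := (he.alt 2 (by norm_num)).1 h
    revert this
    decide
  have w3 : w (e 3) = 2 := (he.alt 3 (by norm_num)).2 (by decide)
  have w4 : w (e 4) ≠ 2 := fun h => by
    have := (he.alt 4 (by norm_num)).1 h
    revert this
    decide
  have e0 : G.ends (e 0) = s(a i, v 1) := by
    rw [← he.v0]
    exact he.ends 0
  have e1 : G.ends (e 1) = s(v 1, v 2) := he.ends 1
  have e2 : G.ends (e 2) = s(v 2, v 3) := he.ends 2
  have e3 : G.ends (e 3) = s(v 4, v 3) := by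
    rw [Sym2.eq_swap]
    exact he.ends 3
  have e4 : G.ends (e 4) = s(a i, v 4) := by
    have h1 := he.ends 4
    have h2 : v (4 + 1) = v 0 := by
      have := he.pv 0
      simpa using this
    rw [h2, he.v0, Sym2.eq_swap] at h1
    exact h1
  have hne : v 1 ≠ v 4 := fun h => by
    have := he.injv 1 4 (by norm_num) (by norm_num) h
    omega
  have key : ∀ c d : ZMod n, v 1 = a c → v 4 = a d → π d = π c + 1 ∨ π d = π c - 1 := by
    intro c d h1 h4
    rw [h1] at e1
    rw [h4] at e3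
    have h2 := twoA hP w1 e1
    have h3 := twoA hP w3 e3
    rw [h2, h3] at e2
    exact oneB hP w2 e2
  rcases oneA hP w0 e0 with h1 | h1 <;> rcases oneA hP w4 e4 with h4 | h4
  · exact absurd (h1.trans h4.symm) hne
  · rcases key _ _ h1 h4 with h | h
    · right
      rw [h]
      ring
    · left
      rw [h]
      ring
  · exact key _ _ h1 h4
  · exact absurd (h1.trans h4.symm) hne

end MGraph

end Pool.GOD
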