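import Pool.Agent.GOD.StmtS

/-!
Module Pos (strong version of Q1 of MP_7b7176_co): the position of a bond.
-/

set_option autoImplicit false
set_option linter.unusedSectionVars false

namespace Pool.GOD

namespace MGraph

namespace SPos

variable {V E : Type} {G : MGraph V E} {D : Finset E} {n : ℕ} {v : ℕ → V} {e : ℕ → E}

/-- the edges of the circuit at a vertex -/
theorem edge_at (h : Enum G D n v e) {g : E} (hg : g ∈ D) {i : ℕ} (hi : v (i + 1) ∈ G.ends g) :
    g = e i ∨ g = e (i + 1) := by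
  obtain ⟨l, hl, rfl⟩ := (h.mem g).1 hg
  rw [h.ends l, Sym2.mem_iff] at hi
  rcases hi with hi | hi
  · right
    exact ((h.e_eq_iff _ _).2 ((h.v_eq_iff _ _).1 hi)).symm
  · left
    have h1 : (i + 1) % n = (l + 1) % n := (h.v_eq_iff _ _).1 hi
    have h2 : i % n = l % n := Nat.ModEq.add_right_cancel' 1 h1
    exact ((h.e_eq_iff _ _).2 h2).symm

end SPos

theorem s_Pos (hX : Stmt_S_Ext) : Stmt_S_Pos := by
  intro V E _ _ _ _ G w h e0 x y t D hc ht m v0 e0' hE N v e k f hB
  have hext := hX V E G w h e0 x y t D hc ht N v e k f hB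
  have hEn : Enum G (D 0) (2 * m + 1) v0 e0' := hE.toEnum
  have hBn : Enum G (D 1) (2 * N) v e := hB.toEnum
  have hw0 : w (e 0) = 2 := (hB.alt 0).2 (by decide)
  have hwk : w (e (2 * k + 2)) = 2 := (hB.alt _).2 ⟨k + 1, by ring⟩
  have hwf : w f = 1 := hB.wf
  have hfe : f ≠ e 0 := by
    intro hh
    rw [hh, hw0] at hwf
    omega
  obtain ⟨j, hj, hje⟩ := (hEn.mem (e 0)).1 hB.q0
  have hodd : Odd j := (hE.alt j hj).1 (by rw [hje]; exact hw0)
  obtain ⟨r, hr⟩ := hodd
  have he0 : s(v0 j, v0 (j + 1)) = s(v 0, v 1) := by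
    rw [← hEn.ends j, hje, hBn.ends 0]
  have hkend : v (2 * k + 2) ∈ G.ends (e (2 * k + 2)) := by
    rw [hBn.ends]; exact Sym2.mem_mk_left _ _
  have hf0 : v 0 ∈ G.ends f := by
    rw [hB.ef]; exact Sym2.mem_mk_left _ _
  rcases Sym2.eq_iff.1 he0 with ⟨h1, h2⟩ | ⟨h1, h2⟩
  · -- `v 1 = v0 (j + 1)`
    right
    have g1 : e0' (j + 1) ≠ e 0 := by
      rw [← hje]
      intro hh
      have h3 := (hEn.e_eq_iff _ _).1 hh
      rw [Nat.mod_eq_of_lt hj, Nat.mod_eq_of_lt (by omega : j + 1 < 2 * m + 1)] at h3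
      omega
    have g2 := hext (e0' (j + 1)) (hEn.e_mem _) g1 (by
      rw [hEn.ends, ← h2]; exact Sym2.mem_mk_left _ _)
    rw [hEn.ends, Sym2.mem_iff, ← hE.v0] at g2
    have hj2 : j + 2 = 2 * m + 1 := by
      rcases g2 with g2 | g2
      · have h3 := (hEn.v_eq_iff _ _).1 g2
        rw [Nat.zero_mod, Nat.mod_eq_of_lt (by omega : j + 1 < 2 * m + 1)] at h3
        omega
      · have h3 := (hEn.v_eq_iff _ _).1 g2
        by_contra hcon
        rw [Nat.zero_mod, Nat.mod_eq_of_lt (by omega : j + 1 + 1 < 2 * m + 1)] at h3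
        omega
    have hjm : j = 2 * m - 1 := by omega
    have hm1 : 1 ≤ m := by omega
    obtain ⟨i, rfl⟩ : ∃ i, m = i + 1 := ⟨m - 1, by omega⟩
    have hj' : j = 2 * i + 1 := by omega
    subst hj'
    -- `f`
    have hf : f = e0' (2 * i) := by
      rcases SPos.edge_at hEn hB.f0 (i := 2 * i) (by rw [h1]; exact hf0) with h3 | h3
      · exact h3
      · exact absurd (h3.trans hje) hfe
    have hvk : v (2 * k + 2) = v0 (2 * i) := by
      have h3 : s(v 0, v (2 * k + 2)) = s(v 0, v0 (2 * i)) := by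
        rw [← hB.ef, hf, hEn.ends, h1, Sym2.eq_swap]
      exact Sym2.congr_right.1 h3
    have hi : i ≠ 0 := by
      rintro rfl
      have h3 : v0 (2 * (0 + 1) + 1) = v (2 * k + 2) := by
        rw [hvk]
        have := hEn.pv 0
        rw [zero_add] at this
        exact this
      have h4 := SPos.edge_at hEn hB.p0 (i := 2 * (0 + 1)) (by rw [h3]; exact hkend)
      rcases h4 with h4 | h4
      · have h5 := (hE.alt (2 * (0 + 1)) (by omega)).1 (by rw [← h4]; exact hwk)
        exact absurd h5 (by decide)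
      · have h6 : e0' (2 * (0 + 1) + 1) = e0' 0 := by
          have := hEn.pe 0
          rw [zero_add] at this
          exact this
        have h5 := (hE.alt 0 (by omega)).1 (by rw [← h6, ← h4]; exact hwk)
        exact absurd h5 (by decide)
    obtain ⟨l, rfl⟩ : ∃ l, i = l + 1 := ⟨i - 1, by omega⟩
    have hek : e (2 * k + 2) = e0' (2 * l + 1) := by
      have h3 : v0 (2 * l + 1 + 1) = v (2 * k + 2) := by rw [hvk]; rfl
      rcases SPos.edge_at hEn hB.p0 (i := 2 * l + 1) (by rw [h3]; exact hkend) with h4 | h4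
      · exact h4
      · have h5 := (hE.alt (2 * l + 1 + 1) (by omega)).1 (by rw [← h4]; exact hwk)
        obtain ⟨z, hz⟩ := h5
        omega
    refine ⟨by omega, ?_, ?_, ?_, ?_, ?_, ?_⟩
    · rw [← hje]; congr 1
    · rw [← h2]; congr 1
    · rw [← h1]; congr 1
    · rw [hf]; congr 1
    · rw [hvk]; congr 1
    · rw [hek]; congr 1
  · -- `v 1 = v0 j`
    left
    obtain ⟨i, rfl⟩ : ∃ i, j = i + 1 := ⟨j - 1, by omega⟩
    have g1 : e0' i ≠ e 0 := by
      rw [← hje]
      intro hh
      have h3 := hEn.inje _ _ (by omega) hj hh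
      omega
    have g2 := hext (e0' i) (hEn.e_mem _) g1 (by
      rw [hEn.ends, ← h1]; exact Sym2.mem_mk_right _ _)
    rw [hEn.ends, Sym2.mem_iff, ← hE.v0] at g2
    have hi0 : i = 0 := by
      rcases g2 with g2 | g2
      · exact (hEn.injv _ _ (by omega) (by omega) g2).symm
      · have := hEn.injv _ _ (by omega) hj g2
        omega
    subst hi0
    have hm1 : 1 ≤ m := by omega
    have hf : f = e0' 2 := by
      rcases SPos.edge_at hEn hB.f0 (i := 1) (by
        have : v0 (1 + 1) = v 0 := h2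
        rw [this]; exact hf0) with h3 | h3
      · exact absurd (h3.trans hje) hfe
      · exact h3
    have hvk : v (2 * k + 2) = v0 3 := by
      have h3 : s(v 0, v (2 * k + 2)) = s(v 0, v0 3) := by
        rw [← hB.ef, hf, hEn.ends, ← h2]
      exact Sym2.congr_right.1 h3
    have h4 := SPos.edge_at hEn hB.p0 (i := 2) (by
      have : v0 (2 + 1) = v (2 * k + 2) := hvk.symm
      rw [this]; exact hkend)
    have hek : e (2 * k + 2) = e0' 3 := by
      rcases h4 with h4 | h4
      · have h5 := (hE.alt 2 (by omega)).1 (by rw [← h4]; exact hwk)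
        exact absurd h5 (by decide)
      · exact h4
    have hm2 : 2 ≤ m := by
      by_contra hcon
      have hm : m = 1 := by omega
      subst hm
      have h6 : e0' 3 = e0' 0 := by
        have := hEn.pe 0
        rw [zero_add] at this
        exact this
      have h5 := (hE.alt 0 (by omega)).1 (by rw [← h6, ← hek]; exact hwk)
      exact absurd h5 (by decide)
    exact ⟨hm2, hje.symm, h1.symm, h2.symm, hf, hvk, hek⟩

end MGraph

end Pool.GOD
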