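import Pool.Agent.GOD.StmtS

/-!
The structure of a maximal end circuit with at least four edges of weight 2 (MP_7b7176_co).
-/

set_option autoImplicit false

namespace Pool.GOD

namespace MGraph

namespace SStruct

variable {V E : Type} [Fintype V] [DecidableEq V] [Fintype E] [DecidableEq E]

omit [Fintype V] in
/-- The edges of weight 2 of the first circuit are in the second circuit. -/
lemma sub_one {G : MGraph V E} {w : E → ℕ} {e0 : E} {x y : V} {t : ℕ} {D : ℕ → Finset E}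
    (hc : G.IsChain w e0 x y t D) : D 0 ∩ two w ⊆ D 1 := by
  intro f hf
  rw [Finset.mem_inter] at hf
  have hw : w f = 2 := by simpa [two] using hf.2
  have hne : f ≠ e0 := by
    rintro rfl
    exact hc.emem 0 hc.pos hf.1
  obtain ⟨i, hi, h1, h2, h3⟩ := hc.cover2 f hw hne
  rcases h3 0 hc.pos hf.1 with h | h
  · subst h
    exact h2
  · omega

end SStruct

open SStruct in
theorem s_Struct (hR : Stmt_S_EndRev) (hB : Stmt_S_Bonds) (hX : Stmt_S_Exch) (hK : Stmt_S_K) :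
    Stmt_S_Struct := by
  intro V E _ _ _ _ G w hS m hM hm e0 x y t D hc ht v0 e0' hE
  obtain ⟨N, v, e, k, f, hb, h0, h1, h2, h3, h4, h5⟩ :=
    hB V E G w hS e0 x y t D hc ht m v0 e0' hE (by omega)
  obtain ⟨N', v', e', k', f', hb', h0', h1', h2', h3', h4', h5'⟩ :=
    hB V E G w hS e0 x y t D hc ht m _ _ (hR V E G w (D 0) x m v0 e0' hE) (by omega)
  obtain ⟨hk, t1, D1, ht1, hc1, hD1, hn1⟩ := hX V E G w hS e0 x y t D hc ht N v e k f hb
  obtain ⟨hk', t2, D2, ht2, hc2, hD2, hn2⟩ := hX V E G w hS e0 x y t D hc ht N' v' e' k' f' hb'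
  have hle1 := hM _ _ _ _ _ hc1 ht1
  have hle2 := hM _ _ _ _ _ hc2 ht2
  rw [hn1] at hle1
  rw [hn2] at hle2
  have e1 : 2 * m + 1 - 1 - 1 % (2 * m + 1) = 2 * m - 1 := by
    rw [Nat.mod_eq_of_lt (by omega : 1 < 2 * m + 1)]
    omega
  have e3 : 2 * m + 1 - 1 - 3 % (2 * m + 1) = 2 * m - 3 := by
    rw [Nat.mod_eq_of_lt (by omega : 3 < 2 * m + 1)]
    omega
  have g0 : e' 0 = e0' (2 * m - 1) := by
    rw [h0']
    show e0' (2 * m + 1 - 1 - 1 % (2 * m + 1)) = _
    rw [e1]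
  have g5 : e' (2 * k' + 2) = e0' (2 * m - 3) := by
    rw [h5']
    show e0' (2 * m + 1 - 1 - 3 % (2 * m + 1)) = _
    rw [e3]
  obtain ⟨r1, r2, r3⟩ := hK V E G w (D 0) (D 1) x m v0 e0' (hc.circ 1 (by omega)) hE
    (sub_one hc) hm N v e k f hb h0 h5 N' v' e' k' f' hb' g0 g5 hk.pos hk'.pos hle1 hle2
  subst r1
  subst r2
  exact ⟨v, e, f, hb, h0, h1, h2, h3, h4, h5, r3⟩

end MGraph

end Pool.GOD
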