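import Pool.Agent.GOD.StmtS

set_option autoImplicit false
set_option linter.unusedSectionVars false

namespace Pool.GOD

namespace MGraph

namespace SSum

variable {V E : Type} [Fintype V] [DecidableEq V] [Fintype E] [DecidableEq E]

theorem mem_newEnd {N k : ℕ} {e : ℕ → E} {f g : E} :
    g ∈ newEnd N k e f ↔ g = f ∨ ∃ i, 2 * k + 2 ≤ i ∧ i < 2 * N ∧ e i = g := by
  unfold newEnd
  rw [Finset.mem_insert, Finset.mem_image]
  simp only [Finset.mem_Ico, and_assoc]

theorem mem_newOther {D0 : Finset E} {k : ℕ} {e : ℕ → E} {f g : E} :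
    g ∈ newOther D0 k e f ↔ (g ≠ f ∧ g ≠ e 0 ∧ g ∈ D0) ∨
      ∃ i, 0 < i ∧ i < 2 * k + 2 ∧ e i = g := by
  unfold newOther
  rw [Finset.mem_union, Finset.mem_erase, Finset.mem_erase, Finset.mem_image]
  simp only [Finset.mem_Ioo, and_assoc]

end SSum

open SSum in
theorem s_Sum : Stmt_S_Sum := by
  intro V E _ _ _ _ G w D0 D1 N v e k f hB g
  have hE : Enum G D1 (2 * N) v e := hB.toEnum
  have hlt := hB.lt
  have hf1 := hB.f1
  have hf0 := hB.f0
  have hfi : ∀ i, e i ≠ f := fun i h => hf1 (h ▸ hE.e_mem i)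
  unfold chi
  by_cases hg : g ∈ D1
  · obtain ⟨i, hi, rfl⟩ := (hE.mem g).1 hg
    have hEnd : e i ∈ newEnd N k e f ↔ 2 * k + 2 ≤ i := by
      rw [mem_newEnd]
      constructor
      · rintro (h | ⟨j, h1, h2, h3⟩)
        · exact absurd h (hfi i)
        · rw [← hE.inje j i h2 hi h3]
          exact h1
      · intro h
        exact Or.inr ⟨i, h, hi, rfl⟩
    have hOth : e i ∈ newOther D0 k e f ↔ (0 < i ∧ i < 2 * k + 2) ∨ (0 < i ∧ e i ∈ D0) := by
      rw [mem_newOther]
      constructor
      · rintro (⟨h1, h2, h3⟩ | ⟨j, h1, h2, h3⟩)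
        · right
          refine ⟨?_, h3⟩
          rcases Nat.eq_zero_or_pos i with h0 | h0
          · subst h0
            exact absurd rfl h2
          · exact h0
        · left
          rw [← hE.inje j i (by omega) hi h3]
          exact ⟨h1, h2⟩
      · rintro (⟨h1, h2⟩ | ⟨h1, h2⟩)
        · exact Or.inr ⟨i, h1, h2, rfl⟩
        · refine Or.inl ⟨hfi i, ?_, h2⟩
          intro h
          have := hE.inje i 0 hi (by omega) h
          omega
    have h0 : e i = e 0 ↔ i = 0 := by
      constructor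
      · intro h
        exact hE.inje i 0 hi (by omega) h
      · rintro rfl
        rfl
    simp only [hEnd, hOth, h0, hg, if_true]
    rcases Nat.eq_zero_or_pos i with hi0 | hi0
    · subst hi0
      simp [hB.q0]
    · by_cases hi1 : i < 2 * k + 2
      · have hn : e i ∉ D0 := hB.gap i hi0 hi1
        have h1 : ¬ (2 * k + 2 ≤ i) := by omega
        have h2 : i ≠ 0 := by omega
        simp [hn, hi0, hi1, h1, h2]
      · have h1 : 2 * k + 2 ≤ i := by omega
        have h2 : i ≠ 0 := by omega
        by_cases h3 : e i ∈ D0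
        · simp [h3, hi0, h1, h2]
        · simp [h3, hi1, h1, h2]
  · have h0 : g ≠ e 0 := fun h => hg (h ▸ hE.e_mem 0)
    have hEnd : g ∈ newEnd N k e f ↔ g = f := by
      rw [mem_newEnd]
      constructor
      · rintro (h | ⟨j, h1, h2, h3⟩)
        · exact h
        · exact absurd (h3 ▸ hE.e_mem j) hg
      · intro h
        exact Or.inl h
    have hOth : g ∈ newOther D0 k e f ↔ g ≠ f ∧ g ∈ D0 := by
      rw [mem_newOther]
      constructor
      · rintro (⟨h1, h2, h3⟩ | ⟨j, h1, h2, h3⟩)
        · exact ⟨h1, h3⟩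
        · exact absurd (h3 ▸ hE.e_mem j) hg
      · rintro ⟨h1, h2⟩
        exact Or.inl ⟨h1, h0, h2⟩
    simp only [hEnd, hOth, h0, hg, if_false]
    by_cases hgf : g = f
    · subst hgf
      simp [hf0]
    · simp [hgf]

end MGraph

end Pool.GOD
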