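import Pool.Agent.GOD.StmtS

/-!
Triangles of the torus system of the first two circuits of a chain are bonds, or pass through the
root (MP_7b7176_co, strong version).
-/

set_option autoImplicit false
set_option linter.unusedSectionVars false

namespace Pool.GOD

namespace MGraph

namespace STri

variable {V E : Type} [Fintype V] [DecidableEq V] [Fintype E] [DecidableEq E] {G : MGraph V E}
  {w : E → ℕ}

/-- common edges of different circuits of a chain have weight 2 -/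
theorem common_two (h : G.SP w) {e0 : E} {x y : V} {t : ℕ} {D : ℕ → Finset E}
    (hD : G.IsChain w e0 x y t D) (ht : 3 ≤ t) {f : E} (h0 : f ∈ D 0) (h1 : f ∈ D 1) :
    w f = 2 := by
  rcases h.val f with h2 | h2
  · exfalso
    obtain ⟨i, -, hi⟩ := hD.cover1 f h2
    have g0 := hi 0 ⟨by omega, h0⟩
    have g1 := hi 1 ⟨by omega, h1⟩
    omega
  · exact h2

/-- consecutive common edges on the end circuit -/
theorem next0 {D0 D1 : Finset E} {x : V} {m : ℕ} {v0 : ℕ → V} {e0' : ℕ → E}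
    (h0 : G.EndE w D0 x m v0 e0') (hsub : ∀ f, f ∈ D0 → w f = 2 → f ∈ D1)
    (hcom : ∀ f, f ∈ D0 → f ∈ D1 → w f = 2) (s s' : ↥(D0 ∩ D1))
    (hN : Lf.Next (fun s : ↥(D0 ∩ D1) => idx e0' s.1) Finset.univ s s') :
    (idx e0' s'.1 = idx e0' s.1 + 2 ∨ (idx e0' s.1 = 2 * m - 1 ∧ idx e0' s'.1 = 1)) ∧
      Odd (idx e0' s.1) ∧ Odd (idx e0' s'.1) := by
  have hs0 := (Finset.mem_inter.1 s.2).1
  have hs1 := (Finset.mem_inter.1 s.2).2
  have ht0 := (Finset.mem_inter.1 s'.2).1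
  have ht1 := (Finset.mem_inter.1 s'.2).2
  have is := h0.idx_lt hs0
  have it := h0.idx_lt ht0
  have es := h0.e_idx hs0
  have et := h0.e_idx ht0
  have os : Odd (idx e0' s.1) := (h0.alt _ is).1 (by rw [es]; exact hcom _ hs0 hs1)
  have ot : Odd (idx e0' s'.1) := (h0.alt _ it).1 (by rw [et]; exact hcom _ ht0 ht1)
  refine ⟨?_, os, ot⟩
  have hne : idx e0' s.1 ≠ idx e0' s'.1 := by
    intro h'
    exact hN.1 (Subtype.ext (by rw [← es, h', et]))
  -- the element at an odd position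
  have key : ∀ l, l < 2 * m + 1 → Odd l → l ≠ idx e0' s.1 → l ≠ idx e0' s'.1 →
      (idx e0' s.1 < idx e0' s'.1 ∧ idx e0' s'.1 < l) ∨
        (idx e0' s'.1 < l ∧ l < idx e0' s.1) ∨ (l < idx e0' s.1 ∧ idx e0' s.1 < idx e0' s'.1) := by
    intro l hl hodd n1 n2
    have hi : idx e0' (e0' l) = l := h0.idx_e hl
    have hm : e0' l ∈ D0 ∩ D1 :=
      Finset.mem_inter.2 ⟨h0.e_mem l, hsub _ (h0.e_mem l) ((h0.alt l hl).2 hodd)⟩
    have h1 := hN.2 ⟨e0' l, hm⟩ (Finset.mem_univ _) (by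
        intro h'
        apply n1
        have h2 := congrArg (fun s : ↥(D0 ∩ D1) => idx e0' s.1) h'
        simp only at h2
        rw [hi] at h2
        exact h2) (by
        intro h'
        apply n2
        have h2 := congrArg (fun s : ↥(D0 ∩ D1) => idx e0' s.1) h'
        simp only at h2
        rw [hi] at h2
        exact h2)
    unfold Cyc at h1
    simp only at h1
    rw [hi] at h1
    exact h1
  obtain ⟨i', hi'⟩ := os
  obtain ⟨j', hj'⟩ := ot
  by_cases c : idx e0' s.1 + 2 < 2 * m + 1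
  · left
    by_contra hc
    have k1 := key (idx e0' s.1 + 2) c ⟨i' + 1, by omega⟩ (by omega) (by omega)
    omega
  · right
    have hi : idx e0' s.1 = 2 * m - 1 := by omega
    refine ⟨hi, ?_⟩
    by_contra hc
    by_cases c1 : idx e0' s.1 = 1
    · omega
    · have k1 := key 1 (by omega) ⟨0, rfl⟩ (by omega) (by omega)
      omega

/-- bonds from enumerations of the second circuit -/
theorem mkBond (hM : Stmt_S_MidE) (h : G.SP w) {e0 : E} {x y : V} {t : ℕ} {D : ℕ → Finset E}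
    (hD : G.IsChain w e0 x y t D) (ht : 3 ≤ t) {n d : ℕ} {v : ℕ → V} {e : ℕ → E}
    (hE : Enum G (D 1) n v e) (h0 : e 0 ∈ D 0) (hd0 : 0 < d) (hdn : d < n) (hb : e d ∈ D 0)
    (hgap : ∀ l, 0 < l → l < d → e l ∉ D 0) {f : E} (f0 : f ∈ D 0) (wf : w f = 1)
    (ef : G.ends f = s(v 0, v d)) {a b : E} (ha : e 0 = a) (hbb : e d = b) :
    ∃ N v e k f, G.Bond w (D 0) (D 1) N v e k f ∧ e 0 = a ∧ e (2 * k + 2) = b := by
  have w0 : w (e 0) = 2 := common_two h hD ht h0 (hE.e_mem 0)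
  have wd : w (e d) = 2 := common_two h hD ht hb (hE.e_mem d)
  obtain ⟨hn, hall⟩ := hM V E G w h e0 x y t D hD ht n v e hE w0
  obtain ⟨k', hk'⟩ := (hall d).1 wd
  obtain ⟨k, rfl⟩ : ∃ k, k' = k + 1 := ⟨k' - 1, by omega⟩
  obtain rfl : d = 2 * k + 2 := by omega
  have f1 : f ∉ D 1 := by
    intro hf
    have := common_two h hD ht f0 hf
    omega
  refine ⟨(D 1 ∩ two w).card, v, e, k, f, ?_, ha, hbb⟩
  rw [hn] at hE hdn
  exact { toEnum := hE, alt := hall, q0 := h0, p0 := hb, lt := by omega, gap := hgap, f0 := f0,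
          f1 := f1, wf := wf, ef := ef }

/-- forward and backward bonds -/
theorem bond_fwd (hM : Stmt_S_MidE) (h : G.SP w) {e0 : E} {x y : V} {t : ℕ} {D : ℕ → Finset E}
    (hD : G.IsChain w e0 x y t D) (ht : 3 ≤ t) {n d i : ℕ} {v : ℕ → V} {e : ℕ → E}
    (hE : Enum G (D 1) n v e) {a b : E} (ha : e i = a) (ha0 : a ∈ D 0) (hd0 : 0 < d) (hdn : d < n)
    (hb : e (i + d) = b) (hb0 : b ∈ D 0) (hgap : ∀ l, 0 < l → l < d → e (i + l) ∉ D 0) {f : E}
    (f0 : f ∈ D 0) (wf : w f = 1) (ef : G.ends f = s(v i, v (i + d))) :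
    ∃ N v e k f, G.Bond w (D 0) (D 1) N v e k f ∧ e 0 = a ∧ e (2 * k + 2) = b := by
  refine mkBond hM h hD ht (hE.rot i) (d := d) ?_ hd0 hdn ?_ ?_ f0 wf ?_ ?_ ?_
  · show e (0 + i) ∈ D 0
    rw [Nat.zero_add, ha]; exact ha0
  · show e (d + i) ∈ D 0
    rw [Nat.add_comm, hb]; exact hb0
  · intro l l0 ld
    show e (l + i) ∉ D 0
    rw [Nat.add_comm]; exact hgap l l0 ld
  · show G.ends f = s(v (0 + i), v (d + i))
    rw [Nat.zero_add, Nat.add_comm d i]; exact ef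
  · show e (0 + i) = a
    rw [Nat.zero_add]; exact ha
  · show e (d + i) = b
    rw [Nat.add_comm]; exact hb

theorem bond_bwd (hM : Stmt_S_MidE) (h : G.SP w) {e0 : E} {x y : V} {t : ℕ} {D : ℕ → Finset E}
    (hD : G.IsChain w e0 x y t D) (ht : 3 ≤ t) {n d i : ℕ} {v : ℕ → V} {e : ℕ → E}
    (hE : Enum G (D 1) n v e) {a b : E} (hb : e i = b) (hb0 : b ∈ D 0) (hd0 : 0 < d) (hdn : d < n)
    (ha : e (i + d) = a) (ha0 : a ∈ D 0) (hgap : ∀ l, 0 < l → l < d → e (i + l) ∉ D 0) {f : E}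
    (f0 : f ∈ D 0) (wf : w f = 1) (ef : G.ends f = s(v (i + d + 1), v (i + 1))) :
    ∃ N v e k f, G.Bond w (D 0) (D 1) N v e k f ∧ e 0 = a ∧ e (2 * k + 2) = b := by
  have hn := hE.pos
  have hR := (hE.rot (i + d + 1)).rev
  have E1 : ∀ l, l < n → e (n - 1 - l % n + (i + d + 1)) = e (i + (d + n - l)) := by
    intro l hl
    rw [Nat.mod_eq_of_lt hl]
    congr 1
    omega
  have V1 : ∀ l, l < n → v (n - l % n + (i + d + 1)) = v (i + (d + 1 + n - l)) := by
    intro l hl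
    rw [Nat.mod_eq_of_lt hl]
    congr 1
    omega
  have Ea : e (n - 1 - 0 % n + (i + d + 1)) = a := by
    rw [E1 0 hn, Nat.sub_zero, ← Nat.add_assoc, hE.pe, ha]
  have Eb : e (n - 1 - d % n + (i + d + 1)) = b := by
    rw [E1 d hdn, show d + n - d = n by omega, hE.pe, hb]
  refine mkBond hM h hD ht hR (d := d) ?_ hd0 hdn ?_ ?_ f0 wf ?_ Ea Eb
  · show e (n - 1 - 0 % n + (i + d + 1)) ∈ D 0
    rw [Ea]; exact ha0
  · show e (n - 1 - d % n + (i + d + 1)) ∈ D 0
    rw [Eb]; exact hb0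
  · intro l l0 ld
    show e (n - 1 - l % n + (i + d + 1)) ∉ D 0
    rw [E1 l (by omega), show i + (d + n - l) = i + (d - l) + n by omega, hE.pe]
    exact hgap _ (by omega) (by omega)
  · show G.ends f = s(v (n - 0 % n + (i + d + 1)), v (n - d % n + (i + d + 1)))
    rw [V1 0 hn, V1 d hdn, show i + (d + 1 + n - 0) = i + d + 1 + n by omega,
      show i + (d + 1 + n - d) = i + 1 + n by omega, hE.pv, hE.pv]
    exact ef

end STri

open STri in
theorem s_Tri (hE : Stmt_S_EndE) (hM : Stmt_S_MidE) (hN : Stmt_S_Next) : Stmt_S_Tri := by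
  intro V E _ _ _ _ G w h e0 x y t D hD ht m v0 e0' n1 v1 e1 h0 h1 a b hT
  have hsub : ∀ f, f ∈ D 0 → w f = 2 → f ∈ D 1 := by
    intro f f0 wf
    have hs := (hE V E G w h e0 x y t D hD (by omega)).1
    exact hs (Finset.mem_inter.2 ⟨f0, by simp [two, wf]⟩)
  have hcom : ∀ f, f ∈ D 0 → f ∈ D 1 → w f = 2 := fun f f0 f1 => common_two h hD ht f0 f1
  obtain ⟨-, -, hc, hT⟩ := hT
  have a0 : a.1 ∈ D 0 := (Finset.mem_inter.1 a.2).1
  have a1 : a.1 ∈ D 1 := (Finset.mem_inter.1 a.2).2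
  have b0 : b.1 ∈ D 0 := (Finset.mem_inter.1 b.2).1
  have b1 : b.1 ∈ D 1 := (Finset.mem_inter.1 b.2).2
  have Ea0 := h0.e_idx a0
  have Eb0 := h0.e_idx b0
  have Ea1 := h1.e_idx a1
  have Eb1 := h1.e_idx b1
  have ila := h0.idx_lt a0
  have ilb := h0.idx_lt b0
  have hx : (colour v0 e0' v1 e1 a = true ∧ colour v0 e0' v1 e1 b = false) ∨
      (colour v0 e0' v1 e1 a = false ∧ colour v0 e0' v1 e1 b = true) := by
    revert hc
    cases colour v0 e0' v1 e1 a <;> cases colour v0 e0' v1 e1 b <;> simp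
  have wone : ∀ i, i < 2 * m + 1 → ¬ Odd i → w (e0' i) = 1 := by
    intro i hi hodd
    rcases h.val (e0' i) with h2 | h2
    · exact h2
    · exact absurd ((h0.alt i hi).1 h2) hodd
  rcases hT with ⟨hp, hr, hb⟩ | ⟨hp, hr, hb⟩
  · obtain ⟨hpos, ob, oa⟩ := next0 h0 hsub hcom b a hp
    rcases hpos with hpos | ⟨hpos1, hpos2⟩
    · right; right
      set i := idx e0' b.1 with hi
      have f0 : e0' (i + 1) ∈ D 0 := h0.e_mem _
      have wf : w (e0' (i + 1)) = 1 := wone _ (by omega) (by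
        rw [Nat.not_odd_iff_even]; exact ob.add_one)
      have ef : G.ends (e0' (i + 1)) = s(v0 (i + 1), v0 (i + 2)) := h0.ends _
      rcases hx with ⟨ca, cb⟩ | ⟨ca, cb⟩
      · -- `b` blue, `a` red
        obtain ⟨d, d0, dn, hd, hg⟩ := hN V E G (D 0) (D 1) n1 v1 e1 h1 a b (hb cb)
        have da := (dir_of h0.toEnum h1 Ea0 Ea1).1 ((colour_true _).1 ca)
        have db := (dir_of h0.toEnum h1 Eb0 hd).2 ((colour_false _).1 cb)
        refine bond_fwd hM h hD ht h1 Ea1 a0 d0 dn hd b0 hg f0 wf ?_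
        rw [ef, ← da.1, ← db.2, hpos, Sym2.eq_swap]
      · -- `b` red, `a` blue
        obtain ⟨d, d0, dn, hd, hg⟩ := hN V E G (D 0) (D 1) n1 v1 e1 h1 b a (hr cb)
        have db := (dir_of h0.toEnum h1 Eb0 Eb1).1 ((colour_true _).1 cb)
        have da := (dir_of h0.toEnum h1 Ea0 hd).2 ((colour_false _).1 ca)
        refine bond_bwd hM h hD ht h1 Eb1 b0 d0 dn hd a0 hg f0 wf ?_
        rw [ef, ← da.1, ← db.2, hpos, Sym2.eq_swap]
    · left
      exact ⟨by rw [← Ea0, hpos2], by rw [← Eb0, hpos1]⟩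
  · obtain ⟨hpos, oa, ob⟩ := next0 h0 hsub hcom a b hp
    rcases hpos with hpos | ⟨hpos1, hpos2⟩
    · right; right
      set j := idx e0' a.1 with hj
      have f0 : e0' (j + 1) ∈ D 0 := h0.e_mem _
      have wf : w (e0' (j + 1)) = 1 := wone _ (by omega) (by
        rw [Nat.not_odd_iff_even]; exact oa.add_one)
      have ef : G.ends (e0' (j + 1)) = s(v0 (j + 1), v0 (j + 2)) := h0.ends _
      rcases hx with ⟨ca, cb⟩ | ⟨ca, cb⟩
      · -- `b` blue, `a` red
        obtain ⟨d, d0, dn, hd, hg⟩ := hN V E G (D 0) (D 1) n1 v1 e1 h1 b a (hb cb)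
        have da := (dir_of h0.toEnum h1 Ea0 hd).1 ((colour_true _).1 ca)
        have db := (dir_of h0.toEnum h1 Eb0 Eb1).2 ((colour_false _).1 cb)
        refine bond_bwd hM h hD ht h1 Eb1 b0 d0 dn hd a0 hg f0 wf ?_
        rw [ef, ← da.2, ← db.1, hpos]
      · -- `b` red, `a` blue
        obtain ⟨d, d0, dn, hd, hg⟩ := hN V E G (D 0) (D 1) n1 v1 e1 h1 a b (hr cb)
        have da := (dir_of h0.toEnum h1 Ea0 Ea1).2 ((colour_false _).1 ca)
        have db := (dir_of h0.toEnum h1 Eb0 hd).1 ((colour_true _).1 cb)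
        refine bond_fwd hM h hD ht h1 Ea1 a0 d0 dn hd b0 hg f0 wf ?_
        rw [ef, ← da.2, ← db.1, hpos]
    · right; left
      exact ⟨by rw [← Ea0, hpos1], by rw [← Eb0, hpos2]⟩

end MGraph

end Pool.GOD
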