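import Pool.Agent.GOD.StmtS

/-!
Module GSV_Uniq: two enumerations of a circuit which start with the same edge.
-/

set_option autoImplicit false
set_option linter.unusedSectionVars false

namespace Pool.GOD

namespace MGraph

namespace SUniq

variable {V E : Type} [Fintype V] [DecidableEq V] [Fintype E] [DecidableEq E]
  {G : MGraph V E} {D : Finset E} {n : ℕ} {v v' : ℕ → V} {e e' : ℕ → E}

theorem card_eq (h : Enum G D n v e) : D.card = n := by
  have h1 : D = (Finset.range n).image e := by
    ext f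
    rw [h.mem f, Finset.mem_image]
    constructor
    · rintro ⟨i, hi, rfl⟩
      exact ⟨i, Finset.mem_range.2 hi, rfl⟩
    · rintro ⟨i, hi, rfl⟩
      exact ⟨i, Finset.mem_range.1 hi, rfl⟩
  rw [h1, Finset.card_image_of_injOn, Finset.card_range]
  intro i hi j hj hij
  exact h.inje i j (Finset.mem_range.1 hi) (Finset.mem_range.1 hj) hij

theorem succ_ne (h : Enum G D n v e) (i : ℕ) : e i ≠ e (i + 1) := by
  intro hc
  have h1 := (h.e_eq_iff _ _).1 hc
  have h2 := h.two
  have h3 : (i % n) < n := Nat.mod_lt _ h.pos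
  have h4 : (i + 1) % n = (i % n + 1) % n := by rw [Nat.mod_add_mod]
  rw [h4] at h1
  by_cases h5 : i % n + 1 < n
  · rw [Nat.mod_eq_of_lt h5] at h1
    omega
  · have h6 : i % n + 1 = n := by omega
    rw [h6, Nat.mod_self] at h1
    omega

theorem left_mem (h : Enum G D n v e) (i : ℕ) : v i ∈ G.ends (e i) := by
  rw [h.ends i]
  exact Sym2.mem_mk_left _ _

theorem right_mem (h : Enum G D n v e) (i : ℕ) : v (i + 1) ∈ G.ends (e i) := by
  rw [h.ends i]
  exact Sym2.mem_mk_right _ _

theorem same (hD : G.IsCircuit D) (h : Enum G D n v e) (h' : Enum G D n v' e')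
    (h0 : e' 0 = e 0) (h1 : v' 1 = v 1) : ∀ i, e' i = e i ∧ v' (i + 1) = v (i + 1) := by
  intro i
  induction i with
  | zero => exact ⟨h0, h1⟩
  | succ i ih =>
    obtain ⟨ih1, ih2⟩ := ih
    have a1 : v (i + 1) ∈ G.ends (e i) := right_mem h i
    have a2 : v (i + 1) ∈ G.ends (e (i + 1)) := left_mem h (i + 1)
    have a3 : v (i + 1) ∈ G.ends (e' (i + 1)) := by
      rw [← ih2]
      exact left_mem h' (i + 1)
    have a4 : G.deg D (v (i + 1)) = 2 := hD.deg_eq_two (h.e_mem i) a1
    have a5 := eq_or_eq_of_deg_two a4 (h.e_mem i) (h.e_mem (i + 1)) (h'.e_mem (i + 1)) a1 a2 a3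
      (succ_ne h i)
    have a6 : e' (i + 1) = e (i + 1) := by
      rcases a5 with a5 | a5
      · exact absurd (ih1.trans a5.symm) (succ_ne h' i)
      · exact a5
    refine ⟨a6, ?_⟩
    have a7 := h'.ends (i + 1)
    rw [a6, h.ends (i + 1), ih2, Sym2.eq_iff] at a7
    rcases a7 with ⟨_, a8⟩ | ⟨a8, a9⟩
    · exact a8.symm
    · rw [← a8, ← a9]

end SUniq

open SUniq

theorem s_Uniq : Stmt_S_Uniq := by
  intro V E _ _ _ _ G D n v e n' v' e' hD h h' h0
  have hn : n = n' := (card_eq h).symm.trans (card_eq h')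
  subst hn
  refine ⟨rfl, ?_⟩
  have h1 := h'.ends 0
  rw [h0, h.ends 0, Sym2.eq_iff] at h1
  rcases h1 with ⟨_, h2⟩ | ⟨h2, h3⟩
  · left
    intro i
    exact (same hD h h' h0 h2.symm i).1
  · right
    have hn2 := h.two
    have hr := h.rev.rot (n - 1)
    have e0 : (n - 1) % n = n - 1 := Nat.mod_eq_of_lt (by omega)
    have k := same hD hr h' (by
      show e' 0 = e (n - 1 - (0 + (n - 1)) % n)
      rw [Nat.zero_add, e0, Nat.sub_self, h0]) (by
      show v' 1 = v (n - (1 + (n - 1)) % n)
      rw [show 1 + (n - 1) = n by omega, Nat.mod_self, Nat.sub_zero]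
      have h4 := h.pv 0
      rw [Nat.zero_add] at h4
      rw [h4]
      exact h2.symm)
    intro i hi
    have k1 := (k i).1
    have k2 : e' i = e (n - 1 - (i + (n - 1)) % n) := k1
    rw [k2]
    by_cases hi0 : i = 0
    · subst hi0
      rw [Nat.zero_add, e0, Nat.sub_self, Nat.sub_zero]
      have h4 := h.pe 0
      rw [Nat.zero_add] at h4
      exact h4.symm
    · have h5 : (i + (n - 1)) % n = i - 1 := by
        rw [show i + (n - 1) = (i - 1) + n by omega, Nat.add_mod_right]
        exact Nat.mod_eq_of_lt (by omega)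
      rw [h5, show n - 1 - (i - 1) = n - i by omega]

end MGraph

end Pool.GOD
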