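import Pool.Agent.GOD.StmtS

/-!
Module Bonds (strong version of Q1 of MP_7b7176_co): the bond at the beginning of the first
circuit.
-/

set_option autoImplicit false
set_option linter.unusedSectionVars false

namespace Pool.GOD

namespace MGraph

theorem s_Bonds (hC : Stmt_S_Cut) (hT : Stmt_S_Tri) (hP : Stmt_S_Pos) : Stmt_S_Bonds := by
  intro V E _ _ _ _ G w h e0 x y t D hc ht m v0 e0' hE hm
  obtain ⟨n1, v1, e1, h1⟩ := (hc.circ 1 (by omega)).exists_enum
  have hEn : Enum G (D 0) (2 * m + 1) v0 e0' := hE.toEnum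
  obtain ⟨hp, hq, hcut⟩ := hC V E G w h e0 x y t D hc ht _ v0 e0' n1 v1 e1 hEn h1
  have hsub : ∀ f, f ∈ D 0 → w f = 2 → f ∈ D 1 := by
    intro f f0 wf
    have hfe : f ≠ e0 := fun hh => hc.emem 0 (by omega) (hh ▸ f0)
    obtain ⟨i, hi, hfi, hfi1, hu⟩ := hc.cover2 f wf hfe
    rcases hu 0 (by omega) f0 with h0 | h0
    · rw [← h0] at hfi1
      exact hfi1
    · omega
  have hmem : ∀ i, i < 2 * m + 1 → Odd i → e0' i ∈ D 0 ∩ D 1 := fun i hi ho =>
    Finset.mem_inter.2 ⟨hEn.e_mem i, hsub _ (hEn.e_mem i) ((hE.alt i hi).2 ho)⟩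
  have hcard : 3 ≤ (Finset.univ : Finset ↥(D 0 ∩ D 1)).card := by
    rw [Finset.card_univ, Fintype.card_coe]
    have h3 : ({e0' 1, e0' 3, e0' 5} : Finset E) ⊆ D 0 ∩ D 1 := by
      intro f hf
      simp only [Finset.mem_insert, Finset.mem_singleton] at hf
      rcases hf with rfl | rfl | rfl
      · exact hmem 1 (by omega) (by decide)
      · exact hmem 3 (by omega) (by decide)
      · exact hmem 5 (by omega) (by decide)
    have h4 : ({e0' 1, e0' 3, e0' 5} : Finset E).card = 3 := by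
      rw [Finset.card_eq_three]
      refine ⟨_, _, _, ?_, ?_, ?_, rfl⟩
      · intro hh
        have := hEn.inje 1 3 (by omega) (by omega) hh
        omega
      · intro hh
        have := hEn.inje 1 5 (by omega) (by omega) hh
        omega
      · intro hh
        have := hEn.inje 3 5 (by omega) (by omega) hh
        omega
    exact h4 ▸ Finset.card_le_card h3
  have hne : e0' 1 ≠ e0' (2 * m - 1) := by
    intro hh
    have := hEn.inje 1 (2 * m - 1) (by omega) (by omega) hh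
    omega
  obtain ⟨a, b, a', b', T, T', g1, g2, g3⟩ := two_triangles_of_hwc hp hq hcut.hwc hcard
  have key : ∀ a b : ↥(D 0 ∩ D 1), Lf.Tri (fun s : ↥(D 0 ∩ D 1) => idx e0' s.1)
      (fun s : ↥(D 0 ∩ D 1) => idx e1 s.1) (colour v0 e0' v1 e1) Finset.univ a b →
      (a.1 = e0' 1 ∧ b.1 = e0' (2 * m - 1)) ∨ (a.1 = e0' (2 * m - 1) ∧ b.1 = e0' 1) ∨
      (a.1 = e0' 1 ∧ ∃ N v e k f, G.Bond w (D 0) (D 1) N v e k f ∧ e 0 = e0' 1 ∧ v 1 = v0 1 ∧
        v 0 = v0 2 ∧ f = e0' 2 ∧ v (2 * k + 2) = v0 3 ∧ e (2 * k + 2) = e0' 3) ∨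
      a.1 = e0' (2 * m - 1) := by
    intro a b hab
    rcases hT V E G w h e0 x y t D hc ht m v0 e0' n1 v1 e1 hE h1 a b hab with
      h2 | h2 | ⟨N, v, e, k, f, hB, h2, -⟩
    · exact Or.inl h2
    · exact Or.inr (Or.inl h2)
    · rcases hP V E G w h e0 x y t D hc ht m v0 e0' hE N v e k f hB with
        ⟨-, h3, h4, h5, h6, h7, h8⟩ | ⟨-, h3, -⟩
      · exact Or.inr (Or.inr (Or.inl ⟨by rw [← h2, h3], N, v, e, k, f, hB, h3, h4, h5, h6, h7,
          h8⟩))
      · exact Or.inr (Or.inr (Or.inr (by rw [← h2, h3])))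
  have hab : a.1 ≠ a'.1 := fun hh => g1 (Subtype.ext hh)
  have hab2 : a'.1 ≠ b.1 := fun hh => g2 (Subtype.ext hh)
  have hab3 : b'.1 ≠ a.1 := fun hh => g3 (Subtype.ext hh)
  have hmem2 : ∀ a b : ↥(D 0 ∩ D 1), Lf.Tri (fun s : ↥(D 0 ∩ D 1) => idx e0' s.1)
      (fun s : ↥(D 0 ∩ D 1) => idx e1 s.1) (colour v0 e0' v1 e1) Finset.univ a b →
      a.1 = e0' 1 ∨ a.1 = e0' (2 * m - 1) := by
    intro a b hab
    rcases key a b hab with h2 | h2 | h2 | h2
    · exact Or.inl h2.1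
    · exact Or.inr h2.1
    · exact Or.inl h2.1
    · exact Or.inr h2
  rcases key a b T with h2 | h2 | h2 | h2
  · exfalso
    rcases hmem2 a' b' T' with h3 | h3
    · exact hab (h2.1.trans h3.symm)
    · exact hab2 (h3.trans h2.2.symm)
  · exfalso
    rcases hmem2 a' b' T' with h3 | h3
    · exact hab2 (h3.trans h2.2.symm)
    · exact hab (h2.1.trans h3.symm)
  · exact h2.2
  · rcases key a' b' T' with h3 | h3 | h3 | h3
    · exact absurd (h3.2.trans h2.symm) hab3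
    · exact absurd (h2.trans h3.1.symm) hab
    · exact h3.2
    · exact absurd (h2.trans h3.symm) hab

end MGraph

end Pool.GOD
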