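import Pool.Agent.GOD.StmtS

/-!
The exchange (MP_7b7176_co, module `GSV_Exch`): a bond of the first two circuits of a chain gives
a chain for its leaf.
-/

set_option autoImplicit false
set_option linter.unusedSectionVars false

namespace Pool.GOD

namespace MGraph

namespace SExch

variable {V E : Type} [Fintype V] [DecidableEq V] [Fintype E] [DecidableEq E] {G : MGraph V E}
  {w : E → ℕ} {e0 : E} {x y : V} {t : ℕ} {D : ℕ → Finset E}

lemma chi_pos {T : Finset E} {f : E} (h : f ∈ T) : chi T f = 1 := by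
  unfold chi; rw [if_pos h]

lemma chi_neg {T : Finset E} {f : E} (h : f ∉ T) : chi T f = 0 := by
  unfold chi; rw [if_neg h]

lemma chi_ne {T : Finset E} {f : E} (h : chi T f ≠ 0) : f ∈ T := by
  by_contra h'
  exact h (chi_neg h')

lemma mem_two {f : E} : f ∈ two w ↔ w f = 2 := by
  simp [two]

/-- two edges of weight 2 with a common end are equal -/
lemma two_unique (h : G.SP w) {f g : E} {v : V} (hf : w f = 2) (hg : w g = 2)
    (h1 : v ∈ G.ends f) (h2 : v ∈ G.ends g) : f = g := by
  have h3 := h.d2 v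
  unfold deg at h3
  rw [Finset.card_eq_one] at h3
  obtain ⟨a, ha⟩ := h3
  have e1 : f ∈ (two w).filter (fun e => v ∈ G.ends e) := by
    rw [Finset.mem_filter]; exact ⟨by simp [two, hf], h1⟩
  have e2 : g ∈ (two w).filter (fun e => v ∈ G.ends e) := by
    rw [Finset.mem_filter]; exact ⟨by simp [two, hg], h2⟩
  rw [ha, Finset.mem_singleton] at e1 e2
  rw [e1, e2]

/-- the weight is the sum of the indicator functions of the circuits -/
lemma sum_chi (h : G.SP w) (hD : G.IsChain w e0 x y t D) {f : E} (hf : f ≠ e0) :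
    w f = ∑ i ∈ Finset.range t, chi (D i) f := by
  rcases h.val f with h' | h'
  · obtain ⟨i, ⟨hi1, hi2⟩, hi⟩ := hD.cover1 f h'
    rw [Finset.sum_eq_single i]
    · rw [h', chi_pos hi2]
    · intro j hj hji
      refine chi_neg fun h2 => hji (hi j ⟨Finset.mem_range.1 hj, h2⟩)
    · intro h2
      exact absurd (Finset.mem_range.2 hi1) h2
  · obtain ⟨i, hi1, hi2, hi3, hi⟩ := hD.cover2 f h' hf
    have hs : ({i, i + 1} : Finset ℕ) ⊆ Finset.range t := by
      intro j hj
      rw [Finset.mem_insert, Finset.mem_singleton] at hj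
      rw [Finset.mem_range]
      omega
    rw [← Finset.sum_subset hs]
    · rw [Finset.sum_pair (by omega), h', chi_pos hi2, chi_pos hi3]
    · intro j hj hj'
      refine chi_neg fun h2 => hj' ?_
      rw [Finset.mem_insert, Finset.mem_singleton]
      exact hi j (Finset.mem_range.1 hj) h2

/-- the edge `e0` has weight 2 -/
lemma root_two (h : G.SP w) (hD : G.IsChain w e0 x y t D) : w e0 = 2 := by
  rcases h.val e0 with h' | h'
  · obtain ⟨i, ⟨h1, h2⟩, -⟩ := hD.cover1 e0 h'
    exact absurd h2 (hD.emem i h1)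
  · exact h'

/-- edges of even subgraphs are not bridges -/
lemma not_bridge {R T : Finset E} (hT : G.IsEven T) (hTR : T ⊆ R) {u : E} (hu : u ∈ T) :
    ¬ G.IsBridge R u := by
  intro hb
  have h1 := hT.bridgeless G u
  refine h1 ⟨hu, fun a b hab hc => hb.2 a b hab (ConnIn.mono ?_ hc)⟩
  exact Finset.erase_subset_erase u hTR

/-- the number of edges of weight 2 of an end circuit -/
lemma card_end {C : Finset E} {m : ℕ} {v : ℕ → V} {e : ℕ → E} (he : G.EndE w C x m v e) :
    (C ∩ two w).card = m := by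
  have himg : C ∩ two w = (Finset.range m).image (fun j => e (2 * j + 1)) := by
    ext f
    rw [Finset.mem_inter, mem_two, he.mem f, Finset.mem_image]
    constructor
    · rintro ⟨⟨i, hi, rfl⟩, h2⟩
      obtain ⟨j, hj⟩ := (he.alt i hi).1 h2
      refine ⟨j, Finset.mem_range.2 (by omega), ?_⟩
      rw [← hj]
    · rintro ⟨j, hj, rfl⟩
      have hj' := Finset.mem_range.1 hj
      have h1 : 2 * j + 1 < 2 * m + 1 := by omega
      exact ⟨⟨2 * j + 1, h1, rfl⟩, (he.alt _ h1).2 ⟨j, rfl⟩⟩
  rw [himg, Finset.card_image_of_injOn, Finset.card_range]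
  intro i hi j hj hij
  have hi' := Finset.mem_range.1 (Finset.mem_coe.1 hi)
  have hj' := Finset.mem_range.1 (Finset.mem_coe.1 hj)
  have := he.inje (2 * i + 1) (2 * j + 1) (by omega) (by omega) hij
  omega

/-- the number of edges of weight 2 of an alternating circuit -/
lemma card_alt {C : Finset E} {N : ℕ} {v : ℕ → V} {e : ℕ → E} (he : Enum G C (2 * N) v e)
    (ha : ∀ i, w (e i) = 2 ↔ Even i) : (C ∩ two w).card = N := by
  have himg : C ∩ two w = (Finset.range N).image (fun j => e (2 * j)) := by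
    ext f
    rw [Finset.mem_inter, mem_two, he.mem f, Finset.mem_image]
    constructor
    · rintro ⟨⟨i, hi, rfl⟩, h2⟩
      obtain ⟨j, hj⟩ := (ha i).1 h2
      refine ⟨j, Finset.mem_range.2 (by omega), ?_⟩
      rw [hj, two_mul]
    · rintro ⟨j, hj, rfl⟩
      have hj' := Finset.mem_range.1 hj
      exact ⟨⟨2 * j, by omega, rfl⟩, (ha _).2 (even_two_mul j)⟩
  rw [himg, Finset.card_image_of_injOn, Finset.card_range]
  intro i hi j hj hij
  have hi' := Finset.mem_range.1 (Finset.mem_coe.1 hi)
  have hj' := Finset.mem_range.1 (Finset.mem_coe.1 hj)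
  have := he.inje (2 * i) (2 * j) (by omega) (by omega) hij
  omega

/-- the later circuits of a chain are connected to a vertex on `D 2` -/
lemma conn_chain (hD : G.IsChain w e0 x y t D) {R : Finset E}
    (hR : ∀ i, 2 ≤ i → i < t → D i ⊆ R) {a z : V} (haz : G.ConnIn R a z)
    (hz : G.deg (D 2) z = 2) : ∀ i, 2 ≤ i → i < t → ∀ u, G.deg (D i) u = 2 → G.ConnIn R a u := by
  intro i hi
  induction i, hi using Nat.le_induction with
  | base =>
    intro ht u hu
    exact haz.trans (ConnIn.mono (hR 2 (le_refl 2) ht) ((hD.circ 2 ht).2.2 z u hz hu))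
  | succ i hi ih =>
    intro ht u hu
    obtain ⟨g, -, hg1, hg2⟩ := hD.meet i ht
    obtain ⟨b, c, -, hbc⟩ := G.exists_ends g
    have hb : b ∈ G.ends g := by
      rw [hbc]
      exact Sym2.mem_mk_left _ _
    have h1 := (hD.circ i (by omega)).deg_eq_two hg1 hb
    have h2 := (hD.circ (i + 1) ht).deg_eq_two hg2 hb
    exact (ih (by omega) b h1).trans
      (ConnIn.mono (hR (i + 1) (by omega) ht) ((hD.circ (i + 1) ht).2.2 b u h2 hu))

end SExch

open SExch in
theorem s_Exch (hN : Stmt_S_NewEnd) (hO : Stmt_S_NewOther) (hS : Stmt_S_Sum) : Stmt_S_Exch := by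
  intro V E _ _ _ _ G w h e0 x y t D hD ht N v e k f hB
  have hsum := hS V E G w (D 0) (D 1) N v e k f hB
  have hdeg3 : ∀ (T : Finset E) (a : V), G.deg T a ≤ 3 := by
    intro T a
    have h1 := G.deg_mono (Finset.subset_univ T) a
    rw [h.mc.1 a] at h1
    exact h1
  obtain ⟨hBc, hBd⟩ := hO V E G w (D 0) (D 1) N v e k f hdeg3 (hD.circ 0 (by omega)) hB
  obtain ⟨v', e', hE, -, -, -⟩ := hN V E G w (D 0) (D 1) N v e k f hB
  have hcardC := card_end hE
  have hlt := hB.lt
  set C : Finset E := newEnd N k e f with hC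
  set B : Finset E := newOther (D 0) k e f with hBdef
  -- `C` is a circuit
  have hCc : G.IsCircuit C := hE.toCWalk.isCircuit hE.inje hE.mem (hdeg3 C)
  have hEvenC : Even (N - k - 1) := by
    rw [← hcardC]
    exact h.par C hCc.isEven
  have hEvenN : Even N := by
    have h1 := card_alt hB.toEnum hB.alt
    rw [← h1]
    exact h.par _ (hD.circ 1 (by omega)).isEven
  have hk : Odd k := by
    obtain ⟨a, ha⟩ := hEvenC
    obtain ⟨b, hb⟩ := hEvenN
    exact ⟨b - a - 1, by omega⟩
  have hk1 : 1 ≤ k := by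
    obtain ⟨a, ha⟩ := hk
    omega
  refine ⟨hk, ?_⟩
  -- basic facts
  have w0 : w (e 0) = 2 := (hB.alt 0).2 (by decide)
  have we0 : w e0 = 2 := root_two h hD
  have hne : e 0 ≠ e0 := by
    intro h1
    exact hD.emem 0 (by omega) (h1 ▸ hB.q0)
  have hmem1 : ∀ i, e i ∈ D 1 := hB.e_mem
  have he0C : e 0 ∉ C := by
    rw [hC]
    unfold newEnd
    rw [Finset.mem_insert, Finset.mem_image]
    rintro (h1 | ⟨i, hi, h1⟩)
    · exact hB.f1 (h1 ▸ hmem1 0)
    · rw [Finset.mem_Ico] at hi
      have := hB.inje i 0 hi.2 (by omega) h1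
      omega
  have he0B : e 0 ∉ B := by
    intro h1
    have h2 := hsum (e 0)
    rw [chi_pos hB.q0, chi_pos (hmem1 0), if_pos rfl, chi_pos h1] at h2
    omega
  have hr0 : e0 ∉ D 0 := hD.emem 0 (by omega)
  have hr1 : e0 ∉ D 1 := hD.emem 1 (by omega)
  have hrs := hsum e0
  rw [chi_neg hr0, chi_neg hr1, if_neg hne.symm] at hrs
  have hrC : e0 ∉ C := by
    intro h1
    rw [chi_pos h1] at hrs
    omega
  have hrB : e0 ∉ B := by
    intro h1
    rw [chi_pos h1] at hrs
    omega
  -- `e 0` is not in the later circuits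
  have he0D : ∀ i, 2 ≤ i → i < t → e 0 ∉ D i := by
    intro i hi hit h1
    obtain ⟨j, -, -, -, hj⟩ := hD.cover2 (e 0) w0 hne
    have h2 := hj 0 (by omega) hB.q0
    have h3 := hj i hit h1
    omega
  -- the weights
  obtain ⟨s, rfl⟩ : ∃ s, t = s + 2 := ⟨t - 2, by omega⟩
  have hw : ∀ g, g ≠ e0 → g ≠ e 0 → w g = chi C g + chi B g +
      ∑ i ∈ Finset.range s, chi (D (i + 2)) g := by
    intro g hg hg'
    have h1 := hsum g
    rw [if_neg hg'] at h1
    rw [SExch.sum_chi h hD hg, Finset.sum_range_succ', Finset.sum_range_succ']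
    simp only [zero_add]
    have h2 : ∑ i ∈ Finset.range s, chi (D (i + 1 + 1)) g =
        ∑ i ∈ Finset.range s, chi (D (i + 2)) g := rfl
    rw [h2]
    omega
  have hcL : ∀ g, [C].countP (fun C => decide (g ∈ C)) = chi C g := by
    intro g
    unfold chi
    by_cases hg : g ∈ C <;> simp [hg]
  have hle : ∀ g, chi C g ≤ w g := by
    intro g
    have h1 : chi C g ≤ 1 := by
      unfold chi
      split_ifs <;> omega
    rcases h.val g with h2 | h2 <;> omega
  set R : Finset E := (Finset.univ.erase (e 0)).filter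
    (fun f => [C].countP (fun C => decide (f ∈ C)) < w f) with hR
  have memR : ∀ g, g ∈ R ↔ g ≠ e 0 ∧ chi C g < w g := by
    intro g
    rw [hR, Finset.mem_filter, Finset.mem_erase, hcL]
    simp
  have hBR : B ⊆ R.erase e0 := by
    intro g hg
    have g1 : g ≠ e0 := by
      rintro rfl
      exact hrB hg
    have g2 : g ≠ e 0 := by
      rintro rfl
      exact he0B hg
    rw [Finset.mem_erase, memR]
    refine ⟨g1, g2, ?_⟩
    rw [hw g g1 g2, chi_pos hg]
    omega
  have hDR : ∀ i, 2 ≤ i → i < s + 2 → D i ⊆ R.erase e0 := by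
    intro i hi hit g hg
    have g1 : g ≠ e0 := by
      rintro rfl
      exact hD.emem i hit hg
    have g2 : g ≠ e 0 := by
      rintro rfl
      exact he0D i hi hit hg
    rw [Finset.mem_erase, memR]
    refine ⟨g1, g2, ?_⟩
    obtain ⟨j, rfl⟩ : ∃ j, i = j + 2 := ⟨i - 2, by omega⟩
    have h1 : chi (D (j + 2)) g ≤ ∑ i ∈ Finset.range s, chi (D (i + 2)) g :=
      Finset.single_le_sum (f := fun i => chi (D (i + 2)) g) (fun _ _ => Nat.zero_le _)
        (Finset.mem_range.2 (by omega))
    rw [chi_pos hg] at h1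
    rw [hw g g1 g2]
    omega
  -- the edge `e 2`
  have hr2B : e 2 ∈ B := by
    rw [hBdef]
    unfold newOther
    rw [Finset.mem_union]
    right
    rw [Finset.mem_image]
    exact ⟨2, Finset.mem_Ioo.2 ⟨by omega, by omega⟩, rfl⟩
  have hr2D : e 2 ∈ D 2 := by
    have h1 : w (e 2) = 2 := (hB.alt 2).2 (by decide)
    have h2 : e 2 ≠ e0 := by
      intro h3
      exact hr1 (h3 ▸ hmem1 2)
    obtain ⟨i, hi, h3, h4, h5⟩ := hD.cover2 (e 2) h1 h2
    have h6 := h5 1 (by omega) (hmem1 2)
    have h7 : i ≠ 0 := by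
      rintro rfl
      exact hB.gap 2 (by omega) (by omega) h3
    have h8 : i = 1 := by omega
    rw [h8] at h4
    exact h4
  -- the rest is bridgeless
  have hbr : G.Bridgeless R := by
    intro u hu
    have huR := (memR u).1 hu.1
    by_cases hue : u = e0
    · subst hue
      refine hu.2 x y hD.ends ?_
      have hx0 : x ≠ v 0 := by
        intro h1
        apply hne
        refine two_unique h w0 we0 (v := x) ?_ ?_
        · rw [hB.ends 0, h1]
          exact Sym2.mem_mk_left _ _
        · rw [hD.ends]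
          exact Sym2.mem_mk_left _ _
      have hxB : G.deg B x = 2 := hBd x ((hD.first 0 (by omega)).2 rfl) hx0
      have hz : v 2 ∈ G.ends (e 2) := by
        rw [hB.ends 2]
        exact Sym2.mem_mk_left _ _
      have hzB : G.deg B (v 2) = 2 := hBc.deg_eq_two hr2B hz
      have hzD : G.deg (D 2) (v 2) = 2 := (hD.circ 2 (by omega)).deg_eq_two hr2D hz
      have hxz : G.ConnIn (R.erase u) x (v 2) := ConnIn.mono hBR (hBc.2.2 x (v 2) hxB hzB)
      exact conn_chain hD hDR hxz hzD (s + 1) (by omega) (by omega) y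
        ((hD.last (s + 1) (by omega)).2 rfl)
    · have h1 : chi B u + ∑ i ∈ Finset.range s, chi (D (i + 2)) u ≠ 0 := by
        have h2 := hw u hue huR.1
        have h3 := huR.2
        omega
      by_cases huB : u ∈ B
      · exact not_bridge hBc.isEven (hBR.trans (Finset.erase_subset _ _)) huB hu
      · rw [chi_neg huB, zero_add] at h1
        obtain ⟨i, hi, h2⟩ := Finset.exists_ne_zero_of_sum_ne_zero h1
        rw [Finset.mem_range] at hi
        exact not_bridge (hD.circ (i + 2) (by omega)).isEven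
          ((hDR (i + 2) (by omega) (by omega)).trans (Finset.erase_subset _ _)) (chi_ne h2) hu
  have hmemL : ∀ C' ∈ [C], G.IsCircuit C' ∧ C' ⊆ Finset.univ.erase (e 0) := by
    intro C' hC'
    rw [List.mem_singleton] at hC'
    subst hC'
    refine ⟨hCc, fun g hg => Finset.mem_erase.2 ⟨?_, Finset.mem_univ _⟩⟩
    rintro rfl
    exact he0C hg
  obtain ⟨L', hL'1, hL'2⟩ := h.ext (e 0) w0 [C] hmemL
    (fun g _ => by rw [hcL]; exact hle g) hbr
  obtain ⟨D', hD', hmem⟩ := a_Chain V E G w h.mc (e 0) (v 0) (v 1) w0 (hB.ends 0) ([C] ++ L')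
    (fun C' hC' => by
      rcases List.mem_append.1 hC' with h1 | h1
      · exact hmemL C' h1
      · exact hL'1 C' h1)
    hL'2
  obtain ⟨j, hj, hCj⟩ := (hmem C).1 (List.mem_append.2 (Or.inl (List.mem_singleton.2 rfl)))
  have hfC : f ∈ C := by
    rw [hC]
    unfold newEnd
    exact Finset.mem_insert_self _ _
  have hv0f : v 0 ∈ G.ends f := by
    rw [hB.ef]
    exact Sym2.mem_mk_left _ _
  have hdegC : G.deg C (v 0) = 2 := hCc.deg_eq_two hfC hv0f
  have hj0 : j = 0 := by
    refine (hD'.first j hj).1 ?_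
    rw [← hCj]
    exact hdegC
  rw [hj0] at hCj
  refine ⟨_, D', ?_, hD', hCj.symm, ?_⟩
  · have h1 := hL'2 e0 (Finset.mem_erase.2 ⟨hne.symm, Finset.mem_univ _⟩)
    rw [List.countP_append, hcL, chi_neg hrC, zero_add, we0] at h1
    have h2 : L'.countP (fun C => decide (e0 ∈ C)) ≤ L'.length := List.countP_le_length
    rw [List.length_append, List.length_singleton]
    omega
  · rw [← hCj]
    exact hcardC

end MGraph

end Pool.GOD
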